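import Mathlib

-- part Pool.Agent.Lib.MP_3184af_co.Packing
section

/-!
A packing lemma for monotone submodular functions (in the style of Rado and Welsh).
-/

namespace Pool.Agent.Lib.MP_3184af_co

open Finset

section
variable {α C : Type} [DecidableEq α] [DecidableEq C] [Fintype C]

theorem pack_step (E : Finset α) (r : C → Finset α → ℕ)
    (mono : ∀ c X Y, X ⊆ Y → r c X ≤ r c Y)
    (sub : ∀ c X Y, r c (X ∪ Y) + r c (X ∩ Y) ≤ r c X + r c Y) (t : ℕ)
    (A : C → Finset α) (e : α) (he : e ∈ E) (c1 c2 : C) (h12 : c1 ≠ c2) (h1 : e ∈ A c1)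
    (h2 : e ∈ A c2) (H : ∀ X ⊆ E, t ≤ (E \ X).card + ∑ c, r c (X ∩ A c)) :
    ∃ c0, e ∈ A c0 ∧
      ∀ X ⊆ E, t ≤ (E \ X).card + ∑ c, r c (X ∩ Function.update A c0 ((A c0).erase e) c) := by
  by_contra hcon
  push Not at hcon
  obtain ⟨X1, hX1, k1⟩ := hcon c1 h1
  obtain ⟨X2, hX2, k2⟩ := hcon c2 h2
  have mem : ∀ (c0 : C) (X : Finset α), X ⊆ E →
      (E \ X).card + ∑ c, r c (X ∩ Function.update A c0 ((A c0).erase e) c) < t → e ∈ X := by
    intro c0 X hX k
    by_contra hn
    have : ∀ c, X ∩ Function.update A c0 ((A c0).erase e) c = X ∩ A c := by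
      intro c
      by_cases hc : c = c0
      · subst hc
        ext x
        simp only [Function.update_self, mem_inter, mem_erase]
        constructor
        · rintro ⟨a, _, b⟩; exact ⟨a, b⟩
        · rintro ⟨a, b⟩; exact ⟨a, fun h => hn (h ▸ a), b⟩
      · simp [Function.update_of_ne hc]
    simp only [this] at k
    exact absurd (H X hX) (by omega)
  have e1 := mem c1 X1 hX1 k1
  have e2 := mem c2 X2 hX2 k2
  have hY := H (X1 ∪ X2) (union_subset hX1 hX2)
  have hZ := H ((X1 ∩ X2).erase e) ((erase_subset _ _).trans (inter_subset_left.trans hX1))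
  have hcard : (E \ (X1 ∪ X2)).card + (E \ (X1 ∩ X2).erase e).card
      = (E \ X1).card + (E \ X2).card + 1 := by
    have a1 : E \ (X1 ∩ X2).erase e = insert e ((E \ X1) ∪ (E \ X2)) := by
      ext x
      simp only [mem_sdiff, mem_erase, mem_inter, mem_insert, mem_union]
      by_cases hx : x = e
      · subst hx; simp [he]
      · tauto
    have a2 : E \ (X1 ∪ X2) = (E \ X1) ∩ (E \ X2) := by
      ext x
      simp only [mem_sdiff, mem_inter, mem_union]
      tauto
    have a3 : e ∉ (E \ X1) ∪ (E \ X2) := by simp [e1, e2]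
    rw [a1, a2, card_insert_of_notMem a3]
    have := card_union_add_card_inter (E \ X1) (E \ X2)
    omega
  have hsum : ∑ c, r c ((X1 ∪ X2) ∩ A c) + ∑ c, r c ((X1 ∩ X2).erase e ∩ A c) ≤
      ∑ c, r c (X1 ∩ Function.update A c1 ((A c1).erase e) c) +
      ∑ c, r c (X2 ∩ Function.update A c2 ((A c2).erase e) c) := by
    rw [← sum_add_distrib, ← sum_add_distrib]
    refine sum_le_sum fun c _ => le_trans (Nat.add_le_add (mono c _ _ ?_) (mono c _ _ ?_)) (sub c _ _)
    · intro x
      by_cases hc1 : c = c1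
      · subst hc1
        simp only [Function.update_self, Function.update_of_ne h12, mem_inter, mem_union, mem_erase]
        by_cases hx : x = e
        · subst hx; tauto
        · tauto
      · by_cases hc2 : c = c2
        · subst hc2
          simp only [Function.update_self, Function.update_of_ne hc1, mem_inter, mem_union,
            mem_erase]
          by_cases hx : x = e
          · subst hx; tauto
          · tauto
        · simp only [Function.update_of_ne hc1, Function.update_of_ne hc2, mem_inter, mem_union]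
          tauto
    · intro x
      by_cases hc1 : c = c1
      · subst hc1
        simp only [Function.update_self, Function.update_of_ne h12, mem_inter, mem_erase]
        tauto
      · by_cases hc2 : c = c2
        · subst hc2
          simp only [Function.update_self, Function.update_of_ne hc1, mem_inter, mem_erase]
          tauto
        · simp only [Function.update_of_ne hc1, Function.update_of_ne hc2, mem_inter, mem_erase]
          tauto
  omega

theorem pack_aux (E : Finset α) (r : C → Finset α → ℕ)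
    (mono : ∀ c X Y, X ⊆ Y → r c X ≤ r c Y)
    (sub : ∀ c X Y, r c (X ∪ Y) + r c (X ∩ Y) ≤ r c X + r c Y) (t : ℕ) (n : ℕ) :
    ∀ A : C → Finset α, ∑ c, (A c).card ≤ n → (∀ c, A c ⊆ E) →
      (∀ X ⊆ E, t ≤ (E \ X).card + ∑ c, r c (X ∩ A c)) →
      ∃ B : C → Finset α, (∀ c, B c ⊆ E) ∧ (∀ c c', c ≠ c' → Disjoint (B c) (B c')) ∧
        ∀ X ⊆ E, t ≤ (E \ X).card + ∑ c, r c (X ∩ B c) := by
  induction n with
  | zero =>
    intro A hn hA H
    have h0 : ∀ c, A c = ∅ := fun c =>
      card_eq_zero.1 (Nat.le_zero.1 ((single_le_sum (f := fun c => (A c).card)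
        (fun _ _ => Nat.zero_le _) (mem_univ c)).trans hn))
    exact ⟨A, hA, fun c c' _ => by simp [h0], H⟩
  | succ n ih =>
    intro A hn hA H
    by_cases hd : ∀ c c', c ≠ c' → Disjoint (A c) (A c')
    · exact ⟨A, hA, hd, H⟩
    · push Not at hd
      obtain ⟨c1, c2, h12, hd⟩ := hd
      obtain ⟨e, h1, h2⟩ := not_disjoint_iff.1 hd
      obtain ⟨c0, h0, H'⟩ := pack_step E r mono sub t A e (hA _ h1) c1 c2 h12 h1 h2 H
      refine ih _ ?_ ?_ H'
      · have a := add_sum_erase univ (fun c => (A c).card) (mem_univ c0)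
        have b := add_sum_erase univ
          (fun c => (Function.update A c0 ((A c0).erase e) c).card) (mem_univ c0)
        have c : ∑ x ∈ univ.erase c0, (Function.update A c0 ((A c0).erase e) x).card =
            ∑ x ∈ univ.erase c0, (A x).card :=
          sum_congr rfl fun x hx => by rw [Function.update_of_ne (ne_of_mem_erase hx)]
        have d := card_erase_add_one h0
        simp only [Function.update_self] at a b
        omega
      · intro c
        by_cases hc : c = c0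
        · subst hc
          simpa using (erase_subset _ _).trans (hA c)
        · simpa [Function.update_of_ne hc] using hA c

/-- Packing lemma. -/
theorem packing (E : Finset α) (r : C → Finset α → ℕ)
    (mono : ∀ c X Y, X ⊆ Y → r c X ≤ r c Y)
    (sub : ∀ c X Y, r c (X ∪ Y) + r c (X ∩ Y) ≤ r c X + r c Y) (t : ℕ)
    (H : ∀ X ⊆ E, t ≤ (E \ X).card + ∑ c, r c X) :
    ∃ B : C → Finset α, (∀ c, B c ⊆ E) ∧ (∀ c c', c ≠ c' → Disjoint (B c) (B c')) ∧
      ∀ X ⊆ E, t ≤ (E \ X).card + ∑ c, r c (X ∩ B c) :=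
  pack_aux E r mono sub t _ (fun _ => E) le_rfl (fun _ => Subset.rfl) fun X hX => by
    simpa [inter_eq_left.2 hX] using H X hX

/-- A reservoir and `m` disjoint rich parts. -/
theorem parts [Fintype α] (r : Finset α → ℕ) (mono : ∀ X Y, X ⊆ Y → r X ≤ r Y)
    (sub : ∀ X Y, r (X ∪ Y) + r (X ∩ Y) ≤ r X + r Y) (m n : ℕ)
    (h : n + m * r univ ≤ Fintype.card α) :
    ∃ (E Res : Finset α) (B : Fin m → Finset α), Res ⊆ E ∧ (∀ c, B c ⊆ E) ∧ n ≤ Res.card ∧
      (∀ c, Disjoint Res (B c)) ∧ (∀ c c', c ≠ c' → Disjoint (B c) (B c')) ∧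
      ∀ c, ∀ Y ⊆ B c, r E ≤ (B c \ Y).card + r Y := by
  obtain ⟨E, -, hE⟩ := exists_max_image (univ : Finset (Finset α))
    (fun X => (X.card : ℤ) - m * r X) univ_nonempty
  have hE' : ∀ X : Finset α, X.card + m * r E ≤ E.card + m * r X := by
    intro X
    have := hE X (mem_univ _)
    zify
    linarith
  let r' : Option (Fin m) → Finset α → ℕ := fun c X => c.elim (min X.card n) fun _ => r X
  have hr : ∀ B : Option (Fin m) → Finset α,
      ∑ c, r' c (B c) = min (B none).card n + ∑ c, r (B (some c)) := by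
    intro B
    rw [Fintype.sum_option]
    rfl
  obtain ⟨B, hB, hd, ht⟩ := packing E r'
    (by
      rintro (_ | c) X Y hXY
      · exact min_le_min_right _ (card_le_card hXY)
      · exact mono _ _ hXY)
    (by
      rintro (_ | c) X Y
      · have a := card_union_add_card_inter X Y
        have b := card_le_card (inter_subset_left (s₁ := X) (s₂ := Y))
        have c := card_le_card (inter_subset_right (s₁ := X) (s₂ := Y))
        change min _ _ + min _ _ ≤ min _ _ + min _ _
        omega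
      · exact sub X Y)
    (m * r E + n)
    (by
      intro X hX
      rw [hr fun _ => X]
      have a := card_sdiff_add_card_eq_card hX
      have b := hE' X
      have c := hE' univ
      rw [card_univ] at c
      simp only [sum_const, card_univ, Fintype.card_fin, smul_eq_mul]
      omega)
  have hc : ∑ _c : Fin m, r E = m * r E := by simp
  refine ⟨E, B none, fun c => B (some c), hB _, fun c => hB _, ?_,
    fun c => hd _ _ (by simp), fun c c' hcc => hd _ _ (by simpa using hcc), fun c Y hY => ?_⟩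
  · have h1 := ht E Subset.rfl
    rw [hr fun c => E ∩ B c, inter_eq_right.2 (hB _), sdiff_self, bot_eq_empty, card_empty] at h1
    have hs : ∑ c, r (E ∩ B (some c)) ≤ ∑ _c : Fin m, r E :=
      sum_le_sum fun c _ => mono _ _ inter_subset_left
    omega
  · change r E ≤ (B (some c) \ Y).card + r Y
    have h1 := ht (E \ (B (some c) \ Y)) sdiff_subset
    rw [hr fun c' => (E \ (B (some c) \ Y)) ∩ B c',
      Finset.sdiff_sdiff_eq_self (sdiff_subset.trans (hB _)),
      ← add_sum_erase _ _ (mem_univ c)] at h1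
    rw [← add_sum_erase _ _ (mem_univ c)] at hc
    have h2 : r (E \ (B (some c) \ Y) ∩ B (some c)) ≤ r Y := mono _ _ fun x hx => by
      simp only [mem_inter, mem_sdiff] at hx
      tauto
    have hs : ∑ c' ∈ univ.erase c, r (E \ (B (some c) \ Y) ∩ B (some c')) ≤
        ∑ _c ∈ univ.erase c, r E :=
      sum_le_sum fun c _ => mono _ _ (inter_subset_left.trans sdiff_subset)
    omega

end

end Pool.Agent.Lib.MP_3184af_co
end

-- part Pool.Agent.Lib.MP_3184af_co.Rank
section

/-!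
Weighted rank functions `L ↦ ∑ j, c j * Ω |p ^ j L|` on subgroups, and the structure of
finite abelian `p`-groups.
-/

namespace Pool.Agent.Lib.MP_3184af_co

open Finset ArithmeticFunction

section
variable {A ι : Type} [AddCommGroup A]

theorem card_inf_mul (H K : AddSubgroup A) :
    Nat.card (H ⊓ K : AddSubgroup A) * H.relIndex K = Nat.card K := by
  have h := AddSubgroup.card_mul_index (H.addSubgroupOf K)
  have e : Nat.card (H.addSubgroupOf K) = Nat.card (H ⊓ K : AddSubgroup A) := by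
    rw [← AddSubgroup.inf_addSubgroupOf_right]
    exact Nat.card_congr (AddSubgroup.addSubgroupOfEquivOfLe inf_le_right).toEquiv
  rw [← e]
  exact h

theorem card_sup_inf (H K : AddSubgroup A) :
    Nat.card (H ⊔ K : AddSubgroup A) * Nat.card (H ⊓ K : AddSubgroup A) =
      Nat.card H * Nat.card K := by
  have a := card_inf_mul K (H ⊔ K)
  have b := card_inf_mul K H
  rw [AddSubgroup.relIndex_sup_right, inf_eq_left.2 le_sup_right] at a
  rw [← a, ← b, inf_comm K H]
  ring

theorem om_le [Finite A] {H K : AddSubgroup A} (h : H ≤ K) :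
    cardFactors (Nat.card H) ≤ cardFactors (Nat.card K) := by
  obtain ⟨n, hn⟩ := AddSubgroup.card_dvd_of_le h
  have h1 : Nat.card H ≠ 0 := Nat.card_pos.ne'
  have h2 : n ≠ 0 := by
    rintro rfl
    exact (Nat.card_pos (α := K)).ne' (by simpa using hn)
  have h3 := cardFactors_mul h1 h2
  rw [← hn] at h3
  omega

/-- The number of prime factors of the order of `n L`. -/
noncomputable def lam (n : ℕ) (L : AddSubgroup A) : ℕ :=
  cardFactors (Nat.card (L.map (nsmulAddMonoidHom n)))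

theorem lam_mono [Finite A] (n : ℕ) {H K : AddSubgroup A} (h : H ≤ K) : lam n H ≤ lam n K :=
  om_le (AddSubgroup.map_mono h)

theorem lam_sub [Finite A] (n : ℕ) (H K : AddSubgroup A) :
    lam n (H ⊔ K) + lam n (H ⊓ K) ≤ lam n H + lam n K := by
  have h3 := om_le (AddSubgroup.map_inf_le H K (nsmulAddMonoidHom n))
  have h4 := congrArg cardFactors
    (card_sup_inf (H.map (nsmulAddMonoidHom n)) (K.map (nsmulAddMonoidHom n)))
  rw [cardFactors_mul Nat.card_pos.ne' Nat.card_pos.ne',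
    cardFactors_mul Nat.card_pos.ne' Nat.card_pos.ne'] at h4
  simp only [lam, AddSubgroup.map_sup]
  omega

theorem lam_quot [Finite A] (n : ℕ) {W K : AddSubgroup A} (h : W ≤ K) :
    lam n W + lam n (K.map (QuotientAddGroup.mk' W)) ≤ lam n K := by
  have h1 := card_inf_mul W (K.map (nsmulAddMonoidHom n))
  have h2 := AddSubgroup.relIndex_ker (K := K.map (nsmulAddMonoidHom n)) (QuotientAddGroup.mk' W)
  rw [QuotientAddGroup.ker_mk'] at h2
  have h3 : (K.map (nsmulAddMonoidHom n)).map (QuotientAddGroup.mk' W) =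
      (K.map (QuotientAddGroup.mk' W)).map (nsmulAddMonoidHom n) := by
    rw [AddSubgroup.map_map, AddSubgroup.map_map]
    congr 1
  rw [h2, h3] at h1
  have h4 := congrArg cardFactors h1
  rw [cardFactors_mul Nat.card_pos.ne' Nat.card_pos.ne'] at h4
  have h5 : W.map (nsmulAddMonoidHom n) ≤ W ⊓ K.map (nsmulAddMonoidHom n) := by
    refine le_inf ?_ (AddSubgroup.map_mono h)
    rintro _ ⟨x, hx, rfl⟩
    exact nsmul_mem hx n
  have h6 := om_le h5
  simp only [lam]
  omega

theorem card_zm {p : ℕ} (hp : p.Prime) (f j : ℕ) :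
    Nat.card (AddSubgroup.zmultiples ((p ^ j : ℕ) : ZMod (p ^ f))) = p ^ (f - j) := by
  rw [Nat.card_zmultiples, ZMod.addOrderOf_coe _ (pow_pos hp.pos f).ne']
  rcases le_total f j with h | h
  · rw [Nat.gcd_eq_left (pow_dvd_pow p h), Nat.div_self (pow_pos hp.pos f),
      Nat.sub_eq_zero_of_le h, pow_zero]
  · rw [Nat.gcd_eq_right (pow_dvd_pow p h), Nat.pow_div h hp.pos]

theorem mem_zm {N n : ℕ} (x : ZMod N) :
    x ∈ AddSubgroup.zmultiples ((n : ℕ) : ZMod N) ↔ ∃ y, n • y = x := by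
  constructor
  · rintro ⟨z, rfl⟩
    exact ⟨z, by simp [mul_comm]⟩
  · rintro ⟨y, rfl⟩
    obtain ⟨z, rfl⟩ := ZMod.intCast_surjective y
    exact ⟨z, by simp [mul_comm]⟩

theorem basis_ex {p : ℕ} (hp : p.Prime) [Finite A] (e : ℕ) (hA : ∀ x : A, p ^ e • x = 0) :
    ∃ (ι : Type) (_ : Fintype ι) (g : ι → A) (f : ι → ℕ),
      (∀ i, f i ≤ e ∧ p ^ f i • g i = 0) ∧
      (∀ x, x ∈ AddSubgroup.closure (Set.range g)) ∧
      (∀ c : ι → ℕ, (∀ i, c i < p ^ f i) → ∑ i, c i • g i = 0 → ∀ i, c i = 0) ∧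
      ∀ j, lam (p ^ j) (⊤ : AddSubgroup A) = ∑ i, (f i - j) := by
  classical
  obtain ⟨ι, _, N, hN, ⟨e0⟩⟩ := AddCommGroup.equiv_directSum_zmod_of_finite' A
  let φ : A ≃+ ∀ i, ZMod (N i) := e0.trans (DirectSum.addEquivProd _)
  have hf : ∀ i, ∃ f ≤ e, N i = p ^ f := by
    intro i
    have h1 := congrFun (congrArg φ (hA (φ.symm (Pi.single i 1)))) i
    have h2 : ((p ^ e : ℕ) : ZMod (N i)) = 0 := by simpa using h1
    exact (Nat.dvd_prime_pow hp).1 ((ZMod.natCast_eq_zero_iff _ _).1 h2)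
  choose f hfe hf using hf
  clear_value φ
  obtain rfl : N = fun i => p ^ f i := funext hf
  have key : ∀ c : ι → ℕ,
      φ (∑ i, c i • φ.symm (Pi.single i 1)) = fun i => (c i : ZMod (p ^ f i)) := by
    intro c
    funext j
    simp only [map_sum, map_nsmul, AddEquiv.apply_symm_apply, Finset.sum_apply, Pi.smul_apply]
    rw [Finset.sum_eq_single j (fun i _ hi => by simp [Pi.single_eq_of_ne hi.symm]) (by simp)]
    simp
  refine ⟨ι, inferInstance, fun i => φ.symm (Pi.single i 1), f, fun i => ⟨hfe i, ?_⟩,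
    fun x => ?_, fun c hc h i => ?_, fun j => ?_⟩
  · rw [← map_nsmul, ← Pi.single_smul, nsmul_eq_mul, ZMod.natCast_self]
    simp
  · have : x = ∑ i, (φ x i).val • φ.symm (Pi.single i 1) := by
      apply φ.injective
      rw [key]
      funext i
      have : NeZero (p ^ f i) := ⟨(pow_pos hp.pos _).ne'⟩
      simp
    rw [this]
    exact sum_mem fun i _ => nsmul_mem (AddSubgroup.subset_closure (Set.mem_range_self i)) _
  · have h1 := congrFun (key c) i
    rw [h] at h1
    have h2 : ((c i : ℕ) : ZMod (p ^ f i)) = 0 := by simpa using h1.symm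
    exact Nat.eq_zero_of_dvd_of_lt ((ZMod.natCast_eq_zero_iff _ _).1 h2) (hc i)
  · have h1 : Nat.card ((⊤ : AddSubgroup A).map (nsmulAddMonoidHom (p ^ j))) =
        Nat.card (∀ i, AddSubgroup.zmultiples ((p ^ j : ℕ) : ZMod (p ^ f i))) := by
      refine Nat.card_congr ((φ.toEquiv.subtypeEquiv fun x => ?_).trans Equiv.subtypePiEquivPi)
      simp only [mem_zm]
      constructor
      · rintro ⟨y, -, rfl⟩ i
        exact ⟨φ y i, by simp⟩
      · intro h
        choose y hy using h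
        refine ⟨φ.symm y, trivial, φ.injective ?_⟩
        funext i
        simpa using hy i
    rw [lam, h1, Nat.card_pi]
    simp only [card_zm hp]
    rw [prod_pow_eq_pow_sum, cardFactors_apply_prime_pow hp]

theorem basis_sub {p : ℕ} (hp : p.Prime) [Finite A] (e : ℕ) (hA : ∀ x : A, p ^ e • x = 0)
    (Q : AddSubgroup A) :
    ∃ (ι : Type) (_ : Fintype ι) (g : ι → A) (f : ι → ℕ),
      (∀ i, f i ≤ e ∧ p ^ f i • g i = 0 ∧ g i ∈ Q) ∧
      Q ≤ AddSubgroup.closure (Set.range g) ∧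
      (∀ c : ι → ℕ, (∀ i, c i < p ^ f i) → ∑ i, c i • g i = 0 → ∀ i, c i = 0) ∧
      ∀ j, lam (p ^ j) Q = ∑ i, (f i - j) := by
  obtain ⟨κ, _, g, f, h1, h2, h3, h4⟩ := basis_ex (A := Q) hp e fun x => Subtype.ext (hA x)
  refine ⟨κ, inferInstance, fun i => g i, f,
    fun i => ⟨(h1 i).1, congrArg Subtype.val (h1 i).2, (g i).2⟩, fun x hx => ?_,
    fun c hc h => h3 c hc (Subtype.ext (by simpa using h)), fun j => ?_⟩
  · have h5 := AddSubgroup.mem_map_of_mem Q.subtype (h2 ⟨x, hx⟩)
    rw [AddMonoidHom.map_closure, ← Set.range_comp] at h5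
    simpa [Function.comp_def] using h5
  · rw [← h4, lam, lam, ← AddSubgroup.card_subtype Q, AddSubgroup.map_map]
    congr 3
    ext x
    simp

/-- The weighted rank. -/
noncomputable def wr (p e : ℕ) (c : ℕ → ℕ) (L : AddSubgroup A) : ℕ :=
  ∑ j ∈ range e, c j * lam (p ^ j) L

/-- The weighted rank of a cyclic group of order `p ^ f`. -/
def gam (e : ℕ) (c : ℕ → ℕ) (f : ℕ) : ℕ := ∑ j ∈ range e, c j * (f - j)

theorem wr_eq {p e : ℕ} (c : ℕ → ℕ) {L : AddSubgroup A} {κ : Type} [Fintype κ] {f : κ → ℕ}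
    (h : ∀ j, lam (p ^ j) L = ∑ i, (f i - j)) : wr p e c L = ∑ i, gam e c (f i) := by
  simp only [wr, gam, h, mul_sum]
  exact sum_comm

theorem wr_mono [Finite A] (p e : ℕ) (c : ℕ → ℕ) {H K : AddSubgroup A} (h : H ≤ K) :
    wr p e c H ≤ wr p e c K :=
  sum_le_sum fun _ _ => Nat.mul_le_mul_left _ (lam_mono _ h)

theorem wr_sub [Finite A] (p e : ℕ) (c : ℕ → ℕ) (H K : AddSubgroup A) :
    wr p e c (H ⊔ K) + wr p e c (H ⊓ K) ≤ wr p e c H + wr p e c K := by
  simp only [wr, ← sum_add_distrib, ← mul_add]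
  exact sum_le_sum fun _ _ => Nat.mul_le_mul_left _ (lam_sub _ H K)

theorem wr_quot [Finite A] (p e : ℕ) (c : ℕ → ℕ) {W K : AddSubgroup A} (h : W ≤ K) :
    wr p e c W + wr p e c (K.map (QuotientAddGroup.mk' W)) ≤ wr p e c K := by
  simp only [wr, ← sum_add_distrib, ← mul_add]
  exact sum_le_sum fun _ _ => Nat.mul_le_mul_left _ (lam_quot _ h)

theorem wr_prod [Finite A] {p : ℕ} (hp : p.Prime) (e : ℕ) (c : ℕ → ℕ) :
    wr p e c (⊤ : AddSubgroup (A × ZMod (p ^ e))) ≤ wr p e c (⊤ : AddSubgroup A) + gam e c e := by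
  have : NeZero (p ^ e) := ⟨(pow_pos hp.pos _).ne'⟩
  simp only [wr, gam, ← sum_add_distrib, ← mul_add]
  refine sum_le_sum fun j _ => Nat.mul_le_mul_left _ ?_
  have h1 : (⊤ : AddSubgroup (A × ZMod (p ^ e))).map (nsmulAddMonoidHom (p ^ j)) ≤
      ((⊤ : AddSubgroup A).map (nsmulAddMonoidHom (p ^ j))).prod
        (AddSubgroup.zmultiples ((p ^ j : ℕ) : ZMod (p ^ e))) := by
    rintro _ ⟨x, -, rfl⟩
    exact ⟨⟨x.1, trivial, rfl⟩, (mem_zm _).2 ⟨x.2, rfl⟩⟩
  refine (om_le h1).trans ?_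
  rw [Nat.card_congr (AddSubgroup.prodEquiv _ _).toEquiv, Nat.card_prod,
    cardFactors_mul Nat.card_pos.ne' Nat.card_pos.ne', card_zm hp,
    cardFactors_apply_prime_pow hp]
  rfl

/-- The subgroup generated by the `v i` with `i ∈ X`. -/
def gen (v : ι → A) (X : Finset ι) : AddSubgroup A := AddSubgroup.closure (v '' X)

theorem gen_mono (v : ι → A) {X Y : Finset ι} (h : X ⊆ Y) : gen v X ≤ gen v Y :=
  AddSubgroup.closure_mono (Set.image_mono (by exact_mod_cast h))

theorem gen_sub [Finite A] [DecidableEq ι] (p e : ℕ) (c : ℕ → ℕ) (v : ι → A) (X Y : Finset ι) :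
    wr p e c (gen v (X ∪ Y)) + wr p e c (gen v (X ∩ Y)) ≤
      wr p e c (gen v X) + wr p e c (gen v Y) := by
  have h1 : gen v (X ∪ Y) = gen v X ⊔ gen v Y := by
    simp only [gen, coe_union, Set.image_union, AddSubgroup.closure_union]
  have h2 : gen v (X ∩ Y) ≤ gen v X ⊓ gen v Y :=
    le_inf (gen_mono v inter_subset_left) (gen_mono v inter_subset_right)
  have h3 := wr_mono p e c h2
  have h4 := wr_sub p e c (gen v X) (gen v Y)
  rw [h1]
  omega

end

end Pool.Agent.Lib.MP_3184af_co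
end

-- part Pool.Agent.Lib.MP_3184af_co.Ring
section

/-!
The group ring over `ZMod p` and nilpotency of its augmentation ideals.
-/

namespace Pool.Agent.Lib.MP_3184af_co

open Finset

section
variable (p : ℕ) [Fact p.Prime] {G : Type} [AddCommGroup G]

/-- The basis element of the group ring. -/
noncomputable def X (g : G) : AddMonoidAlgebra (ZMod p) G := AddMonoidAlgebra.single g 1

/-- The ideal generated by the `X g - 1` with `g ∈ S`. -/
noncomputable def J (S : Set G) : Ideal (AddMonoidAlgebra (ZMod p) G) :=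
  Ideal.span ((fun g => X p g - 1) '' S)

variable {p}

theorem X_add (g h : G) : X p (g + h) = X p g * X p h := by simp [X]

theorem X_zero : X p (0 : G) = 1 := rfl

theorem X_pow (g : G) (f : ℕ) : (X p g - 1) ^ p ^ f = X p (p ^ f • g) - 1 := by
  have : CharP (AddMonoidAlgebra (ZMod p) G) p :=
    charP_of_injective_algebraMap (algebraMap (ZMod p) _).injective p
  rw [sub_pow_char_pow, one_pow, X, AddMonoidAlgebra.single_pow, one_pow]
  rfl

theorem mem_J {S : Set G} {g : G} (h : g ∈ S) : X p g - 1 ∈ J p S :=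
  Ideal.subset_span ⟨g, h, rfl⟩

theorem J_le {S T : Set G} (h : S ⊆ AddSubgroup.closure T) : J p S ≤ J p T := by
  refine Ideal.span_le.2 ?_
  rintro _ ⟨g, hg, rfl⟩
  have hg' := h hg
  change X p g - 1 ∈ J p T
  clear hg
  induction hg' using AddSubgroup.closure_induction with
  | mem x hx => exact mem_J hx
  | zero => simp [X_zero]
  | add x y _ _ hx hy =>
    have : X p (x + y) - 1 = X p x * (X p y - 1) + (X p x - 1) := by rw [X_add]; ring
    rw [this]
    exact add_mem (Ideal.mul_mem_left _ _ hy) hx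
  | neg x _ hx =>
    have : X p (-x) - 1 = -X p (-x) * (X p x - 1) := by
      have := X_add (p := p) (-x) x
      rw [neg_add_cancel, X_zero] at this
      linear_combination -this
    rw [this]
    exact Ideal.mul_mem_left _ _ hx

theorem sup_pow_le {R : Type} [CommRing R] {I I' A : Ideal R} {n m : ℕ} (h : I ^ (n + 1) ≤ A)
    (h' : I' ^ (m + 1) ≤ A) : (I ⊔ I') ^ (n + m + 1) ≤ A := by
  rw [← Ideal.add_eq_sup, add_pow, Ideal.sum_eq_sup]
  apply Finset.sup_le
  intro i hi
  by_cases hn : n + 1 ≤ i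
  · exact (Ideal.mul_le_left.trans (Ideal.mul_le_left.trans
      ((Ideal.pow_le_pow_right hn).trans h)))
  · refine (Ideal.mul_le_left.trans (Ideal.mul_le_right.trans
      ((Ideal.pow_le_pow_right ?_).trans h')))
    omega

theorem cap_add {ι : Type} (g : ι → G) (n : ι → ℕ)
    (I A : Ideal (AddMonoidAlgebra (ZMod p) G)) (k : ℕ) (hI : I ^ (k + 1) ≤ A) (s : Finset ι)
    (h : ∀ i ∈ s, (X p (g i) - 1) ^ (n i + 1) ∈ A) :
    (I ⊔ J p (g '' s)) ^ (k + ∑ i ∈ s, n i + 1) ≤ A := by
  classical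
  induction s using Finset.induction_on with
  | empty => simpa [J] using hI
  | insert i s hi ih =>
    have e : I ⊔ J p (g '' (insert i s : Finset ι)) =
        (I ⊔ J p (g '' s)) ⊔ Ideal.span {X p (g i) - 1} := by
      simp only [J, coe_insert, Set.image_insert_eq, Ideal.span_insert]
      ac_rfl
    have e2 : k + ∑ j ∈ insert i s, n j + 1 = (k + ∑ j ∈ s, n j) + n i + 1 := by
      rw [sum_insert hi]; ring
    rw [e, e2]
    refine sup_pow_le (ih fun j hj => h j (mem_insert_of_mem hj)) ?_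
    rw [Ideal.span_singleton_pow, Ideal.span_singleton_le_iff_mem]
    exact h i (mem_insert_self _ _)

theorem cap_quot {A : Type} [AddCommGroup A] [Finite A] {e : ℕ} (hA : ∀ x : A, p ^ e • x = 0)
    (φ : A →+ G) {c : ℕ → ℕ} {s : ℕ} (hs : ∀ f ≤ e, p ^ f ≤ s * gam e c f + 1)
    {W L : AddSubgroup A} (h : W ≤ L) {x : ℕ} (hx : wr p e c L ≤ x + wr p e c W)
    (Ann : Ideal (AddMonoidAlgebra (ZMod p) G)) (hW : J p (W.map φ : Set G) ≤ Ann) :
    J p (L.map φ : Set G) ^ (x * s + 1) ≤ Ann := by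
  have hp : p.Prime := Fact.out
  obtain ⟨κ, _, g, f, h1, h2, -, h4⟩ := basis_sub (A := A ⧸ W) hp e (fun y => by
    obtain ⟨y, rfl⟩ := QuotientAddGroup.mk'_surjective W y
    rw [← map_nsmul, hA, map_zero]) (L.map (QuotientAddGroup.mk' W))
  choose u hu using fun i => QuotientAddGroup.mk'_surjective W (g i)
  have h5 := cap_add (p := p) (fun i => φ (u i)) (fun i => p ^ f i - 1) (J p (W.map φ : Set G))
    Ann 0 (by simpa using hW) univ fun i _ => by
      rw [Nat.sub_add_cancel (pow_pos hp.pos _), X_pow, ← map_nsmul]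
      refine hW (mem_J ⟨_, ?_, rfl⟩)
      have := (h1 i).2.1
      rw [← hu, ← map_nsmul] at this
      exact (QuotientAddGroup.eq_zero_iff _).1 this
  have h6 : J p (L.map φ : Set G) ≤
      J p (W.map φ : Set G) ⊔ J p ((fun i => φ (u i)) '' (univ : Finset κ)) := by
    rw [J, J, J, ← Ideal.span_union, ← Set.image_union]
    refine J_le ?_
    rintro _ ⟨z, hz, rfl⟩
    have a1 := h2 (AddSubgroup.mem_map_of_mem _ hz)
    have a2 : Set.range g = QuotientAddGroup.mk' W '' Set.range u := by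
      rw [← Set.range_comp]
      exact congrArg _ (funext fun i => (hu i).symm)
    rw [a2, ← AddMonoidHom.map_closure] at a1
    obtain ⟨y, hy, a3⟩ := a1
    have a4 : -y + z ∈ W := QuotientAddGroup.eq.1 a3
    have a5 := AddSubgroup.mem_map_of_mem φ hy
    rw [AddMonoidHom.map_closure] at a5
    have a6 : φ z = φ y + φ (-y + z) := by simp
    rw [a6]
    refine add_mem (AddSubgroup.closure_mono ?_ a5)
      (AddSubgroup.subset_closure (Or.inl ⟨_, a4, rfl⟩))
    rintro _ ⟨_, ⟨i, rfl⟩, rfl⟩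
    exact Or.inr ⟨i, by simp, rfl⟩
  have h7 : ∑ i, (p ^ f i - 1) ≤ x * s := by
    have a1 := wr_quot p e c h
    rw [wr_eq c h4] at a1
    calc ∑ i, (p ^ f i - 1) ≤ ∑ i, s * gam e c (f i) :=
          sum_le_sum fun i _ => by have := hs _ (h1 i).1; omega
      _ = (∑ i, gam e c (f i)) * s := by rw [← mul_sum, mul_comm]
      _ ≤ x * s := Nat.mul_le_mul_right _ (by omega)
  exact (Ideal.pow_le_pow_right (by omega)).trans ((Ideal.pow_right_mono h6 _).trans h5)

omit [Fact p.Prime] in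
theorem zsf (K : AddSubgroup G) {d : ℕ}
    (hd : ∀ (α : Type) (s : Finset α) (f : α → G), d ≤ s.card →
      ∃ I ⊆ s, I.Nonempty ∧ ∑ i ∈ I, f i = 0)
    {ι : Type} (a : ι → G) (T : Finset ι) (hT : ∀ I ⊆ T, I.Nonempty → ∑ i ∈ I, a i ∉ K)
    {κ : Type} [Fintype κ] (g : κ → G) (n : κ → ℕ) (hg : ∀ i, g i ∈ K)
    (h3 : ∀ c : κ → ℕ, (∀ i, c i ≤ n i) → ∑ i, c i • g i = 0 → ∀ i, c i = 0) :
    ∑ i, n i + T.card < d := by
  classical
  by_contra hlt
  obtain ⟨I, hI, hne, h0⟩ := hd (ι ⊕ (Σ _ : κ, ℕ))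
    (T.disjSum (univ.sigma fun i => range (n i)))
    (Sum.elim a fun x => g x.1) (by simp [card_sigma]; omega)
  rw [subset_disjSum] at hI
  rw [sum_sum_eq_sum_toLeft_add_sum_toRight] at h0
  simp only [Sum.elim_inl, Sum.elim_inr] at h0
  have hl : I.toLeft = ∅ := by
    by_contra hl
    refine hT _ hI.1 (nonempty_iff_ne_empty.2 hl) ?_
    rw [eq_neg_of_add_eq_zero_left h0]
    exact neg_mem (sum_mem fun i _ => hg i.1)
  rw [hl, sum_empty, zero_add, ← sum_fiberwise' I.toRight (fun x => x.1) g] at h0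
  simp only [sum_const] at h0
  have hz := h3 (fun j => (I.toRight.filter fun x => x.1 = j).card) (fun j => by
    rw [← card_range (n j)]
    refine card_le_card_of_injOn (fun x => x.2) ?_ ?_
    · intro x hx
      simp only [coe_filter, Set.mem_ofPred_eq] at hx
      have := hI.2 hx.1
      simp only [mem_sigma, mem_univ, true_and] at this
      rw [hx.2] at this
      exact this
    · rintro ⟨x, y⟩ hx ⟨x', y'⟩ hx' hy
      simp only [coe_filter, Set.mem_ofPred_eq] at hx hx' hy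
      rw [hx.2, hx'.2, hy]) h0
  have hr : I.toRight = ∅ := by
    by_contra hr
    obtain ⟨x, hx⟩ := nonempty_iff_ne_empty.2 hr
    have := card_eq_zero.1 (hz x.1)
    exact (notMem_empty x) (this ▸ mem_filter.2 ⟨hx, rfl⟩)
  have := card_toLeft_add_card_toRight (u := I)
  rw [hl, hr] at this
  exact hne.ne_empty (card_eq_zero.1 this.symm)

theorem cap_sub [Finite G] (K : AddSubgroup G) (e : ℕ) (hG : ∀ x : G, p ^ e • x = 0) (d : ℕ)
    (hd : ∀ (α : Type) (s : Finset α) (f : α → G), d ≤ s.card →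
      ∃ I ⊆ s, I.Nonempty ∧ ∑ i ∈ I, f i = 0)
    {ι : Type} (a : ι → G) (T : Finset ι) (hT : ∀ I ⊆ T, I.Nonempty → ∑ i ∈ I, a i ∉ K) :
    ∃ s, s + T.card < d ∧ J p (K : Set G) ^ (s + 1) ≤ ⊥ := by
  have hp : p.Prime := Fact.out
  obtain ⟨κ, _, g, f, h1, h2, h3, -⟩ := basis_sub hp e hG K
  refine ⟨∑ i, (p ^ f i - 1), zsf K hd a T hT g _ (fun i => (h1 i).2.2) fun c hc =>
    h3 c fun i => by have := hc i; have := pow_pos hp.pos (f i); omega, ?_⟩
  have h4 := cap_add (p := p) g (fun i => p ^ f i - 1) ⊥ ⊥ 0 (by simp) univ fun i _ => by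
    rw [Nat.sub_add_cancel (pow_pos hp.pos _), X_pow, (h1 i).2.1, X_zero, sub_self]
    exact zero_mem _
  rw [bot_sup_eq, zero_add] at h4
  refine le_trans (Ideal.pow_right_mono (J_le fun x hx => ?_) _) h4
  simpa using h2 hx

end

end Pool.Agent.Lib.MP_3184af_co
end

-- part Pool.Agent.Lib.MP_3184af_co.Rounds
section

/-!
Greedy rounds: multiplying by differences `X (a r) - X (a b)` as long as the product is nonzero.
-/

namespace Pool.Agent.Lib.MP_3184af_co

open Finset

/-- The potential function. -/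
def pot (q δ : ℕ) : ℚ := ∑ t ∈ range δ, 1 / ((t / q : ℕ) + 1 : ℚ)

theorem pot_mono (q : ℕ) {a b : ℕ} (h : a ≤ b) : pot q a ≤ pot q b :=
  sum_le_sum_of_subset_of_nonneg (range_mono h) fun _ _ _ => by positivity

theorem pot_step {w δ δ' x : ℕ} (h0 : 0 < δ) (h1 : δ' + x ≤ δ)
    (h2 : δ' ≤ x * w) : pot (w + 1) δ' + 1 ≤ pot (w + 1) δ := by
  have h3 : δ' + x ≤ x * (w + 1) := by
    rw [Nat.mul_succ]
    omega
  have hq : 0 < w + 1 := Nat.succ_pos w
  generalize w + 1 = q at *
  rcases Nat.eq_zero_or_pos x with rfl | hx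
  · have : δ' = 0 := by omega
    subst this
    have := pot_mono q (show 1 ≤ δ from h0)
    simpa [pot] using this
  · refine le_trans ?_ (pot_mono q h1)
    rw [pot, pot, sum_range_add]
    have hx' : (0 : ℚ) < x := by exact_mod_cast hx
    have : ∑ _t ∈ range x, (1 / x : ℚ) ≤ ∑ t ∈ range x, 1 / (((δ' + t) / q : ℕ) + 1 : ℚ) := by
      refine sum_le_sum fun t ht => ?_
      have h4 : (δ' + t) / q < x := by
        rw [Nat.div_lt_iff_lt_mul hq]
        have := mem_range.1 ht
        omega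
      refine one_div_le_one_div_of_le (by positivity) ?_
      exact_mod_cast h4
    rw [sum_const, card_range, nsmul_eq_mul, mul_one_div_cancel hx'.ne'] at this
    linarith

theorem pot_mul {q : ℕ} (hq : 0 < q) (t : ℕ) : pot q (t * q) = q * harmonic t := by
  induction t with
  | zero => simp [pot]
  | succ t ih =>
    rw [Nat.succ_mul, pot, sum_range_add, ← pot, ih, harmonic_succ, mul_add]
    congr 1
    have : ∀ x ∈ range q, (1 / (((t * q + x) / q : ℕ) + 1 : ℚ)) = ((t + 1 : ℕ) : ℚ)⁻¹ := by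
      intro x hx
      have : (t * q + x) / q = t := by
        rw [add_comm, Nat.add_mul_div_right _ _ hq, Nat.div_eq_of_lt (mem_range.1 hx), zero_add]
      rw [this]
      simp
    rw [sum_congr rfl this, sum_const, card_range, nsmul_eq_mul]

section
variable (p : ℕ) [Fact p.Prime] {G : Type} [AddCommGroup G] {ι : Type} [DecidableEq ι]
  (a : ι → G) (K : AddSubgroup G) (E Res : Finset ι)

/-- The state of the greedy process. -/
structure St (P : AddMonoidAlgebra (ZMod p) G) (U : Finset ι) (j δ s : ℕ) : Prop where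
  ne : P ≠ 0
  supp : ∀ g, P.coeff g ≠ 0 → ∃ T ⊆ U, T.card = j ∧ ∑ i ∈ T, a i = g
  res : (U ∩ Res).card ≤ j
  cap : J p (K : Set G) ^ (δ + 1) ≤ Ideal.torsionOf _ _ P
  sub : U ⊆ E
  le : j + δ ≤ s

variable {p a K E Res}

theorem St.step {P : AddMonoidAlgebra (ZMod p) G} {U : Finset ι} {j δ s : ℕ}
    (hK : ∀ i ∈ E, a i ∈ K) (h : St p a K E Res P U j (δ + 1) s) {r b : ι} (hr : r ∉ U)
    (hb : b ∉ U) (hrE : r ∈ E) (hbE : b ∈ E) (hbR : b ∉ Res)
    (hne : (X p (a r) - X p (a b)) * P ≠ 0) :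
    St p a K E Res ((X p (a r) - X p (a b)) * P) (insert r (insert b U)) (j + 1) δ s where
  ne := hne
  supp g hg := by
    have key : ∀ c, c ∉ U → c ∈ insert r (insert b U) → P.coeff (-a c + g) ≠ 0 →
        ∃ T ⊆ insert r (insert b U), T.card = j + 1 ∧ ∑ i ∈ T, a i = g := by
      intro c hc hc' hg'
      obtain ⟨T, hT, h1, h2⟩ := h.supp _ hg'
      have hcT : c ∉ T := fun hh => hc (hT hh)
      refine ⟨insert c T, insert_subset hc'
        (hT.trans ((subset_insert _ _).trans (subset_insert _ _))), ?_, ?_⟩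
      · rw [card_insert_of_notMem hcT, h1]
      · rw [sum_insert hcT, h2]; abel
    by_cases h1 : P.coeff (-a r + g) = 0
    · refine key b hb (by simp) fun h2 => hg ?_
      simp [sub_mul, X, h1, h2]
    · exact key r hr (by simp) h1
  res := by
    have h1 := h.res
    have : insert r (insert b U) ∩ Res ⊆ insert r (U ∩ Res) := by
      intro x
      simp only [mem_inter, mem_insert]
      rintro ⟨rfl | rfl | h, h'⟩
      · exact Or.inl rfl
      · exact absurd h' hbR
      · exact Or.inr ⟨h, h'⟩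
    have h2 := card_le_card this
    have h3 := card_insert_le r (U ∩ Res)
    omega
  cap y hy := by
    have hu : X p (a r) - X p (a b) ∈ J p (K : Set G) := by
      have := sub_mem (mem_J (p := p) (S := (K : Set G)) (hK r hrE))
        (mem_J (p := p) (S := (K : Set G)) (hK b hbE))
      simpa using this
    have := h.cap (by rw [pow_succ]; exact Ideal.mul_mem_mul hy hu)
    rw [Ideal.mem_torsionOf_iff, smul_eq_mul] at this ⊢
    rw [← mul_assoc, this]
  sub := insert_subset hrE (insert_subset hbE h.sub)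
  le := by have := h.le; omega

theorem St.round {w s : ℕ} (hK : ∀ i ∈ E, a i ∈ K) (hRE : Res ⊆ E)
    (hs : s ≤ Res.card) {B : Finset ι} (hBE : B ⊆ E) (hBR : Disjoint Res B)
    (hgen : ∀ r ∈ Res, ∀ Y ⊆ B, ∀ Ann, J p ((fun i => a i - a r) '' Y) ≤ Ann →
      J p (K : Set G) ^ ((B \ Y).card * w + 1) ≤ Ann) (δ : ℕ) :
    ∀ (P : AddMonoidAlgebra (ZMod p) G) (U : Finset ι) (j : ℕ), St p a K E Res P U j δ s →
      ∃ P' U' j' δ', St p a K E Res P' U' j' δ' s ∧ U' ⊆ U ∪ Res ∪ B ∧
        ∃ x, δ' + x ≤ δ + (B ∩ U).card ∧ δ' ≤ x * w := by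
  induction δ with
  | zero =>
    intro P U j h
    exact ⟨P, U, j, 0, h, subset_union_left.trans subset_union_left, 0, by simp, by simp⟩
  | succ δ ih =>
    intro P U j h
    obtain ⟨r, hr, hrU⟩ : ∃ r ∈ Res, r ∉ U := by
      by_contra hc
      push Not at hc
      have h1 : U ∩ Res = Res := inter_eq_right.2 hc
      have h2 := h.res
      have h3 := h.le
      rw [h1] at h2
      omega
    by_cases hx : ∃ b ∈ B, b ∉ U ∧ (X p (a r) - X p (a b)) * P ≠ 0
    · obtain ⟨b, hb, hbU, hne⟩ := hx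
      obtain ⟨P', U', j', δ', h1, h2, x, h3, h4⟩ := ih _ _ _
        (h.step hK hrU hbU (hRE hr) (hBE hb) (disjoint_right.1 hBR hb) hne)
      refine ⟨P', U', j', δ', h1, h2.trans ?_, x, ?_, h4⟩
      · intro y
        simp only [mem_union, mem_insert]
        rintro (((rfl | rfl | h) | h) | h) <;> tauto
      · have : B ∩ insert r (insert b U) ⊆ insert b (B ∩ U) := by
          intro y
          simp only [mem_inter, mem_insert]
          rintro ⟨h', rfl | rfl | h⟩
          · exact absurd h' (disjoint_left.1 hBR hr)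
          · exact Or.inl rfl
          · exact Or.inr ⟨h', h⟩
        have h5 := card_le_card this
        have h6 := card_insert_le b (B ∩ U)
        omega
    · push Not at hx
      have h1 : J p ((fun i => a i - a r) '' (B \ U : Finset ι)) ≤
          Ideal.torsionOf _ _ P := by
        refine Ideal.span_le.2 ?_
        rintro _ ⟨_, ⟨b, hb, rfl⟩, rfl⟩
        have hb' := mem_sdiff.1 (mem_coe.1 hb)
        have h2 := hx b hb'.1 hb'.2
        have h3 := X_add (p := p) (-a r) (a r)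
        have h4 := X_add (p := p) (-a r) (a b)
        rw [neg_add_cancel, X_zero] at h3
        rw [neg_add_eq_sub] at h4
        rw [SetLike.mem_coe, Ideal.mem_torsionOf_iff, smul_eq_mul]
        linear_combination (-X p (-a r)) * h2 + P * h4 - P * h3
      have h4 := hgen r hr _ sdiff_subset _ h1
      rw [sdiff_sdiff_self_left] at h4
      rcases le_total (δ + 1) ((B ∩ U).card * w) with h5 | h5
      · exact ⟨P, U, j, δ + 1, h, subset_union_left.trans subset_union_left, _, le_rfl, h5⟩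
      · exact ⟨P, U, j, _, ⟨h.ne, h.supp, h.res, h4, h.sub, by have := h.le; omega⟩,
          subset_union_left.trans subset_union_left, _, by omega, le_rfl⟩

theorem St.rounds {w s : ℕ} (hK : ∀ i ∈ E, a i ∈ K)
    (hRE : Res ⊆ E) (hs : s ≤ Res.card) {C : Type} [DecidableEq C] {B : C → Finset ι}
    (hBE : ∀ c, B c ⊆ E) (hBR : ∀ c, Disjoint Res (B c))
    (hBB : ∀ c c', c ≠ c' → Disjoint (B c) (B c'))
    (hgen : ∀ c, ∀ r ∈ Res, ∀ Y ⊆ B c, ∀ Ann, J p ((fun i => a i - a r) '' Y) ≤ Ann →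
      J p (K : Set G) ^ ((B c \ Y).card * w + 1) ≤ Ann)
    (S : Finset C) :
    ∀ (P : AddMonoidAlgebra (ZMod p) G) (U : Finset ι) (j δ : ℕ), St p a K E Res P U j δ s →
      (∀ c ∈ S, Disjoint U (B c)) → pot (w + 1) δ < S.card + 1 →
      ∃ P' U' j', St p a K E Res P' U' j' 0 s := by
  induction S using Finset.induction_on with
  | empty =>
    intro P U j δ h _ h2
    rcases Nat.eq_zero_or_pos δ with rfl | h0
    · exact ⟨P, U, j, h⟩
    · have := pot_step (w := w) (δ' := 0) (x := 0) h0 (by omega) (by omega)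
      simp [pot] at this h2
      linarith
  | insert c S hc ih =>
    intro P U j δ h h1 h2
    rcases Nat.eq_zero_or_pos δ with rfl | h0
    · exact ⟨P, U, j, h⟩
    obtain ⟨P', U', j', δ', h3, h4, x, h5, h6⟩ :=
      St.round hK hRE hs (hBE c) (hBR c) (hgen c) δ P U j h
    rw [disjoint_iff_inter_eq_empty.1 (h1 c (mem_insert_self _ _)).symm, card_empty] at h5
    refine ih P' U' j' δ' h3 (fun c' hc' => Disjoint.mono_left h4 ?_) ?_
    · rw [disjoint_union_left, disjoint_union_left]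
      exact ⟨⟨h1 c' (mem_insert_of_mem hc'), hBR c'⟩, hBB c c' fun hh => hc (hh ▸ hc')⟩
    · have := pot_step h0 h5 h6
      rw [card_insert_of_notMem hc] at h2
      push_cast at h2
      linarith

theorem St.final {P : AddMonoidAlgebra (ZMod p) G} {U : Finset ι} {j s : ℕ}
    (hK : ∀ i ∈ E, a i ∈ K) (h : St p a K E Res P U j 0 s) {g : G} (hg : g ∈ K) :
    ∃ T ⊆ U, T.card = j ∧ ∑ i ∈ T, a i = g := by
  obtain ⟨g0, h0⟩ : ∃ g0, P.coeff g0 ≠ 0 := by
    by_contra hc
    push Not at hc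
    exact h.ne (AddMonoidAlgebra.ext (Finsupp.ext hc))
  obtain ⟨T, hT, -, h2⟩ := h.supp _ h0
  have h3 : g0 ∈ K := h2 ▸ sum_mem fun i hi => hK i (h.sub (hT hi))
  have h4 := h.cap (by
    rw [zero_add, pow_one]
    exact mem_J (p := p) (S := (K : Set G)) (sub_mem hg h3))
  rw [Ideal.mem_torsionOf_iff, smul_eq_mul, sub_mul, one_mul, sub_eq_zero] at h4
  refine h.supp g ?_
  rw [← h4]
  simpa [X] using h0

end

end Pool.Agent.Lib.MP_3184af_co
end

-- part Pool.Agent.Lib.MP_3184af_co.Main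
section

/-!
Upper and lower bounds for zero-sum subsequences of length `k * exp G`.
-/

namespace Pool.Agent.Lib.MP_3184af_co

open Finset ArithmeticFunction

section
variable {G : Type} [AddCommGroup G]

theorem dav_fin {d : ℕ}
    (h : ∀ f : Fin d → G, ∃ I : Finset (Fin d), I.Nonempty ∧ ∑ i ∈ I, f i = 0)
    (α : Type) (s : Finset α) (f : α → G) (hs : d ≤ s.card) :
    ∃ I ⊆ s, I.Nonempty ∧ ∑ i ∈ I, f i = 0 := by
  obtain ⟨t, ht, hc⟩ := exists_subset_card_eq hs
  let φ : Fin d ↪ α := (equivFinOfCardEq hc).symm.toEmbedding.trans (Function.Embedding.subtype _)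
  obtain ⟨I, h1, h2⟩ := h fun i => f (φ i)
  refine ⟨I.map φ, fun x hx => ?_, by simpa using h1, by rwa [sum_map]⟩
  obtain ⟨i, -, rfl⟩ := mem_map.1 hx
  exact ht ((equivFinOfCardEq hc).symm i).2

theorem aff {q : ℕ} (hq : ∀ x : G, q • x = 0) (g : G) :
    ∃ φ : G × ZMod q →+ G, ∀ x, φ (x, 1) = x - g := by
  let ψ : ZMod q →+ G := ZMod.lift q ⟨zmultiplesHom G g, by simpa using hq g⟩
  have hψ : ψ 1 = g := by
    have := ZMod.lift_coe q (⟨zmultiplesHom G g, by simpa using hq g⟩ :
      {f : ℤ →+ G // f q = 0}) 1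
    simpa using this
  exact ⟨AddMonoidHom.fst _ _ - ψ.comp (AddMonoidHom.snd _ _), fun x => by simp [hψ]⟩

theorem min_sub {ι : Type} [DecidableEq ι] (a : ι → G) (K : AddSubgroup G) (O : Finset ι) :
    ∃ T ⊆ O, ∑ i ∈ O, a i - ∑ i ∈ T, a i ∈ K ∧ ∀ I ⊆ T, I.Nonempty → ∑ i ∈ I, a i ∉ K := by
  classical
  obtain ⟨T, hT, hm⟩ := exists_min_image
    (O.powerset.filter fun T => ∑ i ∈ O, a i - ∑ i ∈ T, a i ∈ K) card ⟨O, by simp⟩
  rw [mem_filter, mem_powerset] at hT
  refine ⟨T, hT.1, hT.2, fun I hI hne hK => ?_⟩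
  have h1 := hm (T \ I) (by
    rw [mem_filter, mem_powerset]
    refine ⟨sdiff_subset.trans hT.1, ?_⟩
    have := add_mem hT.2 hK
    rw [← sum_sdiff hI] at this
    convert this using 1
    abel)
  have h2 := card_sdiff_add_card_eq_card hI
  have h3 := hne.card_pos
  omega

theorem upper {p e d k m w : ℕ} [Fact p.Prime] [Finite G] {c : ℕ → ℕ}
    (hw : ∀ f ≤ e, p ^ f ≤ w * gam e c f + 1) (hG : ∀ x : G, p ^ e • x = 0) (hd2 : 2 ≤ d)
    (hd : ∀ (α : Type) (s : Finset α) (f : α → G), d ≤ s.card →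
      ∃ I ⊆ s, I.Nonempty ∧ ∑ i ∈ I, f i = 0)
    (hm : pot (w + 1) (d - 1) < m + 1)
    (hk : m * (wr p e c (⊤ : AddSubgroup G) + gam e c e) ≤ k * p ^ e)
    {ι : Type} [Fintype ι] [DecidableEq ι] (hι : Fintype.card ι = d - 1 + k * p ^ e) (f : ι → G) :
    ∃ I : Finset ι, I.card = k * p ^ e ∧ ∑ i ∈ I, f i = 0 := by
  have hp : p.Prime := Fact.out
  have : NeZero (p ^ e) := ⟨(pow_pos hp.pos e).ne'⟩
  obtain ⟨E, Res, B, hRE, hBE, hR, hBR, hBB, hgen⟩ :=
    parts (fun Y => wr p e c (gen (fun i => (f i, (1 : ZMod (p ^ e)))) Y))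
      (fun _ _ h => wr_mono p e c (gen_mono _ h)) (gen_sub p e c _) m (d - 1) (by
        have := Nat.mul_le_mul_left m ((wr_mono p e c (le_top
          (a := gen (fun i => (f i, (1 : ZMod (p ^ e)))) univ))).trans (wr_prod (A := G) hp e c))
        omega)
  obtain ⟨r0, hr0⟩ : Res.Nonempty := card_pos.1 (by omega)
  let a : ι → G := fun i => f i - f r0
  let K : AddSubgroup G := AddSubgroup.closure (a '' E)
  have hK : ∀ i ∈ E, a i ∈ K := fun i hi => AddSubgroup.subset_closure ⟨i, hi, rfl⟩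
  have hg : ∀ z, ∀ r ∈ Res, ∀ Y ⊆ B z, ∀ Ann, J p ((fun i => a i - a r) '' Y) ≤ Ann →
      J p (K : Set G) ^ ((B z \ Y).card * w + 1) ≤ Ann := by
    intro z r _ Y hY Ann hA
    obtain ⟨φ, hφ⟩ := aff hG (f r)
    have e1 : ∀ i, φ (f i, 1) = a i - a r := fun i => by simp [a, hφ]
    refine le_trans (Ideal.pow_right_mono (J_le ?_) _) (cap_quot (A := G × ZMod (p ^ e))
      (fun x => Prod.ext (hG _) (by rw [Prod.smul_snd, nsmul_eq_mul, ZMod.natCast_self, zero_mul]; rfl)) φ hw
      (gen_mono _ (hY.trans (hBE z))) (hgen z Y hY) Ann ((J_le ?_).trans hA))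
    · rw [AddSubgroup.closure_eq]
      refine (AddSubgroup.closure_le _).2 ?_
      rintro _ ⟨i, hi, rfl⟩
      have m1 : ∀ i ∈ E, φ (f i, 1) ∈ (gen (fun i => (f i, (1 : ZMod (p ^ e)))) E).map φ :=
        fun i hi => AddSubgroup.mem_map_of_mem φ (AddSubgroup.subset_closure ⟨i, hi, rfl⟩)
      have := sub_mem (m1 i hi) (m1 r0 (hRE hr0))
      simpa [a, hφ] using this
    · rw [gen, AddMonoidHom.map_closure, Set.image_image]
      simp only [e1]
      exact subset_rfl
  obtain ⟨T0, hT0, hT1, hT2⟩ := min_sub a K Eᶜ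
  obtain ⟨s, hs, hcap⟩ := cap_sub (p := p) K e hG d hd a T0 hT2
  have h0 : St p a K E Res 1 ∅ 0 s s :=
    ⟨one_ne_zero, fun g hg => ⟨∅, Subset.rfl, rfl, by
      by_contra hne
      refine hg ?_
      rw [AddMonoidAlgebra.one_def, AddMonoidAlgebra.coeff_single]
      exact Finsupp.single_eq_of_ne fun h => hne (by simp [h])⟩,
      by simp, hcap.trans bot_le, empty_subset _, by omega⟩
  obtain ⟨P, U, j, hP⟩ := St.rounds hK hRE (by omega : s ≤ Res.card) hBE hBR hBB hg univ
    1 ∅ 0 s h0 (fun c _ => disjoint_empty_left _) (by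
      rw [card_univ, Fintype.card_fin]
      exact (pot_mono _ (by omega)).trans_lt hm)
  have hj := hP.le
  obtain ⟨F, hF, hFc⟩ := exists_subset_card_eq (s := Res \ U) (n := d - 1 - T0.card - j) (by
    have a1 := card_sdiff_add_card_inter Res U
    have a2 := hP.res
    rw [inter_comm] at a2
    omega)
  have hFE : F ⊆ E := hF.trans (sdiff_subset.trans hRE)
  obtain ⟨T, hT, hTc, hTs⟩ := hP.final hK
    (g := ∑ i, a i - ∑ i ∈ T0, a i - ∑ i ∈ F, a i) (by
      have := sub_mem (add_mem hT1 (sum_mem hK)) (sum_mem fun i hi => hK i (hFE hi))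
      rw [← sum_compl_add_sum E]
      convert this using 1
      abel)
  have d1 : Disjoint F T := disjoint_left.2 fun x hx hx' => (mem_sdiff.1 (hF hx)).2 (hT hx')
  have d2 : Disjoint T0 (F ∪ T) := disjoint_left.2 fun x hx hx' =>
    mem_compl.1 (hT0 hx) (union_subset hFE (hT.trans hP.sub) hx')
  have c1 : (T0 ∪ (F ∪ T))ᶜ.card = k * p ^ e := by
    rw [card_compl, card_union_of_disjoint d2, card_union_of_disjoint d1]
    omega
  refine ⟨_, c1, ?_⟩
  have s1 := sum_compl_add_sum (T0 ∪ (F ∪ T)) a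
  rw [sum_union d2, sum_union d1, hTs] at s1
  have s2 : ∑ i ∈ (T0 ∪ (F ∪ T))ᶜ, a i = 0 := by
    rw [eq_sub_of_add_eq s1]
    abel
  simp only [a] at s2
  rw [sum_sub_distrib, sum_const, c1, mul_smul, hG, smul_zero, sub_zero] at s2
  exact s2

theorem lower {d n ℓ : ℕ} (hn : 0 < n)
    (hd : ¬ ∀ f : Fin d → G, ∃ I : Finset (Fin d), I.Nonempty ∧ ∑ i ∈ I, f i = 0)
    (h : ∀ f : Fin ℓ → G, ∃ I : Finset (Fin ℓ), I.card = n ∧ ∑ i ∈ I, f i = 0) : d + n ≤ ℓ := by
  classical
  push Not at hd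
  obtain ⟨f0, hf⟩ := hd
  obtain ⟨I, h1, h2⟩ := h fun i => if h : i.1 < d then f0 ⟨i.1, h⟩ else 0
  have key : ∀ i ∈ I, d ≤ i.1 := by
    intro i hi
    by_contra hlt
    refine hf (univ.filter fun j => ∃ i ∈ I, i.1 = j.1)
      ⟨⟨i.1, not_le.1 hlt⟩, by simpa using ⟨i, hi, rfl⟩⟩ ?_
    rw [← h2]
    symm
    refine sum_bij_ne_zero (fun x _ hx => ⟨x.1, by by_contra hc; simp [hc] at hx⟩) ?_ ?_ ?_ ?_
    · intro x hx _
      simpa using ⟨x, hx, rfl⟩
    · intro x _ _ y _ _ hxy
      exact Fin.ext (by simpa using hxy)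
    · intro j hj hne
      obtain ⟨x, hx, e⟩ := (mem_filter.1 hj).2
      have hx' : x.1 < d := e ▸ j.2
      have e' : (⟨x.1, hx'⟩ : Fin d) = j := Fin.ext e
      exact ⟨x, hx, by simpa [hx', e'] using hne, e'⟩
    · intro x _ hx
      have hx' : x.1 < d := by by_contra hc; simp [hc] at hx
      simp [hx']
  have : I.card ≤ (Ico d ℓ).card :=
    card_le_card_of_injOn (fun i => i.1) (fun i hi => by
      simpa using key i hi) fun _ _ _ _ h => Fin.ext h
  rw [Nat.card_Ico] at this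
  omega

theorem main {p e d k u w : ℕ} (hp : p.Prime) [Finite G] {c : ℕ → ℕ}
    (hw : ∀ f ≤ e, p ^ f ≤ w * gam e c f + 1) (hG : ∀ x : G, p ^ e • x = 0) (hk : 0 < k)
    (hd : IsLeast
      {ℓ : ℕ | ∀ f : Fin ℓ → G, ∃ I : Finset (Fin ℓ), I.Nonempty ∧ ∑ i ∈ I, f i = 0} d)
    (hu : d ≤ u * (w + 1) + 1)
    (hku : ((w + 1 : ℕ) : ℚ) * (∑ i ∈ range u, (1 : ℚ) / (i + 1)) *
      (wr p e c (⊤ : AddSubgroup G) + gam e c e : ℕ) ≤ (k * p ^ e : ℕ)) :
    IsLeast {ℓ : ℕ | ∀ f : Fin ℓ → G, ∃ I : Finset (Fin ℓ), I.card = k * p ^ e ∧ ∑ i ∈ I, f i = 0}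
      (d + k * p ^ e - 1) := by
  have : Fact p.Prime := ⟨hp⟩
  have hn : 0 < k * p ^ e := Nat.mul_pos hk (pow_pos hp.pos e)
  have hd0 : d ≠ 0 := by
    rintro rfl
    obtain ⟨I, ⟨i, -⟩, -⟩ := hd.1 fun _ => 0
    exact i.elim0
  refine ⟨fun f => ?_, fun ℓ h => ?_⟩
  · by_cases hd2 : 2 ≤ d
    · refine upper (m := ⌊pot (w + 1) (d - 1)⌋₊) hw hG hd2
        (dav_fin hd.1) (Nat.lt_floor_add_one _) ?_ (by rw [Fintype.card_fin]; omega) f
      have h0 : 0 ≤ pot (w + 1) (d - 1) := by
        simpa [pot] using pot_mono (w + 1) (Nat.zero_le (d - 1))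
      have h1 := Nat.floor_le h0
      have h2 := pot_mono (w + 1) (show d - 1 ≤ u * (w + 1) by omega)
      have h3 : harmonic u = ∑ i ∈ range u, (1 : ℚ) / (i + 1) := by simp [harmonic]
      rw [pot_mul (Nat.succ_pos w), h3] at h2
      have h4 := (mul_le_mul_of_nonneg_right (h1.trans h2) (Nat.cast_nonneg _)).trans hku
      exact_mod_cast h4
    · obtain rfl : d = 1 := by omega
      refine ⟨univ, by simp, sum_eq_zero fun i _ => ?_⟩
      obtain ⟨I, ⟨j, hj⟩, h⟩ := hd.1 fun _ => f i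
      rw [show I = univ from eq_univ_of_forall fun x => Subsingleton.elim j x ▸ hj] at h
      simpa using h
  · have := lower (d := d - 1) hn (fun h' => by have := hd.2 h'; omega) h
    omega

theorem gam_eq {e f : ℕ} (c : ℕ → ℕ) (hf : f ≤ e) :
    gam e c f = ∑ j ∈ range f, c j * (f - j) :=
  (sum_subset (range_mono hf) fun j _ hj => by
    rw [Nat.sub_eq_zero_of_le (by simpa using hj), mul_zero]).symm

theorem gam_log {p e : ℕ} (hp : 1 < p) (f : ℕ) (hf : f ≤ e) :
    (p - 1) * gam e (fun j => p ^ j - p ^ j / p) f + 1 = p ^ f := by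
  have tel : ∀ n, ∑ j ∈ range (n + 1), (p ^ j - p ^ j / p) = p ^ n := by
    intro n
    induction n with
    | zero => simp [Nat.div_eq_of_lt hp]
    | succ n ih =>
      have : p ^ n ≤ p ^ (n + 1) := Nat.pow_le_pow_right (by omega) (by omega)
      rw [sum_range_succ, ih, pow_succ p n, Nat.mul_div_cancel _ (by omega), ← pow_succ]
      omega
  rw [gam_eq _ hf]
  clear hf
  induction f with
  | zero => simp
  | succ f ih =>
    have h1 : ∑ j ∈ range (f + 1), (p ^ j - p ^ j / p) * (f + 1 - j) =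
        ∑ j ∈ range (f + 1), ((p ^ j - p ^ j / p) * (f - j) + (p ^ j - p ^ j / p)) :=
      sum_congr rfl fun j hj => by
        rw [Nat.succ_sub (Nat.lt_succ_iff.1 (mem_range.1 hj)), Nat.mul_succ]
    rw [h1, sum_add_distrib, tel, sum_range_succ, Nat.sub_self, mul_zero, add_zero, mul_add,
      add_right_comm, ih]
    obtain ⟨p, rfl⟩ : ∃ n, p = n + 1 := ⟨p - 1, by omega⟩
    simp only [Nat.add_sub_cancel]
    ring

theorem wr_log {p e d : ℕ} (hp : p.Prime) [Finite G] (hG : ∀ x : G, p ^ e • x = 0)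
    (hd : ∀ f : Fin d → G, ∃ I : Finset (Fin d), I.Nonempty ∧ ∑ i ∈ I, f i = 0) :
    (p - 1) * (wr p e (fun j => p ^ j - p ^ j / p) (⊤ : AddSubgroup G) +
      gam e (fun j => p ^ j - p ^ j / p) e) + 2 ≤ d + p ^ e := by
  obtain ⟨κ, _, g, f, h1, -, h3, h4⟩ := basis_ex hp e hG
  have h5 := zsf (⊤ : AddSubgroup G) (dav_fin hd) (fun _ : Unit => (0 : G)) ∅
    (fun I hI hne => absurd (subset_empty.1 hI) hne.ne_empty) g (fun i => p ^ f i - 1)
    (fun _ => trivial) fun c hc =>
      h3 c fun i => by have := hc i; have := pow_pos hp.pos (f i); omega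
  have h6 : ∑ i, (p - 1) * gam e (fun j => p ^ j - p ^ j / p) (f i) = ∑ i, (p ^ f i - 1) :=
    sum_congr rfl fun i _ => by have := gam_log hp.one_lt (f i) (h1 i).1; omega
  have h7 := gam_log hp.one_lt e le_rfl
  rw [wr_eq _ h4, mul_add, mul_sum, h6]
  rw [card_empty] at h5
  omega

theorem pow_conv {p : ℕ} (hp : 1 < p) {f e : ℕ} (h : f ≤ e) :
    (p ^ f - 1) * e ≤ (p ^ e - 1) * f := by
  induction e, h using Nat.le_induction with
  | base => exact le_rfl
  | succ e h ih =>
    rcases Nat.eq_zero_or_pos f with rfl | hf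
    · simp
    have h1 : 1 ≤ p ^ f := Nat.one_le_pow _ _ (by omega)
    have h2 : p ^ f ≤ p ^ e := Nat.pow_le_pow_right (by omega) h
    have h3 : p ^ e * 2 ≤ p ^ (e + 1) := Nat.mul_le_mul_left _ hp
    have h4 : (p ^ e - 1 + p ^ e) * f ≤ (p ^ (e + 1) - 1) * f :=
      Nat.mul_le_mul_right _ (by omega)
    have h5 : p ^ e * 1 ≤ p ^ e * f := Nat.mul_le_mul_left _ hf
    rw [add_mul] at h4
    rw [Nat.mul_succ]
    omega

end

end Pool.Agent.Lib.MP_3184af_co
end
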