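import Pool.Agent.Lib.MP_3184af_co.BRRich
import Pool.Agent.Lib.MP_3184af_co.Main

/-!
Structure of long sequences over groups of bounded rank, and zero-sum subsequences of given length.
-/

set_option autoImplicit false

namespace Pool.Agent.Lib.MP_3184af_co.BR

open Finset

section
variable {G : Type} [AddCommGroup G] {ι : Type} [DecidableEq ι]

/-- every length up to the size of `Z` is the length of a subsequence with sum in `K` -/
def Flex (b : ι → G) (K : AddSubgroup G) (Z : Finset ι) : Prop :=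
  ∀ j ≤ #Z, ∃ V ⊆ Z, #V = j ∧ ∑ i ∈ V, b i ∈ K

theorem core (b : ι → G) (K : AddSubgroup G) {T Z : Finset ι} (hd : Disjoint T Z) {e ℓ : ℕ}
    (hZ : Flex b K Z) (he : e ≤ #Z) (hℓ : ℓ + e ≤ #T + #Z)
    (hT : ∀ W ⊆ T, #W = e + 1 → ∃ W' ⊆ W, W'.Nonempty ∧ ∑ i ∈ W', b i ∈ K) :
    ∃ V ⊆ T ∪ Z, #V = ℓ ∧ ∑ i ∈ V, b i ∈ K := by
  classical
  obtain ⟨W, hW, hm⟩ := exists_max_image {W ∈ T.powerset | #W ≤ ℓ ∧ ∑ i ∈ W, b i ∈ K} card
    ⟨∅, by simp⟩
  simp only [mem_filter, mem_powerset] at hW hm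
  obtain ⟨h1, h2, h3⟩ := hW
  have h4 : ℓ - #W ≤ #Z := by
    by_contra hh
    have hc := card_sdiff_add_card_eq_card h1
    obtain ⟨X, x1, x2⟩ := exists_subset_card_eq (show e + 1 ≤ #(T \ W) by omega)
    obtain ⟨Y, y1, y2, y3⟩ := hT X (x1.trans sdiff_subset) x2
    have y4 : Disjoint W Y := disjoint_sdiff.mono_right (y1.trans x1)
    have y5 := card_union_of_disjoint y4
    have y6 := card_le_card y1
    have y7 := y2.card_pos
    have := hm (W ∪ Y) ⟨union_subset h1 (y1.trans (x1.trans sdiff_subset)), by omega,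
      by rw [sum_union y4]; exact add_mem h3 y3⟩
    omega
  obtain ⟨V, v1, v2, v3⟩ := hZ _ h4
  have v4 := hd.mono h1 v1
  exact ⟨W ∪ V, union_subset_union h1 v1, by rw [card_union_of_disjoint v4]; omega,
    by rw [sum_union v4]; exact add_mem h3 v3⟩

omit [DecidableEq ι] in
theorem block (b : ι → G) (K : AddSubgroup G) [Finite K] {g : G} {J : Finset ι}
    (hJ : ∀ i ∈ J, b i - g ∈ K) (h : Nat.card K * Nat.card K ≤ #J) :
    ∃ g', g' - g ∈ K ∧ ∃ O ⊆ J, #O = Nat.card K ∧ ∀ i ∈ O, b i = g' := by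
  classical
  have := Fintype.ofFinite K
  obtain ⟨y, hy, h1⟩ := exists_le_card_fiber_of_mul_le_card_of_maps_to (f := b)
    (t := univ.image fun z : K => g + z) (n := Nat.card K)
    (fun i hi => mem_image.2 ⟨⟨_, hJ i hi⟩, mem_univ _, by simp⟩) (by simp) ((Nat.mul_le_mul_right _
      (card_image_le.trans_eq (by simp))).trans h)
  obtain ⟨z, -, rfl⟩ := mem_image.1 hy
  obtain ⟨O, o1, o2⟩ := exists_subset_card_eq h1
  exact ⟨_, by simp, O, o1.trans (filter_subset _ _), o2, fun i hi => (mem_filter.1 (o1 hi)).2⟩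

theorem reservoir (b : ι → G) (K : AddSubgroup G) [Finite K] {g : G} {J : Finset ι}
    (hJ : ∀ i ∈ J, b i - g ∈ K) {φ : ℕ} (h : φ + 2 * (Nat.card K * Nat.card K) ≤ #J) :
    ∃ g', ∃ Z ⊆ J, φ ≤ #Z ∧ Flex (fun i => b i - g') ⊥ Z := by
  obtain ⟨g', h1, O, o1, o2, o3⟩ := block b K hJ (by omega)
  have h0 : 0 < Nat.card K := Nat.card_pos
  have hJ' : ∀ i ∈ J, b i - g' ∈ K := fun i hi => by simpa using sub_mem (hJ i hi) h1
  have key : ∀ k ≤ φ / Nat.card K, ∃ Z ⊆ J, #Z = (k + 1) * Nat.card K ∧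
      Flex (fun i => b i - g') ⊥ Z := by
    intro k hk
    induction k with
    | zero =>
      refine ⟨O, o1, by simpa, fun j hj => ?_⟩
      obtain ⟨V, v1, v2⟩ := exists_subset_card_eq hj
      exact ⟨V, v1, v2, sum_mem fun i hi => by simp [o3 i (v1 hi)]⟩
    | succ k ih =>
      obtain ⟨Z, z1, z2, z3⟩ := ih (by omega)
      have hc := card_sdiff_add_card_eq_card z1
      have h2 := (Nat.le_div_iff_mul_le h0).1 hk
      obtain ⟨y, y1, B, b1, b2, b3⟩ := block b K (J := J \ Z)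
        (fun i hi => hJ' i (sdiff_subset hi)) (by omega)
      have b4 : Disjoint Z B := disjoint_sdiff.mono_right b1
      have b5 := card_union_of_disjoint b4
      refine ⟨Z ∪ B, union_subset z1 (b1.trans sdiff_subset), by rw [b5, z2, b2]; ring,
        fun j hj => ?_⟩
      rcases le_or_gt j #Z with h3 | h3
      · obtain ⟨V, v1, v2⟩ := z3 j h3
        exact ⟨V, v1.trans subset_union_left, v2⟩
      · obtain ⟨V, v1, v2, v3⟩ := z3 (j - Nat.card K) (by omega)
        have v4 := b4.mono_left v1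
        have : Nat.card K ≤ #Z := by rw [z2]; exact Nat.le_mul_of_pos_left _ k.succ_pos
        refine ⟨V ∪ B, union_subset_union v1 subset_rfl,
          by rw [card_union_of_disjoint v4]; omega, ?_⟩
        rw [sum_union v4]
        refine add_mem v3 ?_
        rw [sum_congr rfl fun i hi => by rw [b3 i hi], sum_const, b2]
        exact congrArg Subtype.val (card_nsmul_eq_zero' (x := (⟨_, y1⟩ : K)))
  obtain ⟨Z, z1, z2, z3⟩ := key _ le_rfl
  exact ⟨g', Z, z1, by rw [z2, mul_comm]; exact (Nat.lt_mul_div_succ _ h0).le, z3⟩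

end

theorem pow_big (C : ℕ) : ∃ u₀, ∀ u ≥ u₀, C * u ^ 2 ≤ 2 ^ u := by
  refine ⟨3 * (C * 9 + 3), fun u hu => ?_⟩
  have h1 : u / 3 < 2 ^ (u / 3) := Nat.lt_two_pow_self
  have h2 : (u / 3 + 1) ^ 3 ≤ 2 ^ u :=
    (Nat.pow_le_pow_left h1 3).trans (by
      rw [← pow_mul]; exact Nat.pow_le_pow_right two_pos (by omega))
  refine le_trans ?_ h2
  have h3 : u ≤ 3 * (u / 3 + 1) := by omega
  have h4 : C * 9 ≤ u / 3 + 1 := by omega
  calc C * u ^ 2 ≤ C * (3 * (u / 3 + 1)) ^ 2 := by gcongr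
    _ = C * 9 * (u / 3 + 1) ^ 2 := by ring
    _ ≤ (u / 3 + 1) * (u / 3 + 1) ^ 2 := by gcongr
    _ = _ := by ring

theorem log_add {a b s : ℕ} (ha : 0 < a) (h : a * 2 ^ s ≤ b) : Nat.log 2 a + s ≤ Nat.log 2 b := by
  refine Nat.le_log_of_pow_le one_lt_two (le_trans ?_ h)
  rw [pow_add]
  exact Nat.mul_le_mul_right _ (Nat.pow_log_le_self 2 ha.ne')

theorem num1 {r u v C : ℕ} (h : v ≤ 4 * (r * u) + 1) (hu : 0 < u) :
    (2 * C : ℝ) ≤ (1 + ((4 * r + 2) * (2 * C) : ℕ) / (v + 1)) ^ u := by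
  refine le_trans ?_ (one_add_mul_le_pow (le_trans (by norm_num)
    (show (0 : ℝ) ≤ _ by positivity)) u)
  have e3 : 2 * C * (v + 1) ≤ u * ((4 * r + 2) * (2 * C)) := by
    rw [← mul_assoc, mul_comm]
    exact Nat.mul_le_mul_right _ (by nlinarith)
  have e4 : (2 * C : ℝ) ≤ u * ((4 * r + 2) * (2 * C) : ℕ) / (v + 1) := by
    rw [le_div_iff₀ (by positivity)]; exact_mod_cast e3
  rw [← mul_div_assoc]
  linarith

theorem num2 {r u v C A s M : ℕ} (hA : 0 < A) (hru : 0 < r * u) (h : v ≤ 4 * (r * u) + 1)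
    (hM : (C + 20) * 2 ^ u * (2 * r * u) ^ 2 ≤ M) (e1 : s * (1 + A / (v + 1) : ℝ) ^ 1 ≤ M) :
    s + 2 * 2 ^ u * (2 * r * u + 1) ≤ M := by
  have hv0 : (0 : ℝ) < v + 1 := by positivity
  have e2 : (s : ℝ) * (v + 2) ≤ M * (v + 1) := by
    have e3 : (1 : ℝ) ≤ A := by exact_mod_cast hA
    have e4 : (v + 2 : ℝ) ≤ (1 + A / (v + 1) : ℝ) ^ 1 * (v + 1) := by
      rw [pow_one, add_mul, div_mul_cancel₀ _ hv0.ne']
      linarith
    have := mul_le_mul_of_nonneg_left e4 (Nat.cast_nonneg s)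
    nlinarith
  have e3 : s * (v + 2) ≤ M * (v + 1) := by exact_mod_cast e2
  have e4 : 2 * 2 ^ u * (2 * r * u + 1) * (v + 2) ≤ M := by
    refine le_trans ?_ hM
    rw [mul_assoc 2 r]
    generalize r * u = w at hru h
    have e5 : (2 * w + 1) * (v + 2) ≤ 10 * (2 * w) ^ 2 := by nlinarith
    have := Nat.mul_le_mul_left (2 * 2 ^ u) e5
    have : 0 ≤ C * 2 ^ u * (2 * w) ^ 2 := by positivity
    nlinarith
  refine Nat.le_of_mul_le_mul_right ?_ (show 0 < v + 2 by omega)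
  nlinarith

theorem num3 {r u C μ : ℕ} (h : 4 * C * (2 * r) ^ 2 * u ^ 2 ≤ 2 ^ u) (h4 : 2 ^ u * 2 ^ u ≤ 4 * μ) :
    C * 2 ^ u * (2 * r * u) ^ 2 ≤ μ := by
  have := Nat.mul_le_mul_left (2 ^ u) h
  nlinarith

theorem struct {r : ℕ} (hr0 : 0 < r) : ∃ c : ℕ, ∀ (G : Type) [AddCommGroup G] [Fintype G],
    (∀ K : AddSubgroup G, Nat.card K ≤ AddMonoid.exponent K ^ r) →
    ∀ (ι : Type) [Fintype ι] [DecidableEq ι] (a : ι → G) (φ : ℕ), AddMonoid.exponent G ≤ φ →
    c * φ ≤ Fintype.card ι → ∃ (g : G) (K : AddSubgroup G) (P Z : Finset ι) (t : ℕ), (∃ κ ∈ K,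
      t < addOrderOf κ) ∧ Disjoint P Z ∧ φ ≤ #Z ∧ (∀ i ∈ P, a i - g ∈ K) ∧
      (∀ y ∈ K, ∃ V ⊆ P, #V = t ∧ ∑ i ∈ V, (a i - g) = y) ∧ Flex (fun i => a i - g) K Z := by
  obtain ⟨C, hC0, hC⟩ := rich (R := 2 * r) (by omega)
  obtain ⟨u₀, hu₀⟩ := pow_big (4 * (C + 20) * (2 * r) ^ 2)
  set A := (4 * r + 2) * (2 * C) with hA
  set c' := 4 * 4 ^ (2 * r * u₀) + 8 with hc'
  refine ⟨⌈Real.exp (A * r)⌉₊ * c', ?_⟩
  intro G _ _ hr ι _ _ a φ hφ hι
  classical
  set n := AddMonoid.exponent G with hn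
  have hn0 : 0 < n := AddMonoid.ExponentExists.of_finite.exponent_pos
  set v := Nat.log 2 n with hv
  set β : ℝ := 1 + A / (v + 1) with hβ
  have hβ1 : 1 ≤ β := le_add_of_nonneg_right (by positivity)
  let cs : AddSubgroup G × G → Finset ι := fun p => {i | a i - p.2 ∈ p.1}
  obtain ⟨⟨K, g⟩, hm⟩ := Finite.exists_max fun p : AddSubgroup G × G =>
    (#(cs p) : ℝ) / β ^ Nat.log 2 (Nat.card p.1)
  set I := cs (K, g) with hI
  have hIK : ∀ i ∈ I, a i - g ∈ K := fun i hi => (mem_filter.1 hi).2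
  have hM : c' * φ ≤ #I := by
    have h1 := hm (⊤, 0)
    have h2 : Nat.log 2 (Nat.card (⊤ : AddSubgroup G)) ≤ (v + 1) * r := by
      refine (Nat.log_mono_right ((hr ⊤).trans (?_ : _ ≤ 2 ^ ((v + 1) * r)))).trans_eq
        (Nat.log_pow one_lt_two _)
      rw [pow_mul, AddSubgroup.exponent_top]
      exact Nat.pow_le_pow_left (Nat.lt_pow_succ_log_self one_lt_two n).le _
    have h3 : β ^ Nat.log 2 (Nat.card (⊤ : AddSubgroup G)) ≤ Real.exp (A * r) := by
      refine (pow_le_pow_right₀ hβ1 h2).trans ((pow_le_pow_left₀ (by positivity)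
        ((add_comm _ _).trans_le (Real.add_one_le_exp _)) _).trans_eq ?_)
      rw [← Real.exp_nat_mul]
      congr 1
      push_cast
      field_simp
    have h4 := h1.trans (div_le_self (by positivity) (one_le_pow₀ hβ1))
    rw [div_le_iff₀ (by positivity), show cs (⊤, 0) = univ by simp [cs], card_univ] at h4
    have h5 : (Fintype.card ι : ℝ) ≤ ⌈Real.exp (A * r)⌉₊ * #I := by
      rw [mul_comm]
      exact h4.trans (mul_le_mul_of_nonneg_left (h3.trans (Nat.le_ceil _)) (by positivity))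
    rw [mul_assoc] at hι
    exact Nat.le_of_mul_le_mul_left (hι.trans (by exact_mod_cast h5))
      (Nat.ceil_pos.2 (Real.exp_pos _))
  have hM8 : 8 * φ ≤ #I := (Nat.mul_le_mul_right _ (by omega)).trans hM
  rcases le_or_gt (4 * (Nat.card K * Nat.card K)) #I with hK | hK
  · obtain ⟨g', Z, -, z2, z3⟩ := reservoir a K hIK (φ := φ) (by omega)
    exact ⟨g', ⊥, ∅, Z, 0, ⟨0, rfl, by simp⟩, by simp, z2, by simp,
      fun y hy => ⟨∅, by simp, rfl, by simpa using (AddSubgroup.mem_bot.1 hy).symm⟩, z3⟩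
  set μ := AddMonoid.exponent K with hμ
  have hμ0 : 0 < μ := AddMonoid.ExponentExists.of_finite.exponent_pos
  have hμn : μ ≤ n := Nat.le_of_dvd hn0
    (AddMonoid.exponent_dvd_of_addMonoidHom K.subtype K.subtype_injective)
  set u := Nat.clog 4 μ with hu
  have h1 : Nat.card K ≤ 4 ^ (r * u) := (hr K).trans (by
    rw [mul_comm, pow_mul]; exact Nat.pow_le_pow_left (Nat.le_pow_clog (by norm_num) μ) _)
  have h2 : #I < 4 * 4 ^ (2 * r * u) := hK.trans_le (by
    rw [mul_assoc 2, two_mul, pow_add]; gcongr)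
  have h3 : u₀ < u := by
    have : c' ≤ c' * φ := Nat.le_mul_of_pos_right _ (by omega)
    have h4 : 4 ^ (2 * r * u₀) < 4 ^ (2 * r * u) := by omega
    exact Nat.lt_of_mul_lt_mul_left ((Nat.pow_lt_pow_iff_right (by norm_num)).1 h4)
  have h4 : 2 ^ u * 2 ^ u ≤ 4 * μ := by
    have := Nat.pow_pred_clog_lt_self (b := 4) (by norm_num) (x := μ) (by
      by_contra hh
      have : μ = 1 := by omega
      rw [this] at hu
      simp at hu
      omega)
    rw [← hu, Nat.pred_eq_sub_one] at this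
    rw [← mul_pow, show u = u - 1 + 1 by omega, pow_succ, show 2 * 2 = 4 from rfl]
    omega
  have h5 := num3 (hu₀ u h3.le) h4
  have h6 : v ≤ 4 * (r * u) + 1 := by
    have h7 : 2 ^ v < 2 ^ (4 * (r * u) + 2) := by
      refine (Nat.pow_log_le_self 2 hn0.ne').trans_lt (lt_of_le_of_lt (by omega) (h2.trans_eq ?_))
      rw [show 4 * (r * u) + 2 = 2 * (2 * r * u + 1) by ring, pow_mul 2, pow_succ' (2 ^ 2)]
      norm_num
    have := (Nat.pow_lt_pow_iff_right one_lt_two).1 h7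
    omega
  let a' : ι → K := fun i => if h : a i - g ∈ K then ⟨_, h⟩ else 0
  have ha' : ∀ i ∈ I, (a' i : G) = a i - g := fun i hi => by simp only [a', dif_pos (hIK i hi)]
  have nc : ∀ (s : ℕ) (B : AddSubgroup K), 2 ^ s ≤ B.index → ∀ y : K, ∀ S ⊆ I,
      (∀ i ∈ S, a' i - y ∈ B) → #S * β ^ s ≤ #I := fun s B hB y S hS h => by
    have e1 := hm (B.map K.subtype, g + y)
    have e2 : (#S : ℝ) ≤ #(cs (B.map K.subtype, g + y)) := by
      exact_mod_cast card_le_card fun i hi => mem_filter.2 ⟨mem_univ _,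
        AddSubgroup.mem_map.2 ⟨_, h i hi, by simp [ha' i (hS hi), sub_sub]⟩⟩
    have e3 : Nat.log 2 (Nat.card (B.map K.subtype)) + s ≤ Nat.log 2 (Nat.card K) := by
      refine log_add Nat.card_pos ?_
      rw [AddSubgroup.card_map_of_injective K.subtype_injective, ← B.card_mul_index]
      exact Nat.mul_le_mul_left _ hB
    rw [div_le_div_iff₀ (by positivity) (by positivity)] at e1
    have e4 := pow_le_pow_right₀ hβ1 e3
    rw [pow_add] at e4
    refine le_of_mul_le_mul_right (le_trans ?_ e1)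
      (by positivity : 0 < β ^ Nat.log 2 (Nat.card (B.map K.subtype)))
    rw [mul_assoc, mul_comm (β ^ s)]
    gcongr
  have hru : 0 < r * u := Nat.mul_pos hr0 (by omega)
  have n1 : ∀ B : AddSubgroup K, 2 ^ u ≤ B.index → ∀ y : K, ∀ S ⊆ I, (∀ i ∈ S, a' i - y ∈ B) →
      #S ≤ #I / (2 * C) := fun B hB y S hS h => by
    rw [Nat.le_div_iff_mul_le (by omega)]
    exact_mod_cast (mul_le_mul_of_nonneg_left (num1 (C := C) h6 (by omega)) (by positivity)).trans
      (nc u B hB y S hS h)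
  have n2 : ∀ B : AddSubgroup K, B ≠ ⊤ → ∀ y : K, ∀ S ⊆ I, (∀ i ∈ S, a' i - y ∈ B) →
      #S + 2 * 2 ^ u * (2 * r * u + 1) ≤ #I := fun B hB y S hS h =>
    num2 (by positivity) hru h6 (h5.trans (by omega))
      (nc 1 B (AddSubgroup.one_lt_index_of_ne_top hB) y S hS h)
  obtain ⟨P, p1, t, p2, p3, p4⟩ := hC K ι a' I μ (2 ^ u) (2 * r * u) (#I / (2 * C))
    AddMonoid.exponent_nsmul_eq_zero (Nat.pow_le_pow_right two_pos (show 1 ≤ u by omega))
    (by rw [mul_assoc]; omega)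
    (h1.trans_eq (by rw [← pow_mul, show u * (2 * r) = 2 * (r * u) by ring, pow_mul 2]; rfl))
    (h1.trans_eq (by rw [mul_assoc, pow_mul 2]; rfl)) (le_trans (by gcongr; omega) h5)
    n1 n2
    (by have := Nat.mul_div_le #I (2 * C); rw [mul_assoc] at this; omega)
  obtain ⟨κ, hκ⟩ := AddMonoid.exists_addOrderOf_eq_exponent
    (AddMonoid.ExponentExists.of_finite (G := K))
  have hc := card_sdiff_add_card_eq_card p1
  refine ⟨g, K, P, I \ P, t, ⟨κ, κ.2, by rwa [AddSubgroup.addOrderOf_coe, hκ]⟩, disjoint_sdiff,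
    by omega, fun i hi => hIK i (p1 hi), fun y hy => ?_, fun j hj => ?_⟩
  · obtain ⟨V, v1, v2, v3⟩ := p4 ⟨y, hy⟩
    refine ⟨V, v1, v2, ?_⟩
    rw [← sum_congr rfl fun i hi => ha' i (p1 (v1 hi)), ← AddSubgroup.val_finsetSum, v3]
  · obtain ⟨V, v1, v2⟩ := exists_subset_card_eq hj
    exact ⟨V, v1, v2, sum_mem fun i hi => hIK i (sdiff_subset (v1 hi))⟩

theorem card_le_of_gen {G : Type} [AddCommGroup G] [Fintype G] {r : ℕ} {s : Finset G}
    (hs : #s ≤ r) (hg : AddSubgroup.closure (s : Set G) = ⊤) (K : AddSubgroup G) :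
    Nat.card K ≤ AddMonoid.exponent K ^ r := by
  set μ := AddMonoid.exponent K
  have hμ : 0 < μ := AddMonoid.ExponentExists.of_finite.exponent_pos
  let f : G →+ G := nsmulAddMonoidHom μ
  have h1 : K ≤ f.ker := fun x hx =>
    congrArg Subtype.val (AddMonoid.exponent_nsmul_eq_zero (⟨x, hx⟩ : K))
  have h2 : Nat.card f.ker = Nat.card (G ⧸ f.range) := by
    have e1 := f.ker.card_mul_index
    rw [AddSubgroup.index_ker, ← f.range.card_mul_index, mul_comm] at e1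
    exact Nat.eq_of_mul_eq_mul_left Nat.card_pos e1
  have h3 := card_dvd_exponent_nsmul_rank' (G ⧸ f.range) (n := μ) fun x => by
    obtain ⟨x, rfl⟩ := QuotientAddGroup.mk'_surjective _ x
    rw [← map_nsmul]
    exact (QuotientAddGroup.eq_zero_iff _).2 ⟨x, rfl⟩
  have h4 := (AddGroup.rank_le_of_surjective _ (QuotientAddGroup.mk'_surjective f.range)).trans
    ((AddGroup.rank_le hg).trans hs)
  exact (AddSubgroup.card_le_of_le h1).trans (h2.trans_le ((Nat.le_of_dvd (by positivity) h3).trans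
    (Nat.pow_le_pow_right hμ h4)))

theorem order_le {G : Type} [AddCommGroup G] {d : ℕ}
    (hd : ∀ f : Fin d → G, ∃ I : Finset (Fin d), I.Nonempty ∧ ∑ i ∈ I, f i = 0) (κ : G) :
    addOrderOf κ ≤ d := by
  obtain ⟨I, h1, h2⟩ := hd fun _ => κ
  rw [sum_const] at h2
  exact (addOrderOf_le_of_nsmul_eq_zero h1.card_pos h2).trans (by simpa using card_le_univ I)

theorem upper' {r : ℕ} (hr0 : 0 < r) : ∃ c : ℕ, ∀ (G : Type) [AddCommGroup G] [Fintype G],
    (∀ K : AddSubgroup G, Nat.card K ≤ AddMonoid.exponent K ^ r) → ∀ k d : ℕ, c ≤ k →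
    IsLeast {ℓ : ℕ | ∀ f : Fin ℓ → G, ∃ I : Finset (Fin ℓ), I.Nonempty ∧ ∑ i ∈ I, f i = 0} d →
    ∀ a : Fin (d + k * AddMonoid.exponent G - 1) → G, ∃ I : Finset _,
      #I = k * AddMonoid.exponent G ∧ ∑ i ∈ I, a i = 0 := by
  obtain ⟨c, hc⟩ := struct hr0
  refine ⟨c * c, fun G _ _ hr k d hk hd => ?_⟩
  classical
  set n := AddMonoid.exponent G with hn
  intro a
  have hn0 : 0 < n := AddMonoid.ExponentExists.of_finite.exponent_pos
  have tr : ∀ {ι : Type} (a : ι → G) (g : G) (V : Finset ι) (m : ℕ), #V = m * n →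
      ∑ i ∈ V, (a i - g) = 0 → ∑ i ∈ V, a i = 0 := fun a g V m h1 h2 => by
    rwa [sum_sub_distrib, sum_const, h1, mul_nsmul', AddMonoid.exponent_nsmul_eq_zero, nsmul_zero,
      sub_zero] at h2
  have h1 : d ≤ c * n := hd.2 fun f => by
    obtain ⟨g, K, P, Z, t, ⟨κ, -, k2⟩, p1, p2, -, p4, p5⟩ := hc G hr _ f n le_rfl (by simp)
    have := k2.trans_le (AddMonoid.addOrderOf_le_exponent .of_finite κ)
    obtain ⟨V, v1, v2, v3⟩ := p5 (n - t) (by omega)
    obtain ⟨W, w1, w2, w3⟩ := p4 _ (neg_mem v3)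
    have w4 := p1.mono w1 v1
    have w5 : #(W ∪ V) = 1 * n := by rw [card_union_of_disjoint w4]; omega
    exact ⟨W ∪ V, card_pos.1 (by omega), tr f g _ 1 w5 (by rw [sum_union w4, w3, neg_add_cancel])⟩
  have h2 : n ≤ d := by
    obtain ⟨κ, hκ⟩ := AddMonoid.exists_addOrderOf_eq_exponent (G := G) .of_finite
    exact hκ.ge.trans (order_le hd.1 κ)
  have h3 : c * d ≤ k * n := by nlinarith
  obtain ⟨g, K, P, Z, t, ⟨κ, k1, k2⟩, p1, p2, p3, p4, p5⟩ := hc G hr _ a d h2 (by simp; omega)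
  have h4 := k2.trans_le (order_le hd.1 κ)
  have h5 : #(P ∪ Z)ᶜ + (#P + #Z) = d + k * n - 1 := by
    rw [← card_union_of_disjoint p1, card_compl_add_card, Fintype.card_fin]
  have h6 : t ≤ #P := by
    obtain ⟨W, w1, w2, -⟩ := p4 0 (zero_mem _)
    exact w2.ge.trans (card_le_card w1)
  obtain ⟨V, v1, v2, v3⟩ := core (fun i => a i - g) K (T := (P ∪ Z)ᶜ) (Z := Z) (e := d - 1 - t)
    (ℓ := #(P ∪ Z)ᶜ + #Z - (d - 1 - t)) (disjoint_compl_left.mono_right subset_union_right) p5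
    (by omega) (by omega) fun W _ hW => by
      obtain ⟨J, j1, j2, j3⟩ := dav_fin hd.1 _ (W.disjSum (range t))
        (Sum.elim (fun i => a i - g) fun _ => κ) (by rw [card_disjSum, card_range]; omega)
      rw [← toLeft_disjSum_toRight (u := J), sum_disjSum] at j3
      simp only [Sum.elim_inl, Sum.elim_inr, sum_const] at j3
      have j4 := subset_disjSum.1 j1
      refine ⟨J.toLeft, j4.1, nonempty_iff_ne_empty.2 fun e => ?_,
        eq_neg_of_add_eq_zero_left j3 ▸ neg_mem (nsmul_mem k1 _)⟩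
      have j5 := card_toLeft_add_card_toRight (u := J)
      have j6 := card_le_card j4.2
      have j7 := j2.card_pos
      rw [e] at j3 j5
      rw [sum_empty, zero_add] at j3
      rw [card_empty] at j5
      rw [card_range] at j6
      have := addOrderOf_le_of_nsmul_eq_zero (by omega) j3
      omega
  obtain ⟨W, w1, w2, w3⟩ := p4 _ (add_mem v3 (sum_mem p3))
  have w4 : Disjoint V (P \ W) := Disjoint.mono v1 sdiff_subset (disjoint_union_left.2
    ⟨disjoint_compl_left.mono_right subset_union_left, p1.symm⟩)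
  have w5 := card_sdiff_add_card_eq_card w1
  have w6 : #(V ∪ P \ W) = k * n := by rw [card_union_of_disjoint w4]; omega
  refine ⟨_, w6, tr a g _ k w6 ?_⟩
  rw [sum_union w4, sum_sdiff_eq_sub w1, w3]
  abel

end Pool.Agent.Lib.MP_3184af_co.BR
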