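import Mathlib

-- part Pool.Agent.Lib.MP_3184af_co.BRGrow
section

/-!
Expansion of subsets of a finite abelian group by elements of a generating family.
-/

set_option autoImplicit false

namespace Pool.Agent.Lib.MP_3184af_co.BR

open Finset

variable {Γ : Type} [AddCommGroup Γ] [Fintype Γ] {ι : Type}

theorem step_ex (B : AddSubgroup Γ) {x : Γ} (hx : x ∉ B) {μ : ℕ} (hμ : 0 < μ) (h0 : μ • x = 0) :
    ∃ (B' : AddSubgroup Γ) (j : ℕ), 2 ≤ j ∧ j ≤ μ ∧ Nat.card B' = j * Nat.card B ∧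
      ∀ z ∈ B', ∃ c < j, z - c • x ∈ B := by
  classical
  let π := QuotientAddGroup.mk' B
  refine ⟨(AddSubgroup.zmultiples (π x)).comap π, addOrderOf (π x), ?_, ?_, ?_, fun z hz => ?_⟩
  · have h1 : addOrderOf (π x) ≠ 1 := fun h =>
      hx ((QuotientAddGroup.eq_zero_iff x).1 (AddMonoid.addOrderOf_eq_one_iff.1 h))
    have := addOrderOf_pos (π x)
    omega
  · exact addOrderOf_le_of_nsmul_eq_zero hμ (by rw [← map_nsmul, h0, map_zero])
  · have h1 := ((AddSubgroup.zmultiples (π x)).comap π).card_mul_index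
    have h2 := (AddSubgroup.zmultiples (π x)).card_mul_index
    have h3 := B.card_mul_index
    rw [AddSubgroup.index_comap_of_surjective _ (QuotientAddGroup.mk'_surjective B)] at h1
    rw [Nat.card_zmultiples, ← AddSubgroup.index_eq_card] at h2
    refine Nat.eq_of_mul_eq_mul_right
      (Nat.pos_of_ne_zero (AddSubgroup.zmultiples (π x)).index_ne_zero_of_finite) ?_
    rw [h1, ← h3, ← h2]
    ring
  · obtain ⟨c, hc, e⟩ := mem_image.1 (mem_zmultiples_iff_mem_range_addOrderOf.1 hz)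
    refine ⟨c, mem_range.1 hc, (QuotientAddGroup.eq_zero_iff _).1 ?_⟩
    change π _ = 0
    rw [map_sub, map_nsmul, e, sub_self]

theorem chain (x : ι → Γ) (A : Finset ι) (hA : AddSubgroup.closure (x '' A) = ⊤) {μ : ℕ}
    (hμ : 0 < μ) (h0 : ∀ z : Γ, μ • z = 0) (Φ : AddSubgroup Γ → Prop) (hb : Φ ⊥)
    (hs : ∀ (B B' : AddSubgroup Γ) (j : ℕ), ∀ i ∈ A, Φ B → 2 ≤ j → j ≤ μ →
      Nat.card B' = j * Nat.card B → (∀ z ∈ B', ∃ c < j, z - c • x i ∈ B) → Φ B') : Φ ⊤ := by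
  obtain ⟨B, hB, hm⟩ := Set.exists_max_image {B | Φ B} (fun B => Nat.card B) (Set.toFinite _)
    ⟨⊥, hb⟩
  have : B = ⊤ := by
    rw [eq_top_iff, ← hA, AddSubgroup.closure_le]
    rintro _ ⟨i, hi, rfl⟩
    by_contra hx
    obtain ⟨B', j, h1, h2, h3, h4⟩ := step_ex B hx hμ (h0 _)
    have h5 : Nat.card B' ≤ Nat.card B := hm B' (hs B B' j i hi hB h1 h2 h3 h4)
    have : 0 < Nat.card B := Nat.card_pos
    nlinarith
  exact this ▸ hB

theorem gens (x : ι → Γ) (A : Finset ι) (hA : AddSubgroup.closure (x '' A) = ⊤) {l : ℕ}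
    (hl : Nat.card Γ ≤ 2 ^ l) :
    ∃ E ⊆ A, #E ≤ l ∧ AddSubgroup.closure (x '' E) = ⊤ := by
  classical
  obtain ⟨E, h1, h2, h3⟩ := chain x A hA Nat.card_pos (fun _ => card_nsmul_eq_zero')
    (fun B => ∃ E ⊆ A, 2 ^ #E ≤ Nat.card B ∧ B ≤ AddSubgroup.closure (x '' E))
    ⟨∅, empty_subset _, by simp, bot_le⟩ (by
      rintro B B' j i hi ⟨E, h1, h2, h3⟩ h4 - h5 h6
      refine ⟨insert i E, insert_subset hi h1, ?_, fun z hz => ?_⟩
      · calc 2 ^ #(insert i E) ≤ 2 ^ (#E + 1) := Nat.pow_le_pow_right two_pos (card_insert_le _ _)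
          _ ≤ _ := by rw [h5, pow_succ']; exact Nat.mul_le_mul h4 h2
      · obtain ⟨c, -, hc⟩ := h6 z hz
        rw [← sub_add_cancel z (c • x i)]
        exact add_mem (AddSubgroup.closure_mono (Set.image_mono (by simp)) (h3 hc))
          (nsmul_mem (AddSubgroup.subset_closure (Set.mem_image_of_mem x (by simp))) c))
  rw [AddSubgroup.card_top] at h2
  exact ⟨E, h1, (Nat.pow_le_pow_iff_right one_lt_two).1 (h2.trans hl), top_le_iff.1 h3⟩

open Classical in
/-- the number of points of `Y` moved out of `Y` by `z` -/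
noncomputable def U (Y : Finset Γ) (z : Γ) : ℕ := #{y ∈ Y | y + z ∉ Y}

omit [Fintype Γ] in
theorem U_add (Y : Finset Γ) (z w : Γ) : U Y (z + w) ≤ U Y z + U Y w := by
  classical
  have h : ({y ∈ Y | y + (z + w) ∉ Y} : Finset Γ) ⊆
      {y ∈ Y | y + z ∉ Y} ∪ ({y ∈ Y | y + w ∉ Y} : Finset Γ).image (· - z) := by
    intro y hy
    simp only [mem_filter, mem_union, mem_image] at hy ⊢
    by_cases h : y + z ∈ Y
    · exact Or.inr ⟨y + z, ⟨h, by rw [add_assoc]; exact hy.2⟩, by simp⟩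
    · exact Or.inl ⟨hy.1, h⟩
  have := (card_le_card h).trans ((card_union_le _ _).trans (Nat.add_le_add_left card_image_le _))
  unfold U
  convert this

omit [Fintype Γ] in
theorem U_nsmul (Y : Finset Γ) (z : Γ) (c : ℕ) : U Y (c • z) ≤ c * U Y z := by
  induction c with
  | zero => simp [U]
  | succ c ih => rw [succ_nsmul, add_mul, one_mul]; exact (U_add _ _ _).trans (by omega)

theorem cover (x : ι → Γ) (A : Finset ι) (hA : AddSubgroup.closure (x '' A) = ⊤)
    {μ σ R l τ L lam : ℕ} (hμ : 0 < μ) (h0 : ∀ z : Γ, μ • z = 0) (hσ : 2 ≤ σ)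
    (hR : Nat.card Γ ≤ σ ^ R) (hl : Nat.card Γ ≤ 2 ^ l) (hτ : μ ≤ τ * L) (Y : Finset Γ)
    (hx : ∀ i ∈ A, U Y (x i) ≤ lam) :
    ∃ F : Finset Γ, #F ≤ L ^ R ∧ ∀ z, ∃ f ∈ F, U Y (z - f) ≤ (τ * R + σ * l) * lam := by
  classical
  have hτ0 : 0 < τ := Nat.pos_of_mul_pos_right (hμ.trans_le hτ)
  have hL0 : 0 < L := Nat.pos_of_mul_pos_left (hμ.trans_le hτ)
  obtain ⟨R', l', F, h1, h2, h3⟩ := chain x A hA hμ h0
    (fun B => ∃ (R' l' : ℕ) (F : Finset Γ), σ ^ R' * 2 ^ l' ≤ Nat.card B ∧ #F ≤ L ^ R' ∧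
      ∀ z ∈ B, ∃ f ∈ F, U Y (z - f) ≤ (τ * R' + σ * l') * lam)
    ⟨0, 0, {0}, by simp, by simp, fun z hz => ⟨0, by simp, by
      rw [AddSubgroup.mem_bot.1 hz]; simp [U]⟩⟩ (by
      rintro B B' j i hi ⟨R', l', F, h1, h2, h3⟩ h4 h5 h6 h7
      have hU : ∀ c, U Y (c • x i) ≤ c * lam := fun c =>
        (U_nsmul Y _ c).trans (Nat.mul_le_mul_left _ (hx i hi))
      rcases le_total σ j with h | h
      · refine ⟨R' + 1, l', image₂ (fun f c => f + (τ * c) • x i) F (range L), ?_, ?_,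
          fun z hz => ?_⟩
        · rw [h6, pow_succ', mul_assoc]; exact Nat.mul_le_mul h h1
        · refine (card_image₂_le _ _ _).trans ?_
          rw [card_range, pow_succ]; exact Nat.mul_le_mul_right _ h2
        · obtain ⟨c, hc, hz⟩ := h7 z hz
          obtain ⟨f, hf, h8⟩ := h3 _ hz
          refine ⟨_, mem_image₂_of_mem hf (mem_range.2 (show c / τ < L from
            Nat.div_lt_of_lt_mul (by omega))), ?_⟩
          have e : z - (f + (τ * (c / τ)) • x i) = z - c • x i - f + (c % τ) • x i := by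
            conv_rhs => rw [← Nat.div_add_mod c τ, add_nsmul, Nat.div_add_mod]
            abel
          have h9 := (hU (c % τ)).trans (Nat.mul_le_mul_right lam (Nat.mod_lt c hτ0).le)
          have := U_add Y (z - c • x i - f) ((c % τ) • x i)
          rw [e]
          nlinarith
      · refine ⟨R', l' + 1, F, ?_, h2, fun z hz => ?_⟩
        · rw [h6, pow_succ', mul_left_comm]; exact Nat.mul_le_mul h4 h1
        · obtain ⟨c, hc, hz⟩ := h7 z hz
          obtain ⟨f, hf, h8⟩ := h3 _ hz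
          refine ⟨f, hf, ?_⟩
          have h9 := (hU c).trans (Nat.mul_le_mul_right lam (hc.le.trans h))
          have := U_add Y (z - c • x i - f) (c • x i)
          rw [show z - f = z - c • x i - f + c • x i by abel]
          nlinarith)
  rw [AddSubgroup.card_top] at h1
  have h4 : R' ≤ R := (Nat.pow_le_pow_iff_right (by omega : 1 < σ)).1
    (((Nat.le_mul_of_pos_right _ (by positivity)).trans h1).trans hR)
  have h5 : l' ≤ l := (Nat.pow_le_pow_iff_right one_lt_two).1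
    (((Nat.le_mul_of_pos_left _ (by positivity)).trans h1).trans hl)
  refine ⟨F, h2.trans (Nat.pow_le_pow_right hL0 h4), fun z => ?_⟩
  obtain ⟨f, hf, h⟩ := h3 z trivial
  exact ⟨f, hf, h.trans (by gcongr)⟩

theorem sym_le (Y : Finset Γ) (hY : Y.Nonempty) : #{z | 2 * U Y z ≤ #Y} ≤ 2 * #Y := by
  classical
  have h1 : ∀ z, #{y ∈ Y | y + z ∈ Y} + U Y z = #Y := fun z => by
    unfold U
    convert card_filter_add_card_filter_not (s := Y) (fun y => y + z ∈ Y)
  have h2 : ∑ z, #{y ∈ Y | y + z ∈ Y} = #Y * #Y := by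
    simp only [card_filter]
    rw [sum_comm, ← smul_eq_mul, ← sum_const]
    refine sum_congr rfl fun y _ => ?_
    rw [← card_filter]
    exact card_bij (fun z _ => y + z) (by simp) (by simp) fun b hb => ⟨b - y, by simpa, by simp⟩
  have h3 : #{z | 2 * U Y z ≤ #Y} * #Y ≤ 2 * #Y * #Y := by
    rw [mul_assoc, ← h2, mul_sum, ← smul_eq_mul, ← sum_const]
    refine (sum_le_sum fun z hz => ?_).trans (sum_le_sum_of_subset (subset_univ _))
    have := (mem_filter.1 hz).2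
    have := h1 z
    omega
  exact Nat.le_of_mul_le_mul_right h3 hY.card_pos

/-- expansion of small sets -/
theorem iso (x : ι → Γ) (A : Finset ι) (hA : AddSubgroup.closure (x '' A) = ⊤) (hA0 : A.Nonempty)
    {μ σ R l τ L : ℕ} (hμ : 0 < μ) (h0 : ∀ z : Γ, μ • z = 0) (hσ : 2 ≤ σ)
    (hR : Nat.card Γ ≤ σ ^ R) (hl : Nat.card Γ ≤ 2 ^ l) (hτ : μ ≤ τ * L) (Y : Finset Γ)
    (hY0 : Y.Nonempty) (hY : 2 * L ^ R * #Y < Nat.card Γ) :
    ∃ i ∈ A, #Y ≤ 2 * (τ * R + σ * l) * U Y (x i) := by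
  classical
  obtain ⟨i, hi, hm⟩ := exists_max_image A (fun i => U Y (x i)) hA0
  refine ⟨i, hi, not_lt.1 fun h => hY.not_ge ?_⟩
  obtain ⟨F, h1, h2⟩ := cover x A hA hμ h0 hσ hR hl hτ Y hm
  have h3 : univ ⊆ image₂ (· + ·) F {z | 2 * U Y z ≤ #Y} := fun z _ => by
    obtain ⟨f, hf, h3⟩ := h2 z
    refine mem_image₂.2 ⟨f, hf, z - f, ?_, by simp⟩
    rw [mem_filter_univ]
    nlinarith
  have h4 := (card_le_card h3).trans (card_image₂_le _ _ _)
  rw [card_univ, ← Nat.card_eq_fintype_card] at h4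
  have := Nat.mul_le_mul h1 (sym_le Y hY0)
  nlinarith

theorem fourier (Y : Finset Γ) (z : Γ) :
    ∑ ψ : AddChar Γ ℂ, ‖∑ y ∈ Y, ψ y‖ ^ 2 * (ψ z).re = Nat.card Γ * ((#Y : ℝ) - U Y z) := by
  classical
  have h1 : #{y ∈ Y | y + z ∈ Y} + U Y z = #Y := by
    unfold U
    convert card_filter_add_card_filter_not (s := Y) (fun y => y + z ∈ Y)
  have h2 : ∑ ψ : AddChar Γ ℂ, ((‖∑ y ∈ Y, ψ y‖ ^ 2 : ℝ) : ℂ) * ψ z =
      (Nat.card Γ * #{y ∈ Y | y + z ∈ Y} : ℕ) := by
    have : ∀ ψ : AddChar Γ ℂ, ((‖∑ y ∈ Y, ψ y‖ ^ 2 : ℝ) : ℂ) * ψ z =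
        ∑ y ∈ Y, ∑ y' ∈ Y, ψ (y + z - y') := fun ψ => by
      rw [Complex.ofReal_pow, ← Complex.mul_conj', map_sum, sum_mul_sum, sum_mul]
      refine sum_congr rfl fun y _ => ?_
      rw [sum_mul]
      refine sum_congr rfl fun y' _ => ?_
      rw [sub_eq_add_neg, AddChar.map_add_eq_mul, AddChar.map_add_eq_mul, AddChar.map_neg_eq_conj]
      ring
    simp only [this]
    rw [sum_comm, card_filter, Nat.card_eq_fintype_card]
    push_cast
    rw [mul_sum]
    refine sum_congr rfl fun y _ => ?_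
    rw [sum_comm]
    simp only [AddChar.sum_apply_eq_ite, sub_eq_zero, sum_ite_eq]
    split_ifs <;> simp
  have h3 := congrArg Complex.re h2
  rw [Complex.re_sum, Complex.natCast_re] at h3
  simp only [Complex.re_ofReal_mul] at h3
  rw [h3, ← h1]
  push_cast
  ring

theorem key {κ : Type} (S : Finset κ) (z : κ → Γ) (w : κ → ℝ) (c : ℝ)
    (hw : ∀ k ∈ S, 0 ≤ w k) (hc : 0 ≤ c)
    (H : ∀ ψ : AddChar Γ ℂ, ψ ≠ 0 → c ≤ ∑ k ∈ S, w k * (1 - (ψ (z k)).re))
    (Y : Finset Γ) (hY : 4 * #Y ≤ 3 * Nat.card Γ) : c * #Y ≤ 4 * ∑ k ∈ S, w k * U Y (z k) := by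
  classical
  have hN : (0 : ℝ) < Nat.card Γ := by exact_mod_cast Nat.card_pos
  have h0 := fourier Y 0
  simp only [AddChar.map_zero_eq_one, Complex.one_re, mul_one, show U Y 0 = 0 by simp [U],
    Nat.cast_zero, sub_zero] at h0
  have h1 : ∑ ψ : AddChar Γ ℂ, ‖∑ y ∈ Y, ψ y‖ ^ 2 * ∑ k ∈ S, w k * (1 - (ψ (z k)).re) =
      Nat.card Γ * ∑ k ∈ S, w k * U Y (z k) := by
    simp only [mul_sum]
    rw [sum_comm]
    refine sum_congr rfl fun k _ => ?_
    have := fourier Y (z k)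
    simp only [mul_left_comm _ (w k), ← mul_sum]
    simp only [mul_sub, mul_one, sum_sub_distrib]
    rw [this, h0]
    ring
  have h2 : ∑ ψ ∈ univ.erase (0 : AddChar Γ ℂ), ‖∑ y ∈ Y, ψ y‖ ^ 2 * c ≤
      ∑ ψ : AddChar Γ ℂ, ‖∑ y ∈ Y, ψ y‖ ^ 2 * ∑ k ∈ S, w k * (1 - (ψ (z k)).re) := by
    refine (sum_le_sum fun ψ hψ => mul_le_mul_of_nonneg_left (H ψ (ne_of_mem_erase hψ))
      (by positivity)).trans (sum_le_sum_of_subset_of_nonneg (subset_univ _) fun ψ _ _ =>
        mul_nonneg (by positivity) (sum_nonneg fun k hk => mul_nonneg (hw k hk) ?_))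
    have := (Complex.re_le_norm (ψ (z k))).trans_eq (ψ.norm_apply _)
    linarith
  rw [← sum_mul, sum_erase_eq_sub (mem_univ _), h0, h1] at h2
  simp only [AddChar.zero_apply, sum_const, nsmul_eq_mul, mul_one, Complex.norm_natCast] at h2
  have h3 : (4 * #Y : ℝ) ≤ 3 * Nat.card Γ := by exact_mod_cast hY
  refine le_of_mul_le_mul_left ?_ hN
  have h4 : 0 ≤ c * #Y := by positivity
  nlinarith

theorem geom {ω : ℂ} (h : ‖ω‖ = 1) {T : ℕ} (hT : 4 ≤ T * ‖ω - 1‖) :
    (T : ℝ) / 2 ≤ ∑ s ∈ range T, (1 - (ω ^ s).re) := by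
  have h1 : ‖∑ s ∈ range T, ω ^ s‖ * ‖ω - 1‖ ≤ 2 := by
    rw [← norm_mul, geom_sum_mul]
    refine (norm_sub_le _ _).trans ?_
    rw [norm_pow, h]; norm_num
  have h2 := Complex.re_le_norm (∑ s ∈ range T, ω ^ s)
  rw [Complex.re_sum] at h2
  rw [sum_sub_distrib, sum_const, card_range, nsmul_eq_mul, mul_one]
  have h3 := norm_nonneg (∑ s ∈ range T, ω ^ s)
  have h4 : (0 : ℝ) ≤ T := by positivity
  nlinarith

theorem root {ω : ℂ} {μ : ℕ} (hμ : 0 < μ) (h : ω ^ μ = 1) :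
    ∃ k : ℤ, ω = Complex.exp (Complex.I * (2 * Real.pi * k / μ : ℝ)) ∧
      4 * |(k : ℝ)| ≤ μ * ‖ω - 1‖ := by
  have h1 : ‖ω‖ = 1 := Complex.norm_eq_one_of_pow_eq_one h hμ.ne'
  have h2 : ω = Complex.exp (Complex.I * (ω.arg : ℝ)) := by
    conv_lhs => rw [← Complex.norm_mul_exp_arg_mul_I ω, h1]
    simp [mul_comm]
  have hμ' : (0 : ℝ) < μ := by exact_mod_cast hμ
  rw [h2, ← Complex.exp_nat_mul, Complex.exp_eq_one_iff] at h
  obtain ⟨k, hk⟩ := h
  have h3 : ω.arg = 2 * Real.pi * k / μ := by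
    have := congrArg Complex.im hk
    simp at this
    field_simp
    linarith
  refine ⟨k, h3 ▸ h2, ?_⟩
  have h4 := Real.mul_abs_le_abs_sin (x := ω.arg / 2) (by
    rw [abs_div, abs_two]; linarith [Complex.abs_arg_le_pi ω])
  have h5 : ‖ω - 1‖ = 2 * |Real.sin (ω.arg / 2)| := by
    conv_lhs => rw [h2, Complex.norm_exp_I_mul_ofReal_sub_one]
    simp
  have h6 : 2 / Real.pi * |ω.arg / 2| = 2 * |(k : ℝ)| / μ := by
    have := Real.pi_pos
    rw [h3, abs_div, abs_div, abs_mul, abs_mul, abs_two, abs_of_pos this, abs_of_pos hμ']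
    field_simp
  rw [h6, div_le_iff₀ hμ'] at h4
  rw [h5]
  linarith

/-- expansion of large sets -/
theorem four (x : ι → Γ) (A : Finset ι) (hA : AddSubgroup.closure (x '' A) = ⊤) (hA0 : A.Nonempty)
    {μ σ l q h T : ℕ} (hμ : 0 < μ) (h0 : ∀ z : Γ, μ • z = 0) (hσ : 0 < σ)
    (hl : Nat.card Γ ≤ 2 ^ l)
    (hq : ∀ B : AddSubgroup Γ, σ ≤ B.index → ∀ (g : Γ), ∀ S ⊆ A, (∀ i ∈ S, x i - g ∈ B) → #S ≤ q)
    (hqA : 4 * h * q ≤ #A) (hT : μ ≤ T * h) (Y : Finset Γ) (hY : 4 * #Y ≤ 3 * Nat.card Γ) :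
    ∃ i ∈ A, #Y ≤ 16 * (T + l * σ) * U Y (x i) := by
  classical
  obtain ⟨i₀, hi, hm⟩ := exists_max_image A (fun i => U Y (x i)) hA0
  obtain ⟨E, hE, hEl, hEc⟩ := gens x A hA hl
  have hT0 : (0 : ℝ) < T := by exact_mod_cast Nat.pos_of_mul_pos_right (hμ.trans_le hT)
  have hσ0 : (0 : ℝ) < σ := by exact_mod_cast hσ
  have hA1 : (0 : ℝ) < #A := by exact_mod_cast hA0.card_pos
  have hμ0 : (0 : ℝ) < μ := by exact_mod_cast hμ
  have k := key ((A ×ˢ range T).disjSum (E ×ˢ range σ))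
    (Sum.elim (fun p => p.2 • x p.1) fun p => p.2 • x p.1)
    (Sum.elim (fun _ => (σ : ℝ)) fun _ => T * #A) (σ * T * #A / 4)
    (by rintro (k | k) - <;> simp <;> positivity) (by positivity) (fun ψ hψ => ?_) Y hY
  · refine ⟨i₀, hi, ?_⟩
    have h1 : ∀ (N : ℕ), ∀ D ⊆ A, ∑ p ∈ D ×ˢ range N, (U Y (p.2 • x p.1) : ℝ) ≤
        #D * N * (N * U Y (x i₀)) := fun N D hD => by
      refine (sum_le_card_nsmul _ _ (N * U Y (x i₀) : ℝ) fun p hp => ?_).trans_eq (by simp)
      rw [mem_product, mem_range] at hp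
      exact_mod_cast (U_nsmul Y _ _).trans (Nat.mul_le_mul hp.2.le (hm _ (hD hp.1)))
    simp only [sum_disjSum, Sum.elim_inl, Sum.elim_inr, ← mul_sum] at k
    have h2 := mul_le_mul_of_nonneg_left (h1 T A subset_rfl) hσ0.le
    have h3 := mul_le_mul_of_nonneg_left (h1 σ E hE) (mul_pos hT0 hA1).le
    have h4 : (#E : ℝ) * (σ * T * #A * (σ * U Y (x i₀))) ≤ l * (σ * T * #A * (σ * U Y (x i₀))) :=
      mul_le_mul_of_nonneg_right (by exact_mod_cast hEl) (by positivity)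
    have h5 : (σ * T * #A : ℝ) * #Y ≤ σ * T * #A * (16 * (T + l * σ) * U Y (x i₀)) := by
      nlinarith
    exact_mod_cast le_of_mul_le_mul_left h5 (by positivity)
  simp only [sum_disjSum, Sum.elim_inl, Sum.elim_inr, ← mul_sum, sum_product,
    AddChar.map_nsmul_eq_pow]
  have hn : ∀ (N : ℕ) (i : ι), 0 ≤ ∑ s ∈ range N, (1 - (ψ (x i) ^ s).re) := fun N i =>
    sum_nonneg fun s _ => by
      have := (Complex.re_le_norm (ψ (x i) ^ s)).trans_eq (by rw [norm_pow, ψ.norm_apply, one_pow])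
      linarith
  let B : AddSubgroup Γ := ψ.toAddMonoidHom.ker
  have hB : ∀ z, z ∈ B ↔ ψ z = 1 := fun z => Iff.rfl
  have p1 := sum_nonneg fun i (_ : i ∈ A) => hn T i
  have p2 := sum_nonneg fun i (_ : i ∈ E) => hn σ i
  rcases le_total σ B.index with hi | hi
  · have h1 : #{i ∈ A | μ * ‖ψ (x i) - 1‖ < 4 * h} ≤ 2 * h * q := by
      have hr := fun i => root hμ (show ψ (x i) ^ μ = 1 by
        rw [← AddChar.map_nsmul_eq_pow, h0, AddChar.map_zero_eq_one])
      choose κ h1 h2 using hr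
      refine (card_le_mul_card_image_of_maps_to (f := κ) (t := Ico (-(h : ℤ)) h) (fun i hi => ?_) q
        fun b _ => ?_).trans_eq (by
          rw [Int.card_Ico, show ((h : ℤ) - -h).toNat = 2 * h by omega, mul_comm])
      · have h3 : |(κ i : ℝ)| < h := by linarith [h2 i, (mem_filter.1 hi).2]
        have h4 : |κ i| < h := by exact_mod_cast h3
        rw [abs_lt] at h4
        exact mem_Ico.2 ⟨h4.1.le, h4.2⟩
      · rcases ({i ∈ {i ∈ A | μ * ‖ψ (x i) - 1‖ < 4 * h} | κ i = b} : Finset ι).eq_empty_or_nonempty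
          with e | ⟨j, hj⟩
        · simp [e]
        refine hq B hi (x j) _ ((filter_subset _ _).trans (filter_subset _ _)) fun i hi => ?_
        have : ψ (x i) = ψ (x j) := by
          rw [h1 i, h1 j, (mem_filter.1 hi).2, (mem_filter.1 hj).2]
        rw [hB, AddChar.map_sub_eq_div, this, div_self]
        exact norm_ne_zero_iff.1 (by rw [ψ.norm_apply]; exact one_ne_zero)
    have h2 := card_filter_add_card_filter_not (s := A) fun i => μ * ‖ψ (x i) - 1‖ < 4 * h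
    have h3 : (#A : ℝ) ≤ 2 * #{i ∈ A | ¬ μ * ‖ψ (x i) - 1‖ < 4 * h} := by
      exact_mod_cast (by nlinarith : #A ≤ 2 * #{i ∈ A | ¬ μ * ‖ψ (x i) - 1‖ < 4 * h})
    have h4 : #{i ∈ A | ¬ μ * ‖ψ (x i) - 1‖ < 4 * h} • ((T : ℝ) / 2) ≤
        ∑ i ∈ A, ∑ s ∈ range T, (1 - (ψ (x i) ^ s).re) := by
      refine (card_nsmul_le_sum _ _ _ fun i hi => geom (ψ.norm_apply _) ?_).trans
        (sum_le_sum_of_subset_of_nonneg (filter_subset _ _) fun i _ _ => hn T i)
      have h5 := not_lt.1 (mem_filter.1 hi).2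
      have h6 : (μ : ℝ) ≤ T * h := by exact_mod_cast hT
      refine le_of_mul_le_mul_left ?_ hμ0
      nlinarith
    rw [nsmul_eq_mul] at h4
    have h5 := mul_nonneg (mul_pos hT0 hA1).le p2
    have h6 : (T * #A / 4 : ℝ) ≤ ∑ i ∈ A, ∑ s ∈ range T, (1 - (ψ (x i) ^ s).re) := by nlinarith
    nlinarith
  · obtain ⟨i, hi1, hi2⟩ : ∃ i ∈ E, ψ (x i) ≠ 1 := by
      by_contra! hc
      have : (⊤ : AddSubgroup Γ) ≤ B := by
        rw [← hEc, AddSubgroup.closure_le]
        rintro _ ⟨i, hi, rfl⟩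
        exact hc i hi
      exact hψ (DFunLike.ext _ _ fun z => (hB z).1 (this trivial))
    obtain ⟨κ, h1, h2⟩ := root (Nat.pos_of_ne_zero B.index_ne_zero_of_finite)
      (show ψ (x i) ^ B.index = 1 by
        rw [← AddChar.map_nsmul_eq_pow]; exact (hB _).1 (B.nsmul_index_mem _))
    have h3 : (1 : ℝ) ≤ |(κ : ℝ)| := by
      have : κ ≠ 0 := by
        rintro rfl
        exact hi2 (by simpa using h1)
      exact_mod_cast Int.one_le_abs this
    have h4 : (B.index : ℝ) ≤ σ := by exact_mod_cast hi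
    have h5 := (geom (ψ.norm_apply (x i)) (T := σ) (by nlinarith [norm_nonneg (ψ (x i) - 1)])).trans
      (single_le_sum (fun i _ => hn σ i) hi1)
    have h6 := mul_le_mul_of_nonneg_left h5 (mul_pos hT0 hA1).le
    have h7 := mul_nonneg hσ0.le p1
    have h8 : (0 : ℝ) < σ * T * #A := by positivity
    nlinarith

end Pool.Agent.Lib.MP_3184af_co.BR
end

-- part Pool.Agent.Lib.MP_3184af_co.BRRich
section

/-!
A well spread sequence has a short part whose subsums of a fixed length cover the group.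
-/

set_option autoImplicit false

namespace Pool.Agent.Lib.MP_3184af_co.BR

open Finset Pointwise

variable {K : Type} [AddCommGroup K] [Fintype K] {ι : Type} [DecidableEq ι]

/-- sums of `t` terms with indices in `P` -/
def Sm (a : ι → K) (P : Finset ι) (t : ℕ) : Set K := {y | ∃ V ⊆ P, #V = t ∧ ∑ i ∈ V, a i = y}

omit [Fintype K] in
theorem Sm_add {a : ι → K} {P P' : Finset ι} {t t' : ℕ} (h : Disjoint P P') {y y' : K}
    (hy : y ∈ Sm a P t) (hy' : y' ∈ Sm a P' t') : y + y' ∈ Sm a (P ∪ P') (t + t') := by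
  obtain ⟨V, h1, rfl, rfl⟩ := hy
  obtain ⟨V', h1', rfl, rfl⟩ := hy'
  have := (h.mono h1 h1')
  exact ⟨V ∪ V', union_subset_union h1 h1', card_union_of_disjoint this, sum_union this⟩

omit [Fintype K] in
theorem Sm_pair {a : ι → K} {P : Finset ι} {t : ℕ} {i j k : ι} (hi : i ∉ P) (hj : j ∉ P) {y : K}
    (hy : y ∈ Sm a P t) (hk : k = i ∨ k = j) : y + a k ∈ Sm a (P ∪ {i, j}) (t + 1) :=
  Sm_add (by simp [hi, hj]) hy ⟨{k}, by simpa using hk, by simp, by simp⟩

open Classical in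
/-- the part of `S` in the coset `c + H` -/
noncomputable def pt (S : Set K) (c : K) (H : AddSubgroup K) : Finset H := {z | c + z ∈ S}

theorem mem_pt {S : Set K} {c : K} {H : AddSubgroup K} {z : H} : z ∈ pt S c H ↔ c + z ∈ S := by
  simp [pt]

theorem shrink (S : Set K) (c : K) {H H' : AddSubgroup K} (h : H' ≤ H) {ρ : ℝ}
    (hρ : ρ * Nat.card H ≤ #(pt S c H)) : ∃ c', ρ * Nat.card H' ≤ #(pt S c' H') := by
  classical
  have h1 : ∑ w : H, #(pt S (c + w) H') = Nat.card H' * #(pt S c H) := by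
    have : ∀ w : H, #(pt S (c + w) H') = ∑ z : H', if c + w + z ∈ S then 1 else 0 := fun w => by
      rw [← card_filter]; congr
    simp only [this]
    rw [sum_comm, Nat.card_eq_fintype_card, ← card_univ, ← smul_eq_mul, ← sum_const]
    refine sum_congr rfl fun z _ => ?_
    rw [← card_filter]
    exact card_bij (fun w _ => w + ⟨z, h z.2⟩) (by simp [mem_pt, add_assoc]) (by simp)
      fun b hb => ⟨b - ⟨z, h z.2⟩, by simpa [mem_pt, add_assoc] using hb, by simp⟩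
  obtain ⟨w, -, hw⟩ := exists_le_of_sum_le (s := univ) univ_nonempty
    (f := fun _ : H => ρ * Nat.card H') (g := fun w => (#(pt S (c + w) H') : ℝ)) (by
      rw [← Nat.cast_sum, h1, sum_const, card_univ, ← Nat.card_eq_fintype_card, nsmul_eq_mul]
      push_cast
      have : (0 : ℝ) ≤ Nat.card H' := by positivity
      nlinarith)
  exact ⟨_, hw⟩

/-- state of the growth process -/
def St (a : ι → K) (I : Finset ι) (t : ℕ) (ρ : ℝ) : Prop :=
  ∃ P ⊆ I, ∃ t' ≤ t, ∃ (c : K) (H : AddSubgroup K), #P ≤ 2 * t' ∧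
    (∀ i ∈ I \ P, ∀ j ∈ I \ P, a i - a j ∈ H) ∧ ρ * Nat.card H ≤ #(pt (Sm a P t') c H)

theorem St.mono {a : ι → K} {I : Finset ι} {t s : ℕ} {ρ ρ' : ℝ} (h : St a I t ρ) (hs : t ≤ s)
    (hρ : ρ' ≤ ρ) : St a I s ρ' := by
  obtain ⟨P, h1, t', h2, c, H, h3, h4, h5⟩ := h
  exact ⟨P, h1, t', h2.trans hs, c, H, h3, h4,
    (mul_le_mul_of_nonneg_right hρ (by positivity)).trans h5⟩

/-- sets of density less than `θ` expand at rate `1 / w` -/
def Gr (a : ι → K) (I : Finset ι) (m : ℕ) (θ : ℝ) (w : ℕ) : Prop :=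
  ∀ A ⊆ I, A.Nonempty → #I ≤ #A + 2 * m → ∀ (H : AddSubgroup K) [Fintype H] (x : ι → H) (b : K),
    (∀ i ∈ A, (x i : K) = a i - b) → AddSubgroup.closure (x '' A) = ⊤ →
    ∀ Y : Finset H, Y.Nonempty → (#Y : ℝ) < θ * Nat.card H → ∃ i ∈ A, #Y ≤ w * U Y (x i)

theorem jump {a : ι → K} {I : Finset ι} {m w t : ℕ} {θ ρ : ℝ} (hG : Gr a I m θ w) (hρ : 0 < ρ)
    (hw : 0 < w) (hI : 2 * m < #I) (h : St a I t ρ) (s : ℕ) (hs : t + s ≤ m) :
    St a I (t + s) (min θ (ρ * (1 + s / w))) := by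
  classical
  induction s with
  | zero => exact h.mono le_rfl (by simp)
  | succ s ih =>
    obtain ⟨P, h1, t', h2, c, H, h3, h4, h5⟩ := ih (by omega)
    have hc := card_sdiff_add_card_eq_card h1
    obtain ⟨b, hb⟩ : (I \ P).Nonempty := card_pos.1 (by omega)
    let H' := AddSubgroup.closure ((fun i => a i - a b) '' (I \ P : Finset ι))
    have hm : ∀ i ∈ I \ P, a i - a b ∈ H' := fun i hi =>
      AddSubgroup.subset_closure (Set.mem_image_of_mem _ hi)
    have hd : ∀ i ∈ I \ P, ∀ j ∈ I \ P, a i - a j ∈ H' := fun i hi j hj => by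
      simpa using sub_mem (hm i hi) (hm j hj)
    obtain ⟨c', h6⟩ := shrink _ c (show H' ≤ H from (AddSubgroup.closure_le _).2 (by
      rintro _ ⟨i, hi, rfl⟩
      exact h4 i hi b hb)) h5
    have hN : (0 : ℝ) < Nat.card H' := by exact_mod_cast Nat.card_pos
    rcases le_or_gt (θ * Nat.card H') #(pt (Sm a P t') c' H') with h7 | h7
    · exact ⟨P, h1, t', by omega, c', H', h3, hd,
        (mul_le_mul_of_nonneg_right (min_le_left _ _) hN.le).trans h7⟩
    have h8 : ρ * (1 + s / w) * Nat.card H' ≤ #(pt (Sm a P t') c' H') := by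
      rcases min_choice θ (ρ * (1 + s / w)) with e | e <;> rw [e] at h6
      · exact absurd h6 h7.not_ge
      · exact h6
    have h9 : ρ * Nat.card H' ≤ #(pt (Sm a P t') c' H') := by
      refine le_trans ?_ h8
      have : (0 : ℝ) ≤ s / w := by positivity
      gcongr
      nlinarith
    let x : ι → H' := fun i => if h : a i - a b ∈ H' then ⟨_, h⟩ else 0
    have hx : ∀ i ∈ I \ P, (x i : K) = a i - a b := fun i hi => by simp only [x, dif_pos (hm i hi)]
    obtain ⟨i, hi, hU⟩ := hG _ sdiff_subset ⟨b, hb⟩ (by omega) H' x (a b) hx (by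
      apply AddSubgroup.map_injective H'.subtype_injective
      rw [AddMonoidHom.map_closure, ← AddMonoidHom.range_eq_map, AddSubgroup.range_subtype,
        Set.image_image]
      exact congrArg _ (Set.image_congr hx)) _
      (card_pos.1 (by exact_mod_cast (mul_pos hρ hN).trans_le h9)) h7
    set Y := pt (Sm a P t') c' H'
    have hi' := mem_sdiff.1 hi
    have hb' := mem_sdiff.1 hb
    refine ⟨P ∪ {i, b}, union_subset h1 (by simp [insert_subset_iff, hi'.1, hb'.1]), t' + 1,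
      by omega, c' + a b, H', (card_union_le _ _).trans (by have := card_le_two (a := i) (b := b); omega),
      fun k hk j hj => hd k (sdiff_subset_sdiff subset_rfl subset_union_left hk) j
        (sdiff_subset_sdiff subset_rfl subset_union_left hj), (mul_le_mul_of_nonneg_right
          (min_le_right _ _) hN.le).trans ?_⟩
    have h10 : #Y + U Y (x i) ≤ #(pt (Sm a (P ∪ {i, b}) (t' + 1)) (c' + a b) H') := by
      have e : U Y (x i) = #(({y ∈ Y | y + x i ∉ Y} : Finset H').image (· + x i)) := by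
        rw [card_image_of_injective _ (add_left_injective _)]
        unfold U
        congr
      rw [e, ← card_union_of_disjoint (by
        rw [disjoint_right]
        intro z hz
        obtain ⟨y, hy, rfl⟩ := mem_image.1 hz
        exact (mem_filter.1 hy).2)]
      refine card_le_card (union_subset (fun z hz => mem_pt.2 ?_) fun z hz => mem_pt.2 ?_)
      · rw [add_right_comm]
        exact Sm_pair hi'.2 hb'.2 (mem_pt.1 hz) (Or.inr rfl)
      · obtain ⟨y, hy, rfl⟩ := mem_image.1 hz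
        have := Sm_pair hi'.2 hb'.2 (mem_pt.1 (mem_filter.1 hy).1) (Or.inl rfl)
        convert this using 1
        rw [AddSubgroup.coe_add, hx i hi]
        abel
    have h11 : (#Y : ℝ) + U Y (x i) ≤ #(pt (Sm a (P ∪ {i, b}) (t' + 1)) (c' + a b) H') := by
      exact_mod_cast h10
    have h12 : (#Y : ℝ) ≤ w * U Y (x i) := by exact_mod_cast hU
    have hw' : (0 : ℝ) < w := by exact_mod_cast hw
    have h13 : ρ * Nat.card H' / w ≤ U Y (x i) := by
      rw [div_le_iff₀ hw']; linarith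
    refine le_trans (le_of_eq_of_le ?_ (add_le_add h8 h13)) h11
    push_cast
    ring

theorem jump' {a : ι → K} {I : Finset ι} {m w t B : ℕ} {θ ρ : ℝ} (hG : Gr a I m θ w) (hρ : 0 < ρ)
    (hw : 0 < w) (hI : 2 * m < #I) (h : St a I t ρ) (hs : t + B * w ≤ m) (hB : θ ≤ ρ * B) :
    St a I (t + B * w) θ := by
  refine (jump hG hρ hw hI h _ hs).mono le_rfl (le_min le_rfl ?_)
  have hw' : (w : ℝ) ≠ 0 := by exact_mod_cast hw.ne'
  push_cast
  rw [mul_div_cancel_right₀ _ hw']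
  nlinarith

/-- the growth process reaches density three quarters -/
theorem dense {R : ℕ} (hR0 : 0 < R) : ∃ C : ℕ, 0 < C ∧ ∀ (K : Type) [AddCommGroup K] [Fintype K]
    (ι : Type) [DecidableEq ι] (a : ι → K) (I : Finset ι) (μ σ l q : ℕ), (∀ z : K, μ • z = 0) →
    2 ≤ σ → 0 < l → Nat.card K ≤ σ ^ R → Nat.card K ≤ 2 ^ l → C * σ * l ^ 2 ≤ μ →
    (∀ B : AddSubgroup K, σ ≤ B.index → ∀ g : K, ∀ S ⊆ I, (∀ i ∈ S, a i - g ∈ B) → #S ≤ q) →
    C * q + μ ≤ #I → St a I (μ / 4) (3 / 4) := by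
  obtain ⟨p, hp⟩ : ∃ p, 2 ^ p = 64 * 2 ^ R * 2 ^ R := ⟨6 + R + R, by ring⟩
  set B := 2 ^ R with hB
  set F := 2 * 2 ^ (p * R) with hF
  have hB0 : R < B := Nat.lt_two_pow_self
  have hF0 : 0 < F := by positivity
  refine ⟨64 * B * R + 1024 * F, by positivity, ?_⟩
  intro K _ _ ι _ a I μ σ l q h0 hσ hl0 hR hl hC hq hI
  classical
  have hμ : 0 < μ := lt_of_lt_of_le (by positivity) hC
  have hK : ∀ H : AddSubgroup K, Nat.card H ≤ Nat.card K := fun H => H.card_le_card_addGroup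
  have h0' : ∀ (H : AddSubgroup K) (z : H), μ • z = 0 := fun H z => Subtype.ext (h0 z)
  have G1 : ∀ e, Gr a I (μ / 4) (1 / (2 * 2 ^ (e * R))) (2 * ((μ / 2 ^ e + 1) * R + σ * l)) := by
    intro e A _ hA0 _ H _ x b _ hx Y hY0 hY
    refine iso x A hx hA0 hμ (h0' H) hσ ((hK H).trans hR) ((hK H).trans hl) (L := 2 ^ e)
      (by rw [mul_comm]; exact (Nat.lt_mul_div_succ _ (by positivity)).le) Y hY0 ?_
    rw [one_div, inv_mul_eq_div, lt_div_iff₀ (by positivity)] at hY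
    rw [← pow_mul, mul_comm]
    exact_mod_cast hY
  have G2 : Gr a I (μ / 4) (3 / 4) (16 * (μ / (256 * F) + 1 + l * σ)) := by
    intro A hA hA0 hAI H _ x b hb hx Y _ hY
    refine four x A hx hA0 hμ (h0' H) (by omega) ((hK H).trans hl) (q := q) (h := 256 * F)
      (fun D hD g S hS h => hq (D.map H.subtype) ?_ (b + g) S (hS.trans hA) fun i hi => ?_) ?_
      (by rw [mul_comm]; exact (Nat.lt_mul_div_succ _ (by positivity)).le) Y ?_
    · rw [AddSubgroup.index_map_subtype]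
      exact hD.trans (Nat.le_mul_of_pos_right _ (Nat.pos_of_ne_zero H.index_ne_zero_of_finite))
    · exact ⟨_, h i hi, by simp [hb i (hS hi), sub_sub]⟩
    · have : 0 ≤ 64 * B * R * q := by positivity
      have := Nat.div_mul_le_self μ 4
      nlinarith
    · exact_mod_cast (by linarith : (4 * #Y : ℝ) ≤ 3 * Nat.card H)
  have hI' : 2 * (μ / 4) < #I := by omega
  let bd : ℕ → ℕ := fun n => ∑ e ∈ range n, B * (2 * ((μ / 2 ^ (p + e) + 1) * R + σ * l))
  have P1 : ∀ n t, t + bd n ≤ μ / 4 → St a I t (1 / (2 * 2 ^ ((p + n) * R))) →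
      St a I (t + bd n) (1 / (2 * 2 ^ (p * R))) := by
    intro n
    induction n with
    | zero => exact fun t _ h => h
    | succ n ih =>
      intro t ht h
      have e : t + bd (n + 1) = t + B * (2 * ((μ / 2 ^ (p + n) + 1) * R + σ * l)) + bd n := by
        simp only [bd, sum_range_succ]; ring
      rw [e] at ht ⊢
      refine ih _ ht (jump' (G1 (p + n)) (by positivity) (by positivity) hI' h (by omega) ?_)
      rw [hB, ← add_assoc, add_one_mul, pow_add]
      push_cast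
      field_simp
      rfl
  have hbd : 16 * bd l ≤ μ + 64 * B * R * σ * l ^ 2 := by
    have h1 : ∀ e, (μ / 2 ^ (p + e) : ℕ) ≤ (μ : ℝ) / 2 ^ p * (1 / 2) ^ e := fun e => by
      refine Nat.cast_div_le.trans_eq ?_
      push_cast
      rw [pow_add]
      field_simp
      simp
    have h2 : ∑ e ∈ range l, ((μ / 2 ^ (p + e) : ℕ) : ℝ) ≤ (μ : ℝ) / 2 ^ p * 2 := by
      refine (sum_le_sum fun e _ => h1 e).trans ?_
      rw [← mul_sum]
      exact mul_le_mul_of_nonneg_left (sum_geometric_two_le l) (by positivity)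
    rw [div_mul_eq_mul_div, le_div_iff₀ (by positivity)] at h2
    have h3 : (∑ e ∈ range l, μ / 2 ^ (p + e)) * 2 ^ p ≤ μ * 2 := by exact_mod_cast h2
    have h4 : bd l = 2 * B * R * (∑ e ∈ range l, μ / 2 ^ (p + e)) + l * (2 * B * (R + σ * l)) := by
      rw [mul_sum, ← smul_eq_mul l, ← card_range l, ← sum_const, card_range, ← sum_add_distrib]
      exact sum_congr rfl fun e _ => by ring
    rw [hp] at h3
    rw [h4]
    generalize ∑ e ∈ range l, μ / 2 ^ (p + e) = X at h3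
    have h5 : R * X ≤ B * X := Nat.mul_le_mul_right _ hB0.le
    have h6 : R + σ * l ≤ 2 * (R * (σ * l)) := by
      have : 1 ≤ σ * l := Nat.mul_pos (by omega) hl0
      nlinarith
    have h7 := Nat.mul_le_mul_left (32 * l * B) h6
    have h8 := Nat.mul_le_mul_left (32 * B) h5
    nlinarith
  have hF1 : 16 * (F * (16 * (μ / (256 * F) + 1 + l * σ))) ≤ μ + 512 * F * σ * l ^ 2 := by
    have h1 := Nat.div_mul_le_self μ (256 * F)
    have h2 : 1 + l * σ ≤ 2 * (σ * l ^ 2) := by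
      have : 1 ≤ σ * l := Nat.mul_pos (by omega) hl0
      nlinarith
    have := Nat.mul_le_mul_left (256 * F) h2
    nlinarith
  have hT : 0 + bd l + F * (16 * (μ / (256 * F) + 1 + l * σ)) ≤ μ / 4 := by
    have : 0 ≤ 512 * F * σ * l ^ 2 := by positivity
    rw [Nat.le_div_iff_mul_le (by norm_num)]
    nlinarith
  refine (jump' G2 (by positivity) (by positivity) hI' (P1 l 0 (by omega) ⟨∅, empty_subset _, 0,
    le_rfl, 0, ⊤, by simp, fun _ _ _ _ => trivial, ?_⟩) hT ?_).mono hT le_rfl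
  · have h1 : 1 ≤ #(pt (Sm a ∅ 0) 0 ⊤) := card_pos.2 ⟨0, mem_pt.2 ⟨∅, subset_rfl, rfl, by simp⟩⟩
    have h2 : Nat.card (⊤ : AddSubgroup K) ≤ 2 * 2 ^ ((p + l) * R) :=
      ((hK _).trans hl).trans ((Nat.pow_le_pow_right two_pos (by nlinarith)).trans
        (Nat.le_mul_of_pos_left _ two_pos))
    rw [one_div, inv_mul_le_iff₀ (by positivity)]
    exact_mod_cast h2.trans (Nat.le_mul_of_pos_right _ h1)
  · rw [hF]
    push_cast
    field_simp
    norm_num

theorem reserve (a : ι → K) (I : Finset ι) {l N : ℕ} (hl : Nat.card K ≤ 2 ^ l)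
    (hI : N * (l + 1) ≤ #I)
    (hw : ∀ B : AddSubgroup K, B ≠ ⊤ → ∀ g : K, ∀ S ⊆ I, (∀ i ∈ S, a i - g ∈ B) →
      #S + N * (l + 1) ≤ #I) (k : ℕ) (hk : k ≤ N) :
    ∃ D ⊆ I, #D ≤ k * (l + 1) ∧ k ≤ #D ∧ ∀ B : AddSubgroup K, B ≠ ⊤ → ∀ g : K, ∀ S ⊆ D,
      (∀ i ∈ S, a i - g ∈ B) → #S + k ≤ #D := by
  classical
  induction k with
  | zero => exact ⟨∅, by simp, by simp, by simp, fun _ _ _ S hS _ => by simpa using hS⟩
  | succ k ih =>
    obtain ⟨D, h1, h2, h3, h4⟩ := ih (by omega)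
    have hc := card_sdiff_add_card_eq_card h1
    have h5 : (k + 1) * (l + 1) ≤ N * (l + 1) := Nat.mul_le_mul_right _ hk
    obtain ⟨b, hb⟩ : (I \ D).Nonempty := card_pos.1 (by nlinarith)
    obtain ⟨E, e1, e2, e3⟩ := gens (fun i => a i - a b) (I \ D) (by
      by_contra hne
      have := hw _ hne (a b) _ sdiff_subset fun i hi =>
        AddSubgroup.subset_closure (Set.mem_image_of_mem _ hi)
      nlinarith) hl
    have e4 : insert b E ⊆ I \ D := insert_subset hb e1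
    have e5 : #(D ∪ insert b E) = #D + #(insert b E) :=
      card_union_of_disjoint (disjoint_sdiff.mono_right e4)
    have e6 := card_insert_le b E
    have e7 : 0 < #(insert b E) := card_pos.2 (insert_nonempty _ _)
    refine ⟨D ∪ insert b E, union_subset h1 (e4.trans sdiff_subset), by nlinarith, by omega,
      fun B hB g S hS h => ?_⟩
    have f1 := h4 B hB g (S ∩ D) inter_subset_right fun i hi => h i (mem_inter.1 hi).1
    have f2 : S \ D ⊂ insert b E := by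
      refine ⟨fun i hi => (mem_union.1 (hS (mem_sdiff.1 hi).1)).resolve_left (mem_sdiff.1 hi).2,
        fun hh => hB ?_⟩
      rw [eq_top_iff, ← e3, AddSubgroup.closure_le]
      rintro _ ⟨i, hi, rfl⟩
      simpa using sub_mem (h i (mem_sdiff.1 (hh (mem_insert_of_mem hi))).1)
        (h b (mem_sdiff.1 (hh (mem_insert_self _ _))).1)
    have f3 := card_lt_card f2
    have f4 := card_sdiff_add_card_inter S D
    omega

theorem fill (a : ι → K) {D P : Finset ι} (hP : Disjoint P D) {t N : ℕ} (H : AddSubgroup K)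
    {c : K} (hc : ∀ z ∈ H, c + z ∈ Sm a P t) (hD : 2 * N ≤ #D)
    (hw : ∀ B : AddSubgroup K, B ≠ ⊤ → ∀ g : K, ∀ S ⊆ D, (∀ i ∈ S, a i - g ∈ B) →
      #S + 2 * N ≤ #D) (k : ℕ) (hk : k ≤ N) :
    ∃ P' ⊆ D, ∃ t' ≤ k, #P' ≤ 2 * t' ∧ ∃ Y : Finset (K ⧸ H), min (k + 1) H.index ≤ #Y ∧
      ∀ y : K, (y : K ⧸ H) ∈ Y → y ∈ Sm a (P ∪ P') (t + t') := by
  classical
  induction k with
  | zero =>
    refine ⟨∅, by simp, 0, le_rfl, by simp, {(c : K ⧸ H)}, by simp, fun y hy => ?_⟩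
    simpa using hc _ (QuotientAddGroup.eq.1 (mem_singleton.1 hy).symm)
  | succ k ih =>
    obtain ⟨P', h1, t', h2, h3, Y, h4, h5⟩ := ih (by omega)
    rcases le_or_gt H.index #Y with h | h
    · exact ⟨P', h1, t', by omega, h3, Y, (min_le_right _ _).trans h, h5⟩
    have hc := card_sdiff_add_card_eq_card h1
    obtain ⟨b, hb⟩ : (D \ P').Nonempty := card_pos.1 (by omega)
    let B := (AddAction.stabilizer (K ⧸ H) Y).comap (QuotientAddGroup.mk' H)
    have hB : B ≠ ⊤ := fun e => h.not_ge (by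
      obtain ⟨y, hy⟩ : Y.Nonempty := card_pos.1 (by omega)
      rw [AddSubgroup.index_eq_card, Nat.card_eq_fintype_card]
      refine card_le_card fun z _ => ?_
      obtain ⟨w, hw⟩ := QuotientAddGroup.mk'_surjective H (z - y)
      have : QuotientAddGroup.mk' H w +ᵥ Y = Y := (e ▸ trivial : w ∈ B)
      rw [← this, hw]
      exact mem_vadd_finset.2 ⟨y, hy, by simp⟩)
    obtain ⟨i, hi, hiB⟩ : ∃ i ∈ D \ P', a i - a b ∉ B := by
      by_contra! hh
      have := hw B hB (a b) _ sdiff_subset hh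
      omega
    have hi' := mem_sdiff.1 hi
    have hb' := mem_sdiff.1 hb
    have n1 : i ∉ P ∪ P' := by simp [hi'.2, disjoint_right.1 hP hi'.1]
    have n2 : b ∉ P ∪ P' := by simp [hb'.2, disjoint_right.1 hP hb'.1]
    refine ⟨P' ∪ {i, b}, union_subset h1 (by simp [insert_subset_iff, hi'.1, hb'.1]), t' + 1,
      by omega, (card_union_le _ _).trans (by have := card_le_two (a := i) (b := b); omega),
      ((a i : K ⧸ H) +ᵥ Y) ∪ ((a b : K ⧸ H) +ᵥ Y), (min_le_left _ _).trans ?_, fun y hy => ?_⟩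
    · have : (a b : K ⧸ H) +ᵥ Y ⊂ ((a i : K ⧸ H) +ᵥ Y) ∪ ((a b : K ⧸ H) +ᵥ Y) := by
        refine ⟨subset_union_right, fun hh => hiB ?_⟩
        have e := eq_of_subset_of_card_le (subset_union_left.trans hh) (by simp)
        change ((a i - a b : K) : K ⧸ H) +ᵥ Y = Y
        rw [QuotientAddGroup.mk_sub, sub_eq_neg_add, add_vadd, e, neg_vadd_vadd]
      have := card_lt_card this
      rw [card_vadd_finset] at this
      omega
    · rw [← union_assoc, ← add_assoc]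
      rcases mem_union.1 hy with hy | hy <;> rw [← neg_vadd_mem_iff] at hy
      · simpa using Sm_pair n1 n2 (h5 (-a i + y) hy) (Or.inl rfl)
      · simpa using Sm_pair n1 n2 (h5 (-a b + y) hy) (Or.inr rfl)

/-- a well spread sequence is rich -/
theorem rich {R : ℕ} (hR0 : 0 < R) : ∃ C : ℕ, 0 < C ∧ ∀ (K : Type) [AddCommGroup K] [Fintype K]
    (ι : Type) [DecidableEq ι] (a : ι → K) (I : Finset ι) (μ σ l q : ℕ), (∀ z : K, μ • z = 0) →
    2 ≤ σ → 0 < l → Nat.card K ≤ σ ^ R → Nat.card K ≤ 2 ^ l → C * σ * l ^ 2 ≤ μ →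
    (∀ B : AddSubgroup K, σ ≤ B.index → ∀ g : K, ∀ S ⊆ I, (∀ i ∈ S, a i - g ∈ B) → #S ≤ q) →
    (∀ B : AddSubgroup K, B ≠ ⊤ → ∀ g : K, ∀ S ⊆ I, (∀ i ∈ S, a i - g ∈ B) →
      #S + 2 * σ * (l + 1) ≤ #I) →
    C * q + 4 * μ ≤ #I → ∃ P ⊆ I, ∃ t < μ, #P ≤ 2 * t ∧ ∀ y, y ∈ Sm a P t := by
  obtain ⟨C, hC0, hC⟩ := dense hR0
  refine ⟨4 * C, by positivity, ?_⟩
  intro K _ _ ι _ a I μ σ l q h0 hσ hl0 hR hl hμ hq hw hI
  classical
  have h1 : 4 * (σ * l) ≤ μ := by
    have : 1 * (σ * l) * 1 ≤ C * (σ * l) * l := by gcongr <;> omega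
    nlinarith
  have h2 : C * σ * l ^ 2 ≤ μ := by nlinarith
  have h3 : σ ≤ σ * l := Nat.le_mul_of_pos_right _ hl0
  have h4 : q ≤ C * q := Nat.le_mul_of_pos_left _ hC0
  obtain ⟨D, d1, d2, d3, d4⟩ := reserve a I hl (N := 2 * σ) (by nlinarith) hw _ le_rfl
  have d5 := card_sdiff_add_card_eq_card d1
  obtain ⟨P₁, a1, t₁, a2, c₁, H₁, a3, a4, a5⟩ := hC K ι a (I \ D) μ σ l q h0 hσ hl0 hR hl h2
    (fun B hB g S hS => hq B hB g S (hS.trans sdiff_subset)) (by nlinarith)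
  have a6 := card_sdiff_add_card_eq_card a1
  have hd := Nat.div_mul_le_self μ 4
  obtain ⟨P₂, b1, t₂, b2, c₂, H₂, b3, b4, b5⟩ := hC K ι a ((I \ D) \ P₁) μ σ l q h0 hσ hl0 hR hl h2
    (fun B hB g S hS => hq B hB g S (hS.trans (sdiff_subset.trans sdiff_subset))) (by nlinarith)
  have b6 := card_sdiff_add_card_eq_card b1
  obtain ⟨b, hb⟩ : (((I \ D) \ P₁) \ P₂).Nonempty := card_pos.1 (by nlinarith)
  have hH : (H₁ ⊓ H₂).index < σ := by
    by_contra! hh
    have := hq _ hh (a b) _ (sdiff_subset.trans (sdiff_subset.trans sdiff_subset)) fun i hi =>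
      ⟨a4 i (sdiff_subset hi) b (sdiff_subset hb), b4 i hi b hb⟩
    nlinarith
  obtain ⟨e₁, a7⟩ := shrink _ c₁ (inf_le_left : H₁ ⊓ H₂ ≤ H₁) a5
  obtain ⟨e₂, b7⟩ := shrink _ c₂ (inf_le_right : H₁ ⊓ H₂ ≤ H₂) b5
  have hP : P₁ ∪ P₂ ⊆ I \ D := union_subset a1 (b1.trans sdiff_subset)
  obtain ⟨P₃, c1, t₃, c2, c3, Y, c4, c5⟩ := fill a (sdiff_disjoint.mono_left hP) (H₁ ⊓ H₂)
    (t := t₁ + t₂) (c := e₁ + e₂) (fun z hz => by
      let z' : (H₁ ⊓ H₂ : AddSubgroup K) := ⟨z, hz⟩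
      have hN : (0 : ℝ) < Nat.card (H₁ ⊓ H₂ : AddSubgroup K) := by exact_mod_cast Nat.card_pos
      obtain ⟨y, hy⟩ : (pt (Sm a P₁ t₁) e₁ (H₁ ⊓ H₂) ∩
          (pt (Sm a P₂ t₂) e₂ (H₁ ⊓ H₂)).image (z' - ·)).Nonempty := by
        refine inter_nonempty_of_card_lt_card_add_card (subset_univ _) (subset_univ _) ?_
        rw [card_image_of_injective _ sub_right_injective, card_univ, ← Nat.card_eq_fintype_card]
        exact_mod_cast (by linarith : (Nat.card (H₁ ⊓ H₂ : AddSubgroup K) : ℝ) <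
          #(pt (Sm a P₁ t₁) e₁ (H₁ ⊓ H₂)) + #(pt (Sm a P₂ t₂) e₂ (H₁ ⊓ H₂)))
      obtain ⟨w, hw, rfl⟩ := mem_image.1 (mem_inter.1 hy).2
      convert Sm_add (disjoint_sdiff.mono_right b1) (mem_pt.1 (mem_inter.1 hy).1) (mem_pt.1 hw)
        using 1
      simp only [AddSubgroup.coe_sub, z']
      abel) d3 d4 σ le_rfl
  refine ⟨_, union_subset (hP.trans sdiff_subset) (c1.trans d1), _, by omega,
    (card_union_le _ _).trans (by have := card_union_le P₁ P₂; omega), fun y => c5 y ?_⟩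
  rw [min_eq_right (by omega), AddSubgroup.index_eq_card, Nat.card_eq_fintype_card] at c4
  rw [eq_univ_of_card Y (le_antisymm (card_le_univ _) c4)]
  exact mem_univ _

end Pool.Agent.Lib.MP_3184af_co.BR
end
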