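import Pool.Agent.Lib.MP_3184af_co.ExSeq

/-!
Functions of bounded degree on the subsets of a finite set.
-/

namespace Pool.Agent.Lib.MP_3184af_co.Ex

open Finset

section
variable {F : Type} [Field F] {ι : Type} [DecidableEq ι]

variable (F) in
/-- The monomial attached to a set. -/
def mon (B U : Finset ι) : F := if B ⊆ U then 1 else 0

variable (F ι) in
/-- Functions of degree at most `n`. -/
def Pol (n : ℤ) : Submodule F (Finset ι → F) :=
  Submodule.span F {f | ∃ B : Finset ι, (B.card : ℤ) ≤ n ∧ f = mon F B}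

theorem mon_mem {n : ℤ} {B : Finset ι} (h : (B.card : ℤ) ≤ n) : mon F B ∈ Pol F ι n :=
  Submodule.subset_span ⟨B, h, rfl⟩

theorem Pol.mono {m n : ℤ} (h : m ≤ n) {f : Finset ι → F} (hf : f ∈ Pol F ι m) : f ∈ Pol F ι n :=
  Submodule.span_mono (by rintro _ ⟨B, h1, h2⟩; exact ⟨B, h1.trans h, h2⟩) hf

theorem Pol.ind {n : ℤ} {P : (Finset ι → F) → Prop}
    (h1 : ∀ B : Finset ι, (B.card : ℤ) ≤ n → P (mon F B)) (h0 : P 0)
    (h2 : ∀ f g, P f → P g → P (f + g)) (h3 : ∀ (c : F) f, P f → P (c • f))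
    {f : Finset ι → F} (hf : f ∈ Pol F ι n) : P f := by
  induction hf using Submodule.span_induction with
  | mem x hx => obtain ⟨B, hB, rfl⟩ := hx; exact h1 B hB
  | zero => exact h0
  | add x y _ _ hx hy => exact h2 x y hx hy
  | smul c x _ hx => exact h3 c x hx

theorem Pol.neg {n : ℤ} (hn : n < 0) {f : Finset ι → F} (hf : f ∈ Pol F ι n) : f = 0 :=
  Pol.ind (P := fun f : Finset ι → F => f = 0) (fun B hB => by omega) rfl
    (fun f g hf hg => by rw [hf, hg, add_zero]) (fun c f hf => by rw [hf, smul_zero]) hf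

theorem Pol.const (c : F) : (fun _ => c) ∈ Pol F ι 0 := by
  have := (Pol F ι 0).smul_mem c (mon_mem (B := ∅) (by simp))
  convert this using 1
  funext U
  simp [mon]

theorem Pol.mul {m n : ℤ} {f g : Finset ι → F} (hf : f ∈ Pol F ι m) (hg : g ∈ Pol F ι n) :
    f * g ∈ Pol F ι (m + n) := by
  refine Pol.ind (P := fun f => f * g ∈ Pol F ι (m + n)) (fun B hB => ?_) (by simp)
    (fun f f' h h' => by rw [add_mul]; exact add_mem h h')
    (fun c f h => by rw [smul_mul_assoc]; exact Submodule.smul_mem _ c h) hf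
  refine Pol.ind (P := fun g => mon F B * g ∈ Pol F ι (m + n)) (fun C hC => ?_) (by simp)
    (fun f f' h h' => by rw [mul_add]; exact add_mem h h')
    (fun c f h => by rw [mul_smul_comm]; exact Submodule.smul_mem _ c h) hg
  have : mon F B * mon F C = mon F (B ∪ C) := by
    funext U
    by_cases h1 : B ⊆ U <;> by_cases h2 : C ⊆ U <;> simp [mon, union_subset_iff, h1, h2]
  rw [this]
  exact mon_mem (by have := card_union_le B C; omega)

theorem Pol.contract {n : ℤ} (R : Finset ι) {f : Finset ι → F} (hf : f ∈ Pol F ι n) :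
    (fun U => f (R ∪ U)) ∈ Pol F ι n := by
  refine Pol.ind (P := fun f => (fun U => f (R ∪ U)) ∈ Pol F ι n) (fun B hB => ?_)
    (zero_mem _) (fun f f' h h' => add_mem h h') (fun c f h => Submodule.smul_mem _ c h) hf
  have : (fun U => mon F B (R ∪ U)) = mon F (B \ R) := by
    funext U
    simp only [mon, ← sup_eq_union, sdiff_le_iff]
  rw [this]
  exact mon_mem (by have := card_le_card (sdiff_subset (s := B) (t := R)); omega)

theorem Pol.alt {n : ℤ} {f : Finset ι → F} (hf : f ∈ Pol F ι n) (V : Finset ι)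
    (hV : n < V.card) : ∑ C ∈ V.powerset, (-1 : F) ^ C.card * f C = 0 := by
  refine Pol.ind (P := fun f => ∑ C ∈ V.powerset, (-1 : F) ^ C.card * f C = 0) (fun B hB => ?_)
    (by simp) (fun f g h h' => by simp [mul_add, sum_add_distrib, h, h'])
    (fun c f h => by simp only [Pi.smul_apply, smul_eq_mul, mul_left_comm _ c, ← mul_sum, h,
      mul_zero]) hf
  obtain ⟨v, hv, hvB⟩ := exists_mem_notMem_of_card_lt_card (s := B) (t := V) (by omega)
  rw [← insert_erase hv, sum_powerset_insert (notMem_erase _ _), ← sum_add_distrib]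
  refine sum_eq_zero fun C hC => ?_
  have hvC : v ∉ C := fun h => notMem_erase _ _ (mem_powerset.1 hC h)
  simp only [mon, card_insert_of_notMem hvC, subset_insert_iff_of_notMem hvB, pow_succ]
  ring

theorem Pol.corner {n : ℤ} {f : Finset ι → F} (hf : f ∈ Pol F ι n) (L : Finset ι)
    {V C0 : Finset ι} (hV : n < V.card) (h0 : C0 ⊆ V)
    (h : ∀ C ⊆ V, C ≠ C0 → f (L ∪ C) = 0) : f (L ∪ C0) = 0 := by
  have := Pol.alt (Pol.contract L hf) V hV
  rw [sum_eq_single C0 (fun C hC hne => by rw [h C (mem_powerset.1 hC) hne, mul_zero])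
    (fun hn => absurd (mem_powerset.2 h0) hn)] at this
  exact (mul_eq_zero.1 this).resolve_left (pow_ne_zero _ (by simp))

theorem Pol.of_ring [Fintype ι] {R : Type} [CommRing R] [Algebra F R] (Λ : R →ₗ[F] F)
    (I : Ideal R) (j : ℕ) (hΛ : ∀ r ∈ I ^ (j + 1), Λ r = 0) (u : ι → R) (hu : ∀ x, u x - 1 ∈ I)
    (u0 : R) : (fun U : Finset ι => Λ (u0 * ∏ x ∈ U, u x)) ∈ Pol F ι j := by
  have : (fun U : Finset ι => Λ (u0 * ∏ x ∈ U, u x)) =
      ∑ B : Finset ι, Λ (u0 * ∏ x ∈ B, (u x - 1)) • mon F B := by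
    funext U
    have e1 : ∏ x ∈ U, u x = ∏ x ∈ U, (1 + (u x - 1)) := by simp
    rw [e1, prod_one_add, mul_sum, map_sum, Finset.sum_apply]
    simp only [Pi.smul_apply, mon, smul_eq_mul, mul_ite, mul_one, mul_zero]
    rw [← sum_filter]
    refine sum_congr ?_ fun _ _ => rfl
    ext B
    simp
  rw [this]
  refine sum_mem fun B _ => ?_
  by_cases hB : B.card ≤ j
  · exact Submodule.smul_mem _ _ (mon_mem (by omega))
  · have m1 : ∏ x ∈ B, (u x - 1) ∈ I ^ B.card := by
      rw [← prod_const]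
      exact Ideal.prod_mem_prod fun v _ => hu v
    rw [hΛ _ (Ideal.mul_mem_left _ _ (Ideal.pow_le_pow_right (by omega) m1)), zero_smul]
    exact zero_mem _

theorem Pol.of_seq [Fintype ι] (s : ℕ → F) (j : ℕ) (hs : (fwdDiff 1)^[j + 1] s = 0) (a : ι → ℕ)
    (a0 : ℕ) : (fun U : Finset ι => s (a0 + ∑ x ∈ U, a x)) ∈ Pol F ι j := by
  let Λ : (ℕ → F) → Polynomial F →ₗ[F] F := fun s => (Polynomial.basisMonomials F).constr F s
  have hΛ : ∀ s n, Λ s (Polynomial.X ^ n) = s n := fun s n => by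
    have := (Polynomial.basisMonomials F).constr_basis F s n
    simpa [Polynomial.monomial_one_right_eq_X_pow] using this
  have h1 : ∀ s r, Λ s (r * (Polynomial.X - 1)) = Λ (fwdDiff 1 s) r := by
    intro s r
    induction r using Polynomial.induction_on' with
    | add p q hp hq => rw [add_mul, map_add, map_add, hp, hq]
    | monomial n c =>
      rw [← Polynomial.smul_X_eq_monomial, smul_mul_assoc, map_smul, map_smul, mul_sub, mul_one,
        ← pow_succ, map_sub, hΛ, hΛ, hΛ, fwdDiff]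
  have h2 : ∀ n s r, Λ s (r * (Polynomial.X - 1) ^ n) = Λ ((fwdDiff 1)^[n] s) r := by
    intro n
    induction n with
    | zero => simp
    | succ n ih => intro s r; rw [pow_succ, ← mul_assoc, h1, ih, Function.iterate_succ_apply]
  have := Pol.of_ring (ι := ι) (Λ s) (Ideal.span {Polynomial.X - 1}) j (fun r hr => by
      rw [Ideal.span_singleton_pow, Ideal.mem_span_singleton'] at hr
      obtain ⟨r, rfl⟩ := hr
      rw [h2, hs]
      simp [Λ]) (fun x => Polynomial.X ^ a x) (fun x => by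
      rw [Ideal.mem_span_singleton]
      simpa using sub_dvd_pow_sub_pow (Polynomial.X : Polynomial F) 1 (a x)) (Polynomial.X ^ a0)
  simpa only [prod_pow_eq_pow_sum, ← pow_add, hΛ] using this

theorem slice_mon (B U : Finset ι) (j : ℕ) :
    ∑ C ∈ U.powersetCard (B.card + j), mon F B C = mon F B U * ((U.card - B.card).choose j : ℕ) := by
  by_cases h : B ⊆ U
  · simp only [mon, if_pos h, one_mul, sum_boole]
    rw [← card_sdiff_of_subset h, ← card_powersetCard]
    congr 1
    refine card_bij' (fun C _ => C \ B) (fun C _ => C ∪ B) ?_ ?_ ?_ ?_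
    · intro C hC
      simp only [mem_filter, mem_powersetCard] at hC ⊢
      exact ⟨sdiff_subset_sdiff hC.1.1 Subset.rfl, by rw [card_sdiff_of_subset hC.2]; omega⟩
    · intro C hC
      simp only [mem_filter, mem_powersetCard, subset_sdiff] at hC ⊢
      exact ⟨⟨union_subset hC.1.1 h, by rw [card_union_of_disjoint hC.1.2]; omega⟩,
        subset_union_right⟩
    · intro C hC
      exact sdiff_union_of_subset (mem_filter.1 hC).2
    · intro C hC
      exact union_sdiff_cancel_right (subset_sdiff.1 (mem_powersetCard.1 hC).1).2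
  · rw [mon, if_neg h, zero_mul]
    exact sum_eq_zero fun C hC => if_neg fun h' => h (h'.trans (mem_powersetCard.1 hC).1)

end

section
variable {p : ℕ} [hp : Fact p.Prime] {ι : Type} [DecidableEq ι] [Fintype ι]

theorem digit_mem (e : ℕ) (a : ι → ℕ) (a0 : ℕ) :
    (fun U : Finset ι => (((a0 + ∑ x ∈ U, a x) / p ^ e : ℕ) : ZMod p)) ∈
      Pol (ZMod p) ι (p ^ e : ℕ) := by
  refine Pol.of_seq (fun N => ((N / p ^ e : ℕ) : ZMod p)) (p ^ e) ?_ a a0
  rw [Function.iterate_succ_apply', dq]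
  funext N
  have hq : 0 < p ^ e := pow_pos hp.out.pos e
  simp [fwdDiff, Nat.add_div_right _ hq]

theorem class_mem (e τ : ℕ) :
    (fun U : Finset ι => if U.card % p ^ e = τ % p ^ e then (1 : ZMod p) else 0) ∈
      Pol (ZMod p) ι ((p ^ e : ℕ) - 1) := by
  have hq : 0 < p ^ e := pow_pos hp.out.pos e
  have := Pol.of_seq (ι := ι) (fun N => if N % p ^ e = τ % p ^ e then (1 : ZMod p) else 0)
    (p ^ e - 1) (by
      rw [Nat.sub_add_cancel hq, dq]
      funext N
      simp [fwdDiff]) (fun _ => 1) 0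
  rw [Nat.cast_sub hq] at this
  simpa using this

omit [DecidableEq ι] [Fintype ι] in
theorem lucas (e w j : ℕ) :
    (((j + w * p ^ e).choose j : ℕ) : ZMod p) = ((w + j / p ^ e).choose (j / p ^ e) : ℕ) := by
  have h := Choose.choose_modEq_choose_mul_prod_range_choose (n := j + w * p ^ e) (k := j)
    (p := p) e
  have h1 : ∏ i ∈ range e, ((j + w * p ^ e) / p ^ i % p).choose (j / p ^ i % p) = 1 := by
    refine prod_eq_one fun i hi => ?_
    obtain ⟨c, rfl⟩ : ∃ c, e = c + 1 + i := ⟨e - 1 - i, by have := mem_range.1 hi; omega⟩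
    rw [pow_add, ← mul_assoc, Nat.add_mul_div_right _ _ (pow_pos hp.out.pos i), pow_succ,
      ← mul_assoc, Nat.add_mul_mod_self_right, Nat.choose_self]
  rw [h1, Nat.add_mul_div_right _ _ (pow_pos hp.out.pos e), add_comm (j / p ^ e)] at h
  have := (ZMod.intCast_eq_intCast_iff _ _ _).2 h
  simpa using this

omit [Fintype ι] in
theorem kappa (W : Finset ι → ZMod p) (q : ℤ) (hq : 0 ≤ q) (hW : W ∈ Pol (ZMod p) ι q) (j : ℕ) :
    ∃ κ ∈ Pol (ZMod p) ι (j * q - q), ∀ U (w : ℕ), W U = w →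
      (((w + 1).ascFactorial j : ℕ) : ZMod p) = j.factorial + w * κ U := by
  induction j with
  | zero => exact ⟨0, zero_mem _, by simp⟩
  | succ j ih =>
    obtain ⟨κ, h1, h2⟩ := ih
    refine ⟨(fun _ => (j.factorial : ZMod p)) + κ * (W + fun _ => (1 + j : ZMod p)),
      add_mem (Pol.mono (by push_cast; nlinarith) (Pol.const _))
        (Pol.mono (by push_cast; linarith) (Pol.mul h1 (add_mem hW (Pol.mono hq (Pol.const _))))),
      fun U w hw => ?_⟩
    rw [Nat.ascFactorial_succ, Nat.factorial_succ]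
    push_cast
    rw [h2 U w hw]
    simp only [Pi.add_apply, Pi.mul_apply, hw]
    ring

/-- Division by the level. -/
theorem divide (e τ : ℕ) (hτ : τ < p * p ^ e) {f : Finset ι → ZMod p}
    (hf : f ∈ Pol (ZMod p) ι τ) :
    ∃ g ∈ Pol (ZMod p) ι (τ - (p ^ e : ℕ)), ∀ (U : Finset ι) (w : ℕ), U.card = τ + w * p ^ e →
      f U - ∑ C ∈ U.powersetCard τ, f C = w * g U := by
  have hq : 0 < p ^ e := pow_pos hp.out.pos e
  refine Pol.ind (P := fun f => ∃ g ∈ Pol (ZMod p) ι (τ - (p ^ e : ℕ)),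
    ∀ (U : Finset ι) (w : ℕ), U.card = τ + w * p ^ e →
      f U - ∑ C ∈ U.powersetCard τ, f C = w * g U) (fun B hB => ?_) ⟨0, zero_mem _, by simp⟩
    ?_ ?_ hf
  · obtain ⟨j, rfl⟩ : ∃ j, τ = B.card + j := Nat.exists_eq_add_of_le (by omega)
    have hW := sub_mem (digit_mem (p := p) (ι := ι) e (fun _ => 1) 0)
      (Pol.mono (Int.natCast_nonneg _) (Pol.const (((B.card + j) / p ^ e : ℕ) : ZMod p)))
    obtain ⟨κ, h1, h2⟩ := kappa _ _ (Int.natCast_nonneg _) hW (j / p ^ e)
    have hj : j / p ^ e < p := (Nat.div_lt_iff_lt_mul hq).2 (by omega)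
    have hne : (((j / p ^ e).factorial : ℕ) : ZMod p) ≠ 0 := by
      rw [Ne, ZMod.natCast_eq_zero_iff, hp.out.dvd_factorial]
      omega
    refine ⟨(-(((j / p ^ e).factorial : ℕ) : ZMod p)⁻¹) • (mon (ZMod p) B * κ),
      Submodule.smul_mem _ _ (Pol.mono ?_ (Pol.mul (mon_mem le_rfl) h1)), fun U w hU => ?_⟩
    · have : ((j / p ^ e * p ^ e : ℕ) : ℤ) ≤ j := by exact_mod_cast Nat.div_mul_le_self _ _
      rw [Nat.cast_mul] at this
      rw [Nat.cast_add]
      linarith
    · have a1 := h2 U w (by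
        simp only [Pi.sub_apply, sum_const, smul_eq_mul, mul_one, zero_add, hU,
          Nat.add_mul_div_right _ _ hq]
        push_cast
        ring)
      rw [Nat.ascFactorial_eq_factorial_mul_choose, Nat.cast_mul] at a1
      rw [slice_mon, hU, show B.card + j + w * p ^ e - B.card = j + w * p ^ e by omega, lucas]
      simp only [Pi.smul_apply, Pi.mul_apply, smul_eq_mul]
      field_simp
      linear_combination (-mon (ZMod p) B U) * a1
  · rintro f f' ⟨g, h1, h2⟩ ⟨g', h1', h2'⟩
    refine ⟨g + g', add_mem h1 h1', fun U w hU => ?_⟩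
    simp only [Pi.add_apply, sum_add_distrib]
    linear_combination h2 U w hU + h2' U w hU
  · rintro c f ⟨g, h1, h2⟩
    refine ⟨c • g, Submodule.smul_mem _ _ h1, fun U w hU => ?_⟩
    simp only [Pi.smul_apply, smul_eq_mul, ← mul_sum]
    linear_combination c * h2 U w hU

/-- The descent. -/
theorem core (e k ε : ℕ) (τ : ℕ) : ∀ (Ω : Finset ι) (Z : Finset ι → Prop)
    (f : Finset ι → ZMod p), Ω.card = τ + k * p ^ e → τ + ε ≤ k * p ^ e → τ + ε < p * p ^ e →
    (∀ U0, ¬ Z U0 → ∃ ψ ∈ Pol (ZMod p) ι ε, ψ U0 ≠ 0 ∧ ∀ U, Z U → ψ U = 0) →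
    f ∈ Pol (ZMod p) ι τ → f Ω ≠ 0 →
    (∀ U ⊆ Ω, ∀ w, U.card = τ + w * p ^ e → f U ≠ 0 → Z U) →
    ∃ U ⊆ Ω, U.card = τ ∧ Z U := by
  have hq : 0 < p ^ e := pow_pos hp.out.pos e
  induction τ using Nat.strong_induction_on with
  | _ τ ih =>
  intro Ω Z f hΩ h1 h2 hs hf hf0 hfZ
  by_contra hno
  obtain ⟨g, hg, hfg⟩ := divide e τ (by omega) hf
  have hd : ∀ U ⊆ Ω, ∀ w : ℕ, U.card = τ + w * p ^ e → f U = w * g U := by
    intro U hU w hw
    rw [← hfg U w hw, sum_eq_zero, sub_zero]
    intro C hC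
    rw [mem_powersetCard] at hC
    by_contra hne
    exact hno ⟨C, hC.1.trans hU, hC.2, hfZ C (hC.1.trans hU) 0 (by omega) hne⟩
  have hg0 : g Ω ≠ 0 := fun h => hf0 (by rw [hd Ω Subset.rfl k hΩ, h, mul_zero])
  have hτ : p ^ e ≤ τ := by
    by_contra hc
    exact hg0 (by rw [Pol.neg (by omega) hg]; rfl)
  have hgZ : ∀ U ⊆ Ω, ∀ w, U.card = τ + w * p ^ e → g U ≠ 0 → Z U := by
    intro U hU w hw hgU
    by_contra hZ
    obtain ⟨ψ, m1, m2, m3⟩ := hs U hZ
    have m4 := Pol.mul (Pol.mul hg m1) (class_mem (p := p) (ι := ι) e τ)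
    have key : ∀ U' ⊆ Ω, τ ≤ U'.card → (g * ψ * fun U : Finset ι =>
        if U.card % p ^ e = τ % p ^ e then (1 : ZMod p) else 0) U' ≠ 0 →
        ∃ v, U'.card = τ + v * (p * p ^ e) := by
      intro U' hU' hc hne
      simp only [Pi.mul_apply, mul_ite, mul_one, mul_zero, ne_eq, ite_eq_right_iff, mul_eq_zero,
        Classical.not_imp, not_or] at hne
      obtain ⟨w', hw'⟩ := (Nat.modEq_iff_dvd' hc).1 (Eq.symm hne.1)
      have hw2 : U'.card = τ + w' * p ^ e := by rw [mul_comm]; omega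
      have a1 : f U' = 0 := by
        by_contra h'
        exact hne.2.2 (m3 _ (hfZ U' hU' w' hw2 h'))
      rw [hd U' hU' w' hw2, mul_eq_zero, ZMod.natCast_eq_zero_iff] at a1
      obtain ⟨v, rfl⟩ := a1.resolve_right hne.2.1
      exact ⟨v, by rw [hw2]; ring⟩
    have hU0 : (g * ψ * fun U : Finset ι =>
        if U.card % p ^ e = τ % p ^ e then (1 : ZMod p) else 0) U ≠ 0 := by
      simp [hw, hgU, m2]
    obtain ⟨v, hv⟩ := key U hU (by omega) hU0
    refine hU0 ?_
    rcases Nat.eq_zero_or_pos v with rfl | hv0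
    · obtain ⟨V, hV, hVc⟩ := exists_subset_card_eq (s := Ω \ U) (n := τ + ε) (by
        rw [card_sdiff_of_subset hU]; omega)
      rw [subset_sdiff] at hV
      have := Pol.corner m4 U (V := V) (C0 := ∅) (by omega) (empty_subset _) fun C hC hne => by
        by_contra h'
        have c1 := card_union_of_disjoint (hV.2.symm.mono_right hC)
        have c2 := card_le_card hC
        have c3 := card_pos.2 (nonempty_iff_ne_empty.2 hne)
        obtain ⟨v', hv'⟩ := key _ (union_subset hU (hC.trans hV.1)) (by omega) h'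
        rcases Nat.eq_zero_or_pos v' with rfl | hv0
        · omega
        · have := Nat.mul_le_mul_right (p * p ^ e) hv0
          omega
      rwa [union_empty] at this
    · have b1 := Nat.mul_le_mul_right (p * p ^ e) hv0
      obtain ⟨V, hV, hVc⟩ := exists_subset_card_eq (s := U) (n := τ + ε) (by omega)
      have := Pol.corner m4 (U \ V) (V := V) (C0 := V) (by omega) Subset.rfl fun C hC hne => by
        by_contra h'
        have c1 := card_union_of_disjoint (sdiff_disjoint (s := V) (t := U)).symm.symm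
        have c0 := card_union_of_disjoint ((sdiff_disjoint (s := V) (t := U)).mono_right hC)
        have c2 := card_lt_card (hC.ssubset_of_ne hne)
        have c3 := card_sdiff_add_card_eq_card hV
        obtain ⟨v', hv'⟩ := key _ (union_subset (sdiff_subset.trans hU) (hC.trans (hV.trans hU)))
          (by omega) h'
        rcases Nat.lt_or_ge v' v with hlt | hge
        · have := Nat.mul_le_mul_right (p * p ^ e) (Nat.succ_le_of_lt hlt)
          rw [Nat.succ_mul] at this
          omega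
        · have := Nat.mul_le_mul_right (p * p ^ e) hge
          omega
      rwa [sdiff_union_of_subset hV] at this
  obtain ⟨R, hR, hRc⟩ := exists_subset_card_eq (s := Ω) (n := p ^ e) (by omega)
  have hcard : ∀ U ⊆ Ω \ R, (R ∪ U).card = p ^ e + U.card := fun U hU => by
    rw [card_union_of_disjoint (subset_sdiff.1 hU).2.symm, hRc]
  obtain ⟨U, hU, hUc, hUZ⟩ := ih (τ - p ^ e) (by omega) (Ω \ R) (fun U => Z (R ∪ U))
    (fun U => g (R ∪ U)) (by rw [card_sdiff_of_subset hR]; omega) (by omega) (by omega)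
    (fun U0 h0 => by
      obtain ⟨ψ, m1, m2, m3⟩ := hs _ h0
      exact ⟨_, Pol.contract R m1, m2, fun U hU => m3 _ hU⟩)
    (by rw [Nat.cast_sub hτ]; exact Pol.contract R hg) (by rwa [union_sdiff_of_subset hR])
    (fun U hU w hw => hgZ _ (union_subset hR (hU.trans sdiff_subset)) w (by
      rw [hcard U hU]; omega))
  exact hno ⟨_, union_subset hR (hU.trans sdiff_subset), by rw [hcard U hU]; omega, hUZ⟩

end

end Pool.Agent.Lib.MP_3184af_co.Ex
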