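import Pool.Agent.Lib.MP_3184af_co.Main
import Pool.Agent.Lib.MP_3184af_co.ExPol

/-!
The descent applied to the subsets with a prescribed sum in a finite abelian `p`-group.
-/

namespace Pool.Agent.Lib.MP_3184af_co.Ex

open Finset

variable {p : ℕ} {G : Type} [AddCommGroup G] [Finite G]

theorem exists_hom (hp : p.Prime) {e : ℕ} (hG : ∀ x : G, p ^ e • x = 0) {c : G} (hc : c ≠ 0) :
    ∃ f ≤ e, ∃ χ : G →+ ZMod (p ^ f), χ c ≠ 0 := by
  classical
  obtain ⟨ι, _, N, hN, ⟨e0⟩⟩ := AddCommGroup.equiv_directSum_zmod_of_finite' G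
  let φ : G ≃+ ∀ i, ZMod (N i) := e0.trans (DirectSum.addEquivProd _)
  obtain ⟨i, hi⟩ : ∃ i, φ c i ≠ 0 := by
    by_contra h
    push Not at h
    exact hc (φ.injective (by rw [map_zero]; exact funext h))
  have h1 := congrFun (congrArg φ (hG (φ.symm (Pi.single i 1)))) i
  have h2 : ((p ^ e : ℕ) : ZMod (N i)) = 0 := by simpa using h1
  obtain ⟨f, hf, h3⟩ := (Nat.dvd_prime_pow hp).1 ((ZMod.natCast_eq_zero_iff _ _).1 h2)
  refine ⟨f, hf, ?_⟩
  rw [← h3]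
  exact ⟨(Pi.evalAddMonoidHom _ i).comp φ.toAddMonoidHom, hi⟩

theorem sep [hp : Fact p.Prime] {e : ℕ} (hG : ∀ x : G, p ^ e • x = 0) {ι : Type} [DecidableEq ι]
    [Fintype ι] (a : ι → G) (σ : G) (U0 : Finset ι) (h0 : ¬ ∑ i ∈ U0, a i = σ) :
    ∃ ψ ∈ Pol (ZMod p) ι (p ^ e / p : ℕ), ψ U0 ≠ 0 ∧ ∀ U, ∑ i ∈ U, a i = σ → ψ U = 0 := by
  obtain ⟨f, hf, χ, hχ⟩ := exists_hom hp.out hG (c := -σ + ∑ i ∈ U0, a i)
    fun h => h0 (neg_add_eq_zero.1 h).symm
  have : NeZero (p ^ f) := ⟨(pow_pos hp.out.pos f).ne'⟩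
  have key : ∀ U : Finset ι, p ^ f ∣ (χ (-σ)).val + ∑ i ∈ U, (χ (a i)).val ↔
      χ (-σ + ∑ i ∈ U, a i) = 0 := fun U => by
    rw [← ZMod.natCast_eq_zero_iff]
    simp
  have h1 := mt (key U0).1 hχ
  obtain ⟨b, m, hm, hb⟩ := Nat.exists_eq_pow_mul_and_not_dvd
    (n := (χ (-σ)).val + ∑ i ∈ U0, (χ (a i)).val) (fun h => h1 (h ▸ dvd_zero _)) p hp.out.ne_one
  have hbf : b + 1 ≤ f := by
    by_contra hc
    exact h1 (hb ▸ (pow_dvd_pow p (by omega)).mul_right m)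
  refine ⟨_, Pol.mono ?_ (digit_mem b (fun i => (χ (a i)).val) (χ (-σ)).val), ?_, fun U hU => ?_⟩
  · refine Int.ofNat_le.2 ((Nat.le_div_iff_mul_le hp.out.pos).2 ?_)
    rw [← pow_succ]
    exact Nat.pow_le_pow_right hp.out.pos (by omega)
  · rw [hb, Nat.mul_div_cancel_left _ (pow_pos hp.out.pos b)]
    rwa [Ne, ZMod.natCast_eq_zero_iff]
  · obtain ⟨v, hv⟩ := (pow_dvd_pow p hbf).trans ((key U).2 (by simp [hU]))
    rw [hv, pow_succ, mul_assoc, Nat.mul_div_cancel_left _ (pow_pos hp.out.pos b)]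
    simp

theorem ind_mem [hp : Fact p.Prime] [DecidableEq G] {e t : ℕ} (hG : ∀ x : G, p ^ e • x = 0)
    (hd : ∀ f : Fin (t + 1) → G, ∃ I : Finset (Fin (t + 1)), I.Nonempty ∧ ∑ i ∈ I, f i = 0)
    {ι : Type} [DecidableEq ι] [Fintype ι] (a : ι → G) (σ : G) :
    (fun U : Finset ι => if ∑ i ∈ U, a i = σ then (1 : ZMod p) else 0) ∈ Pol (ZMod p) ι t := by
  obtain ⟨s, hs, hJ⟩ := cap_sub (p := p) (⊤ : AddSubgroup G) e hG (t + 1) (dav_fin hd) (ι := Unit)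
    (fun _ => 0) ∅ fun I hI hne => absurd (subset_empty.1 hI) hne.ne_empty
  have := Pol.of_ring (ι := ι) ((Finsupp.lapply σ).comp
    (AddMonoidAlgebra.coeffLinearEquiv (R := ZMod p) (S := ZMod p) (M := G)).toLinearMap)
    (J p ((⊤ : AddSubgroup G) : Set G)) t
    (fun r hr => by
      have : r = 0 := hJ (Ideal.pow_le_pow_right (by rw [card_empty] at hs; omega) hr)
      rw [this, map_zero]) (fun i => X p (a i)) (fun i => mem_J trivial) 1
  convert this using 2 with U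
  have e1 : ∏ i ∈ U, X p (a i) = X p (∑ i ∈ U, a i) := by
    induction U using Finset.induction_on with
    | empty => rfl
    | insert i U hi ih => rw [prod_insert hi, sum_insert hi, X_add, ih]
  rw [one_mul, e1]
  simp [X, Finsupp.single_apply]

theorem exact (hp : p.Prime) {e c k d : ℕ} (hG : ∀ x : G, p ^ e • x = 0)
    (hd : IsLeast
      {ℓ : ℕ | ∀ f : Fin ℓ → G, ∃ I : Finset (Fin ℓ), I.Nonempty ∧ ∑ i ∈ I, f i = 0} d)
    (hk : 0 < k) (h1 : d + p ^ e / p ≤ k * p ^ (c + e) + 1)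
    (h2 : d + p ^ e / p ≤ p * p ^ (c + e)) :
    IsLeast {ℓ : ℕ | ∀ f : Fin ℓ → G, ∃ I : Finset (Fin ℓ),
        I.card = k * p ^ (c + e) ∧ ∑ i ∈ I, f i = 0} (d + k * p ^ (c + e) - 1) := by
  classical
  have : Fact p.Prime := ⟨hp⟩
  have hn : 0 < k * p ^ (c + e) := Nat.mul_pos hk (pow_pos hp.pos _)
  obtain ⟨t, rfl⟩ : ∃ t, d = t + 1 := Nat.exists_eq_succ_of_ne_zero (by
    rintro rfl
    obtain ⟨I, ⟨i, -⟩, -⟩ := hd.1 fun _ => 0
    exact i.elim0)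
  refine ⟨fun f => ?_, fun ℓ h => ?_⟩
  · obtain ⟨U, -, h3, h4⟩ := core (c + e) k (p ^ e / p) t univ
      (fun U => ∑ i ∈ U, f i = ∑ i, f i) _ (by rw [card_univ, Fintype.card_fin]; omega) (by omega)
      (by omega) (sep hG f _) (ind_mem hG hd.1 f (∑ i, f i)) (by simp)
      fun U _ _ _ h => by simpa using h
    refine ⟨Uᶜ, by rw [card_compl, Fintype.card_fin]; omega, ?_⟩
    have := sum_compl_add_sum U f
    rw [h4] at this
    exact add_eq_right.1 this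
  · have := lower (d := t) hn (fun h' => by have := hd.2 h'; omega) h
    omega

end Pool.Agent.Lib.MP_3184af_co.Ex
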