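import Mathlib

/-!
Finite differences of sequences with values in `ZMod p`.
-/

namespace Pool.Agent.Lib.MP_3184af_co.Ex

open Finset

section
variable {R : Type} [CommRing R]

theorem iter_zero (f : ℕ → R) (n y : ℕ) (h : ∀ k ≤ n, f (y + k) = 0) :
    (fwdDiff 1)^[n] f y = 0 := by
  rw [fwdDiff_iter_eq_sum_shift]
  refine sum_eq_zero fun k hk => ?_
  rw [smul_eq_mul, mul_one, h k (Nat.lt_succ_iff.1 (mem_range.1 hk)), smul_zero]

theorem iter_head (f : ℕ → R) (n y : ℕ) (h : ∀ k, 0 < k → k ≤ n → f (y + k) = 0)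
    (h0 : (fwdDiff 1)^[n] f y = 0) : f y = 0 := by
  rw [fwdDiff_iter_eq_sum_shift, sum_eq_single 0] at h0
  · rcases neg_one_pow_eq_or ℤ n with e | e <;> simpa [e] using h0
  · intro k hk hk0
    rw [smul_eq_mul, mul_one, h k (Nat.pos_of_ne_zero hk0) (Nat.lt_succ_iff.1 (mem_range.1 hk)),
      smul_zero]
  · simp

theorem iter_scale (g : ℕ → R) (s q n x : ℕ) :
    (fwdDiff 1)^[n] (fun x => g (s + x * q)) x = (fwdDiff q)^[n] g (s + x * q) := by
  rw [fwdDiff_iter_eq_sum_shift, fwdDiff_iter_eq_sum_shift]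
  refine sum_congr rfl fun k _ => ?_
  congr 2
  simp only [smul_eq_mul]
  ring

/-- A polynomial sequence whose sums over `j` consecutive places vanish is zero. -/
theorem per {F : Type} [Field F] (γ : ℕ → F) (e j N : ℕ) (hj : (j : F) ≠ 0)
    (h1 : ∀ x, x + e ≤ N → (fwdDiff 1)^[e] γ x = 0)
    (h2 : ∀ y, y + j ≤ N + 1 → ∑ x ∈ range j, γ (y + x) = 0) (h3 : e + j ≤ N + 2) :
    ∀ x ≤ N, γ x = 0 := by
  have hA : ∀ n i, i ≤ N → e ≤ i + n → (fwdDiff 1)^[i] γ 0 = 0 := by
    intro n
    induction n with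
    | zero =>
      intro i hi he
      obtain ⟨m, rfl⟩ : ∃ m, i = m + e := ⟨i - e, by omega⟩
      rw [Function.iterate_add_apply]
      exact iter_zero _ _ _ fun k hk => h1 _ (by omega)
    | succ n ih =>
      intro i hi he
      by_cases hc : e ≤ i + n
      · exact ih i hi hc
      have a1 : ∑ x ∈ range j, (fwdDiff 1)^[i] γ x = 0 := by
        simp only [fwdDiff_iter_eq_sum_shift]
        rw [sum_comm]
        refine sum_eq_zero fun k hk => ?_
        have := h2 k (by have := mem_range.1 hk; omega)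
        rw [← smul_sum]
        simp only [smul_eq_mul, mul_one, add_comm _ k]
        rw [this, smul_zero]
      have a2 : ∀ x ∈ range j, (fwdDiff 1)^[i] γ x = (fwdDiff 1)^[i] γ 0 := by
        intro x hx
        have := shift_eq_sum_fwdDiff_iter 1 ((fwdDiff 1)^[i] γ) x 0
        rw [zero_add, smul_eq_mul, mul_one, sum_eq_single 0] at this
        · simpa using this
        · intro l hl hl0
          rw [← Function.iterate_add_apply, ih (l + i)
            (by have := mem_range.1 hl; have := mem_range.1 hx; omega) (by omega), smul_zero]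
        · simp
      rw [sum_congr rfl a2, sum_const, card_range, nsmul_eq_mul] at a1
      exact (mul_eq_zero.1 a1).resolve_left hj
  intro x hx
  have := shift_eq_sum_fwdDiff_iter 1 γ x 0
  rw [zero_add, smul_eq_mul, mul_one] at this
  rw [this]
  refine sum_eq_zero fun l hl => ?_
  rw [hA e l (by have := mem_range.1 hl; omega) (by omega), smul_zero]

end

theorem dq {p : ℕ} [hp : Fact p.Prime] (e : ℕ) :
    (fwdDiff 1 : (ℕ → ZMod p) → ℕ → ZMod p)^[p ^ e] = fwdDiff (p ^ e) := by
  funext g s
  have hq : 0 < p ^ e := pow_pos hp.out.pos e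
  rw [fwdDiff_iter_eq_sum_shift, sum_range_succ, sum_eq_single 0]
  · have : (-1 : ZMod p) ^ p ^ e = -1 := neg_one_pow_char_pow (ZMod p) p e
    simp [fwdDiff, this]
    ring
  · intro k hk hk0
    have : ((p ^ e).choose k : ZMod p) = 0 := (ZMod.natCast_eq_zero_iff _ _).2
      (hp.out.dvd_choose_pow hk0 (mem_range.1 hk).ne)
    simp [this]
  · intro h
    exact absurd (mem_range.2 hq) h

/-- The main lemma on sequences. -/
theorem seq {p : ℕ} [hp : Fact p.Prime] (e : ℕ) (g : ℕ → ZMod p) (β t k N : ℕ) (hβ : β ≤ t)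
    (ht : t ≤ k * p ^ e) (hN : N + 2 * β = k * p ^ e + t)
    (hcl : ∀ s, g s ≠ 0 → p ^ e ∣ s + β)
    (hnil : ∀ s n, t + p ^ e ≤ n + β → s + n ≤ N → (fwdDiff 1)^[n] g s = 0)
    (hZ : β + p ^ e ≤ t → ∃ j, ¬ p ∣ j ∧ j * p ^ e + t ≤ (k + 2) * p ^ e ∧
      ∀ s, s + j * p ^ e ≤ N → g (s + j * p ^ e) = g s)
    {s : ℕ} (hs : s ≤ N) (hg : g s ≠ 0) : g (k * p ^ e - β) ≠ 0 := by
  have hq : 0 < p ^ e := pow_pos hp.out.pos e
  have hd := dq (p := p) e
  generalize p ^ e = q at *
  obtain ⟨m, r, hr, hm⟩ : ∃ m r, r < q ∧ t = β + m * q + r :=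
    ⟨(t - β) / q, (t - β) % q, Nat.mod_lt _ hq, by
      have := Nat.div_add_mod' (t - β) q; omega⟩
  obtain ⟨u, s0, hs0, hu⟩ : ∃ u s0, s0 < q ∧ s0 + β = u * q :=
    ⟨(β + (q - 1)) / q, q - 1 - (β + (q - 1)) % q, by omega, by
      have := Nat.div_add_mod' (β + (q - 1)) q
      have := Nat.mod_lt (β + (q - 1)) hq
      omega⟩
  obtain ⟨w, rfl⟩ : ∃ w, k = u + w := Nat.exists_eq_add_of_le (by
    by_contra hc
    have := Nat.mul_le_mul_right q (show k + 1 ≤ u by omega)
    rw [add_mul] at this
    omega)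
  have hN' : N = s0 + w * q + m * q + r := by rw [add_mul] at hN; omega
  have hc : ∀ n s, (fwdDiff q)^[n] g s ≠ 0 → q ∣ s + β := by
    intro n s h
    by_contra hc
    refine h ?_
    rw [fwdDiff_iter_eq_sum_shift]
    refine sum_eq_zero fun l _ => ?_
    have : g (s + l • q) = 0 := by
      by_contra h'
      have := hcl _ h'
      rw [smul_eq_mul, add_right_comm] at this
      exact hc ((Nat.dvd_add_left (dvd_mul_left q l)).1 this)
    rw [this, smul_zero]
  have h1 : ∀ x, x + 1 ≤ w → (fwdDiff q)^[m + 1] g (s0 + x * q) = 0 := by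
    intro x hx
    refine iter_head _ r _ (fun l hl hl' => ?_) ?_
    · by_contra h'
      have a := hc _ _ h'
      have e1 : s0 + x * q + l + β = l + (u + x) * q := by rw [add_mul]; omega
      rw [e1] at a
      have := Nat.le_of_dvd hl ((Nat.dvd_add_left (dvd_mul_left q _)).1 a)
      omega
    · rw [← hd, ← Function.iterate_mul, ← Function.iterate_add_apply]
      have := Nat.mul_le_mul_right q hx
      refine hnil _ _ ?_ ?_
      · rw [mul_add, mul_comm q m]; omega
      · rw [mul_add, mul_comm q m]; rw [add_mul] at this; omega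
  have h2 : ∀ x, x + 1 ≤ w + m → g (s0 + (x + 1) * q) = g (s0 + x * q) := by
    intro x hx
    have key : fwdDiff q g (s0 + x * q) = 0 := by
      rcases Nat.eq_zero_or_pos m with rfl | hm0
      · simpa using h1 x (by omega)
      obtain ⟨j, hj, hj1, hj2⟩ := hZ (by
        have := Nat.mul_le_mul_right q hm0
        omega)
      have hjw : j ≤ w + 1 := by
        by_contra hc
        have a1 := Nat.mul_le_mul_right q (show w + 2 ≤ j by omega)
        have a2 := Nat.mul_le_mul_right q hm0
        simp only [add_mul] at a1 hj1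
        omega
      refine per (fun x => fwdDiff q g (s0 + x * q)) m j (w + m - 1)
        (by rwa [Ne, ZMod.natCast_eq_zero_iff]) (fun x hx => ?_) (fun y hy => ?_) (by omega) x
        (by omega)
      · rw [iter_scale, ← Function.iterate_succ_apply]
        exact h1 x (by omega)
      · have a1 := sum_range_sub (fun x => g (s0 + (y + x) * q)) j
        have a2 := hj2 (s0 + y * q) (by
          have := Nat.mul_le_mul_right q (show y + j ≤ w + m by omega)
          simp only [add_mul] at this
          omega)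
        simp only [add_zero] at a1
        rw [show s0 + (y + j) * q = s0 + y * q + j * q by ring, a2, sub_self] at a1
        rw [← a1]
        refine sum_congr rfl fun x _ => ?_
        simp only [fwdDiff]
        congr 2
        ring
    simp only [fwdDiff] at key
    rw [add_mul, one_mul, ← add_assoc]
    exact sub_eq_zero.1 key
  have h3 : ∀ x, x ≤ w + m → g (s0 + x * q) = g s0 := by
    intro x
    induction x with
    | zero => simp
    | succ x ih => exact fun hx => (h2 x hx).trans (ih (by omega))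
  obtain ⟨v, hv⟩ := hcl s hg
  obtain ⟨x, rfl⟩ : ∃ x, v = u + x := Nat.exists_eq_add_of_le (by
    by_contra hc
    have := Nat.mul_le_mul_right q (show v + 1 ≤ u by omega)
    rw [add_mul, mul_comm v] at this
    omega)
  have e1 : s = s0 + x * q := by rw [mul_add, mul_comm q u, mul_comm q x] at hv; omega
  have e2 : (u + w) * q - β = s0 + w * q := by rw [add_mul]; omega
  have e3 : x ≤ w + m := by
    by_contra hc
    have := Nat.mul_le_mul_right q (show w + m + 1 ≤ x by omega)
    simp only [add_mul] at this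
    omega
  rw [e2, h3 w (by omega), ← h3 x e3, ← e1]
  exact hg

end Pool.Agent.Lib.MP_3184af_co.Ex
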