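import Mathlib

/-!
The simplicial order, compressions and the vertex-isoperimetric inequality in boxes.
-/

set_option autoImplicit false

namespace Pool.Agent.Lib.MP_3184af_co.Iso

open Finset

noncomputable section
open Classical

variable {R : ℕ}

/-- points -/
abbrev P (R : ℕ) : Type := Fin R → ℕ

/-- unit vectors -/
abbrev e (i : Fin R) : P R := Pi.single i 1

/-- the box with sides `n` -/
def box (n : P R) : Finset (P R) := Fintype.piFinset fun i => range (n i)

lemma mem_box {n x : P R} : x ∈ box n ↔ ∀ i, x i < n i := by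
  simp [box]

lemma card_box (n : P R) : (box n).card = ∏ i, n i := by
  simp [box]

lemma box_down {n x z : P R} (hx : x ∈ box n) (h : z ≤ x) : z ∈ box n :=
  mem_box.2 fun i => (h i).trans_lt (mem_box.1 hx i)

/-- level -/
def lev (x : P R) : ℕ := ∑ i, x i

lemma lev_add (x y : P R) : lev (x + y) = lev x + lev y := by
  simp [lev, sum_add_distrib]

lemma lev_e (i : Fin R) : lev (e i) = 1 := by
  simp [lev]

lemma eq_of_le_lev {x y : P R} (h : x ≤ y) (hl : lev y ≤ lev x) : x = y := by
  funext i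
  by_contra hne
  have : lev x < lev y := sum_lt_sum (fun j _ => h j) ⟨i, mem_univ _, lt_of_le_of_ne (h i) hne⟩
  omega

lemma lev_mono {x y : P R} (h : x ≤ y) : lev x ≤ lev y := sum_le_sum fun j _ => h j

/-- sort key of the simplicial order -/
def key (x : P R) : ℕ ×ₗ (Lex (P R))ᵒᵈ := toLex (lev x, OrderDual.toDual (toLex x))

/-- the simplicial order -/
def lt (x y : P R) : Prop := key x < key y

lemma lt_iff {x y : P R} :
    lt x y ↔ lev x < lev y ∨ (lev x = lev y ∧ ∃ j, (∀ t < j, x t = y t) ∧ y j < x j) := by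
  unfold lt key
  rw [Prod.Lex.toLex_lt_toLex]
  refine or_congr Iff.rfl (and_congr Iff.rfl ?_)
  change toLex y < toLex x ↔ _
  constructor
  · rintro ⟨j, h1, h2⟩
    exact ⟨j, fun t ht => (h1 t ht).symm, h2⟩
  · rintro ⟨j, h1, h2⟩
    exact ⟨j, fun t ht => (h1 t ht).symm, h2⟩

lemma lt_tri (x y : P R) : lt x y ∨ x = y ∨ lt y x := by
  rcases lt_trichotomy (key x) (key y) with h | h | h
  · exact Or.inl h
  · exact Or.inr (Or.inl (congrArg
      (fun k : ℕ ×ₗ (Lex (P R))ᵒᵈ => ofLex (OrderDual.ofDual (ofLex k).2)) h))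
  · exact Or.inr (Or.inr h)

lemma lt_irr (x : P R) : ¬ lt x x := lt_irrefl _

lemma lt_tr {x y z : P R} (h : lt x y) (h' : lt y z) : lt x z := lt_trans h h'

lemma lt_of_lev {x y : P R} (h : lev x < lev y) : lt x y := lt_iff.2 (Or.inl h)

lemma lev_le_of_lt {x y : P R} (h : lt x y) : lev x ≤ lev y := by
  rcases lt_iff.1 h with h | h <;> omega

lemma lt_add {x y : P R} (ρ : P R) : lt (x + ρ) (y + ρ) ↔ lt x y := by
  simp only [lt_iff, lev_add, Pi.add_apply, add_lt_add_iff_right, add_left_inj]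

/-- position in the box -/
def pos (n y : P R) : ℕ := ((box n).filter fun z => lt z y).card

lemma pos_lt_pos {n x y : P R} (hx : x ∈ box n) (h : lt x y) : pos n x < pos n y := by
  refine card_lt_card ⟨fun z hz => ?_, fun h' => ?_⟩
  · rw [mem_filter] at hz ⊢
    exact ⟨hz.1, lt_tr hz.2 h⟩
  · exact lt_irr x (mem_filter.1 (h' (mem_filter.2 ⟨hx, h⟩))).2

/-- initial segment of size `k` -/
def ini (n : P R) (k : ℕ) : Finset (P R) := (box n).filter fun y => pos n y < k

lemma mem_ini {n y : P R} {k : ℕ} : y ∈ ini n k ↔ y ∈ box n ∧ pos n y < k := mem_filter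

lemma pos_inj (n : P R) : Set.InjOn (pos n) (box n) := by
  intro x hx y hy h
  rcases lt_tri x y with h' | h' | h'
  · exact absurd h (pos_lt_pos hx h').ne
  · exact h'
  · exact absurd h (pos_lt_pos hy h').ne'

lemma pos_lt_card {n y : P R} (hy : y ∈ box n) : pos n y < (box n).card :=
  card_lt_card ⟨filter_subset _ _, fun h => lt_irr y (mem_filter.1 (h hy)).2⟩

lemma card_ini_le (n : P R) (k : ℕ) : (ini n k).card ≤ k := by
  conv_rhs => rw [← card_range k]
  exact card_le_card_of_injOn (pos n) (fun y hy => by simpa using (mem_ini.1 hy).2)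
    ((pos_inj n).mono fun y hy => (mem_ini.1 hy).1)

lemma card_ini {n : P R} {k : ℕ} (hk : k ≤ (box n).card) : (ini n k).card = k := by
  have h1 : (box n).image (pos n) = range (box n).card := by
    refine eq_of_subset_of_card_le (fun t ht => ?_) ?_
    · obtain ⟨y, hy, rfl⟩ := mem_image.1 ht
      exact mem_range.2 (pos_lt_card hy)
    · rw [card_range, card_image_of_injOn (pos_inj n)]
  refine le_antisymm (card_ini_le n k) ?_
  conv_lhs => rw [← card_range k]
  refine le_trans (card_le_card fun t ht => ?_) (card_image_le (f := pos n))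
  have ht' := mem_range.1 ht
  obtain ⟨y, hy, rfl⟩ := mem_image.1 (h1 ▸ mem_range.2 (ht'.trans_le hk) :
    t ∈ (box n).image (pos n))
  exact mem_image_of_mem _ (mem_ini.2 ⟨hy, ht'⟩)

/-- closed downwards in the simplicial order -/
def Init (n : P R) (Z : Finset (P R)) : Prop :=
  Z ⊆ box n ∧ ∀ y ∈ Z, ∀ z ∈ box n, lt z y → z ∈ Z

lemma init_ini (n : P R) (k : ℕ) : Init n (ini n k) :=
  ⟨filter_subset _ _, fun _ hy _ hz h =>
    mem_ini.2 ⟨hz, (pos_lt_pos hz h).trans (mem_ini.1 hy).2⟩⟩

lemma Init.sub {n : P R} {Z : Finset (P R)} (h : Init n Z) {g : ℕ} (hg : Z.card ≤ g) :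
    Z ⊆ ini n g := fun y hy =>
  mem_ini.2 ⟨h.1 hy, lt_of_lt_of_le (card_lt_card
    ⟨fun z hz => h.2 y hy z (mem_filter.1 hz).1 (mem_filter.1 hz).2,
      fun h' => lt_irr y (mem_filter.1 (h' hy)).2⟩) hg⟩

lemma Init.eq {n : P R} {Z : Finset (P R)} (h : Init n Z) : ini n Z.card = Z :=
  (eq_of_subset_of_card_le (h.sub le_rfl) (card_ini_le _ _)).symm

lemma ini_mono (n : P R) {k k' : ℕ} (h : k ≤ k') : ini n k ⊆ ini n k' := fun _ hy =>
  mem_ini.2 ⟨(mem_ini.1 hy).1, (mem_ini.1 hy).2.trans_le h⟩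

/-- down-sets of the box -/
def Down (n : P R) (X : Finset (P R)) : Prop := X ⊆ box n ∧ ∀ x ∈ X, ∀ z, z ≤ x → z ∈ X

lemma Init.down {n : P R} {Z : Finset (P R)} (h : Init n Z) : Down n Z := by
  refine ⟨h.1, fun x hx z hz => ?_⟩
  rcases (lev_mono hz).lt_or_eq with h1 | h1
  · exact h.2 x hx z (box_down (h.1 hx) hz) (lt_of_lev h1)
  · rwa [eq_of_le_lev hz h1.ge]

/-- upper neighbourhood -/
def nb (n : P R) (X : Finset (P R)) : Finset (P R) :=
  (box n).filter fun y => ∃ x ∈ X, y = x ∨ ∃ i, y = x + e i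

lemma mem_nb {n y : P R} {X : Finset (P R)} :
    y ∈ nb n X ↔ y ∈ box n ∧ ∃ x ∈ X, y = x ∨ ∃ i, y = x + e i := mem_filter

lemma nb_mono (n : P R) {X Y : Finset (P R)} (h : X ⊆ Y) : nb n X ⊆ nb n Y := fun y hy => by
  obtain ⟨h1, x, hx, h2⟩ := mem_nb.1 hy
  exact mem_nb.2 ⟨h1, x, h hx, h2⟩

lemma sub_nb {n : P R} {X : Finset (P R)} (h : X ⊆ box n) : X ⊆ nb n X := fun y hy =>
  mem_nb.2 ⟨h hy, y, hy, Or.inl rfl⟩

lemma sub_add_e {y : P R} {i : Fin R} (h : 0 < y i) : y - e i + e i = y := by
  funext t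
  by_cases ht : t = i
  · subst ht
    simp only [Pi.add_apply, Pi.sub_apply, Pi.single_eq_same]
    omega
  · simp [ht]

lemma Init.nb {n : P R} {Z : Finset (P R)} (h : Init n Z) : Init n (nb n Z) := by
  refine ⟨filter_subset _ _, fun y hy z hz hlt => ?_⟩
  obtain ⟨-, x, hx, rfl | ⟨i, rfl⟩⟩ := mem_nb.1 hy
  · exact sub_nb h.1 (h.2 _ hx z hz hlt)
  by_cases h0 : z = 0
  · exact sub_nb h.1 (h.down.2 x hx z (h0 ▸ zero_le))
  obtain ⟨i', hi', hm⟩ := exists_max_image (univ.filter fun t => 0 < z t) id (by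
    obtain ⟨t, ht⟩ := Function.ne_iff.1 h0
    exact ⟨t, mem_filter.2 ⟨mem_univ _, Nat.pos_of_ne_zero ht⟩⟩)
  have hp : 0 < z i' := (mem_filter.1 hi').2
  have hm' : ∀ t, i' < t → z t = 0 := fun t ht => by
    by_contra h1
    exact absurd (hm t (mem_filter.2 ⟨mem_univ _, Nat.pos_of_ne_zero h1⟩)) (not_le.2 ht)
  have hz' := sub_add_e hp
  set w := z - e i' with hw
  have hwb : w ∈ box n := box_down hz tsub_le_self
  have hl := congrArg lev hz'
  rw [lev_add, lev_e] at hl
  suffices H : w = x ∨ lt w x by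
    refine mem_nb.2 ⟨hz, w, ?_, Or.inr ⟨i', hz'.symm⟩⟩
    rcases H with H | H
    · rwa [H]
    · exact h.2 x hx w hwb H
  rcases lt_iff.1 hlt with h1 | ⟨h1, j, h2, h3⟩
  · rw [lev_add, lev_e] at h1
    exact Or.inr (lt_of_lev (by omega))
  rw [lev_add, lev_e] at h1
  have hji : j ≤ i' := hm j (mem_filter.2 ⟨mem_univ _, by omega⟩)
  have hwt : ∀ t, t ≠ i' → w t = z t := fun t ht => by simp [hw, ht]
  have hwi : w i' + 1 = z i' := by
    simp only [hw, Pi.sub_apply, Pi.single_eq_same]
    omega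
  have hxt : ∀ t, t ≠ i → (x + e i) t = x t := fun t ht => by simp [ht]
  have hxi : (x + e i) i = x i + 1 := by simp
  rcases lt_or_ge i j with hij | hij
  · refine Or.inr (lt_iff.2 (Or.inr ⟨by omega, i, fun t ht => ?_, ?_⟩))
    · rw [hwt t (by omega), h2 t (by omega), hxt t ht.ne]
    · rw [hwt i (by omega), h2 i hij, hxi]
      omega
  have hpre : ∀ t < j, w t = x t := fun t ht => by
    rw [hwt t (by omega), h2 t ht, hxt t (by omega)]
  have hxj : x j ≤ (x + e i) j := Nat.le_add_right _ _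
  by_cases hj : x j < w j
  · exact Or.inr (lt_iff.2 (Or.inr ⟨by omega, j, hpre, hj⟩))
  have hji' : j = i' := by
    by_contra hne
    rw [hwt j hne] at hj
    omega
  refine Or.inl (eq_of_le_lev (fun t => ?_) (by omega))
  rcases lt_trichotomy t j with ht | ht | ht
  · exact (hpre t ht).le
  · rw [ht]
    exact not_lt.1 hj
  · rw [hwt t (by omega), hm' t (by omega)]
    exact Nat.zero_le _

/-- the isoperimetric function -/
def phi (n : P R) (k : ℕ) : ℕ := (nb n (ini n k)).card

lemma phi_mono (n : P R) {k k' : ℕ} (h : k ≤ k') : phi n k ≤ phi n k' :=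
  card_le_card (nb_mono n (ini_mono n h))

/-- restriction to the coordinates in `J` -/
def res (J : Finset (Fin R)) (x : P R) : P R := fun i => if i ∈ J then x i else 0

/-- the sides of a face -/
def side (J : Finset (Fin R)) (n : P R) : P R := fun i => if i ∈ J then n i else 1

lemma res_add_res (J : Finset (Fin R)) (x : P R) : res J x + res Jᶜ x = x := by
  funext i
  by_cases h : i ∈ J <;> simp [res, h]

lemma res_mem {n x : P R} (J : Finset (Fin R)) (h : x ∈ box n) : res J x ∈ box (side J n) :=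
  mem_box.2 fun i => by
    have := mem_box.1 h i
    by_cases h : i ∈ J <;> simp [res, side, h, this]

lemma zero_of_side {n y : P R} {J : Finset (Fin R)} (h : y ∈ box (side J n)) {i : Fin R}
    (hi : i ∉ J) : y i = 0 := by
  simpa [side, hi] using mem_box.1 h i

lemma add_mem_box {n y ρ : P R} {J : Finset (Fin R)} (hy : y ∈ box (side J n))
    (hρ : ρ ∈ box (side Jᶜ n)) : y + ρ ∈ box n :=
  mem_box.2 fun i => by
    have h1 := mem_box.1 hy i
    have h2 := mem_box.1 hρ i
    by_cases h : i ∈ J <;> simp [side, h] at h1 h2 ⊢ <;> omega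

lemma res_add_left {n y ρ : P R} {J : Finset (Fin R)} (hy : y ∈ box (side J n))
    (hρ : ρ ∈ box (side Jᶜ n)) : res J (y + ρ) = y := by
  funext i
  by_cases h : i ∈ J
  · simp [res, h, zero_of_side hρ (i := i) (by simpa using h)]
  · simp [res, h, zero_of_side hy h]

lemma res_add_right {n y ρ : P R} {J : Finset (Fin R)} (hy : y ∈ box (side J n))
    (hρ : ρ ∈ box (side Jᶜ n)) : res Jᶜ (y + ρ) = ρ := by
  funext i
  by_cases h : i ∈ J
  · simp [res, h, zero_of_side hρ (i := i) (by simpa using h)]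
  · simp [res, h, zero_of_side hy h]

lemma res_mono (J : Finset (Fin R)) {x z : P R} (h : z ≤ x) : res J z ≤ res J x := fun i => by
  by_cases hi : i ∈ J <;> simp [res, hi, h i]

/-- fibre over `ρ` -/
def fib (n : P R) (J : Finset (Fin R)) (X : Finset (P R)) (ρ : P R) : Finset (P R) :=
  (box (side J n)).filter fun y => y + ρ ∈ X

lemma mem_fib {n : P R} {J : Finset (Fin R)} {X : Finset (P R)} {ρ y : P R} :
    y ∈ fib n J X ρ ↔ y ∈ box (side J n) ∧ y + ρ ∈ X := mem_filter

lemma sum_fib {n : P R} (J : Finset (Fin R)) {X : Finset (P R)} (hX : X ⊆ box n) (F : P R → ℕ) :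
    ∑ x ∈ X, F x = ∑ ρ ∈ box (side Jᶜ n), ∑ y ∈ fib n J X ρ, F (y + ρ) := by
  rw [← sum_fiberwise_of_maps_to (s := X) (t := box (side Jᶜ n)) (g := res Jᶜ)
    fun x hx => res_mem _ (hX hx)]
  refine sum_congr rfl fun ρ hρ => ?_
  refine sum_bij' (fun x _ => res J x) (fun y _ => y + ρ) ?_ ?_ ?_ ?_ ?_
  · intro x hx
    rw [mem_filter] at hx
    refine mem_fib.2 ⟨res_mem _ (hX hx.1), ?_⟩
    rw [← hx.2, res_add_res]
    exact hx.1
  · intro y hy
    exact mem_filter.2 ⟨(mem_fib.1 hy).2, res_add_right (mem_fib.1 hy).1 hρ⟩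
  · intro x hx
    rw [← (mem_filter.1 hx).2, res_add_res]
  · intro y hy
    exact res_add_left (mem_fib.1 hy).1 hρ
  · intro x hx
    rw [← (mem_filter.1 hx).2, res_add_res]

lemma card_fib {n : P R} (J : Finset (Fin R)) {X : Finset (P R)} (hX : X ⊆ box n) :
    X.card = ∑ ρ ∈ box (side Jᶜ n), (fib n J X ρ).card := by
  simpa using sum_fib J hX fun _ => 1

/-- the set with prescribed initial fibres -/
def bld (n : P R) (J : Finset (Fin R)) (f : P R → ℕ) : Finset (P R) :=
  (box n).filter fun x => pos (side J n) (res J x) < f (res Jᶜ x)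

lemma fib_bld {n : P R} {J : Finset (Fin R)} (f : P R → ℕ) {ρ : P R}
    (hρ : ρ ∈ box (side Jᶜ n)) : fib n J (bld n J f) ρ = ini (side J n) (f ρ) := by
  ext y
  rw [mem_fib, mem_ini, bld, mem_filter]
  refine and_congr_right fun hy => ?_
  rw [res_add_left hy hρ, res_add_right hy hρ]
  exact and_iff_right (add_mem_box hy hρ)

lemma bld_down {n : P R} {J : Finset (Fin R)} {f : P R → ℕ}
    (hf : ∀ ρ ∈ box (side Jᶜ n), ∀ ρ', ρ' ≤ ρ → f ρ ≤ f ρ') : Down n (bld n J f) := by
  refine ⟨filter_subset _ _, fun x hx z hz => ?_⟩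
  rw [bld, mem_filter] at hx ⊢
  refine ⟨box_down hx.1 hz, ?_⟩
  have h1 := (init_ini (side J n) (f (res Jᶜ x))).down.2 _ (mem_ini.2 ⟨res_mem J hx.1, hx.2⟩) _
    (res_mono J hz)
  exact (mem_ini.1 h1).2.trans_le (hf _ (res_mem _ hx.1) _ (res_mono _ hz))

lemma bld_card {n : P R} {J : Finset (Fin R)} {f : P R → ℕ}
    (hf : ∀ ρ ∈ box (side Jᶜ n), f ρ ≤ (box (side J n)).card) :
    (bld n J f).card = ∑ ρ ∈ box (side Jᶜ n), f ρ := by
  rw [card_fib (n := n) (X := bld n J f) J (filter_subset _ _)]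
  exact sum_congr rfl fun ρ hρ => by rw [fib_bld f hρ, card_ini (hf ρ hρ)]

lemma bld_nb {n : P R} {J : Finset (Fin R)} {f g : P R → ℕ}
    (h1 : ∀ ρ ∈ box (side Jᶜ n), phi (side J n) (f ρ) ≤ g ρ)
    (h2 : ∀ ρ j, ρ + e j ∈ box (side Jᶜ n) → f ρ ≤ g (ρ + e j)) :
    (nb n (bld n J f)).card ≤ ∑ ρ ∈ box (side Jᶜ n), g ρ := by
  rw [card_fib (n := n) (X := nb n (bld n J f)) J (filter_subset _ _)]
  refine sum_le_sum fun ρ hρ => le_trans (card_le_card fun y hy => ?_) (card_ini_le (side J n) _)
  obtain ⟨hy1, hy2⟩ := mem_fib.1 hy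
  have h3 := (init_ini (side J n) (f ρ)).nb.sub (h1 ρ hρ)
  obtain ⟨-, x, hx, h4⟩ := mem_nb.1 hy2
  rw [bld, mem_filter] at hx
  have a1 := res_add_left hy1 hρ
  have a2 := res_add_right hy1 hρ
  rcases h4 with h4 | ⟨i, h4⟩
  · rw [← h4, a1, a2] at hx
    exact h3 (sub_nb (filter_subset _ _) (mem_ini.2 ⟨hy1, hx.2⟩))
  rw [h4] at a1 a2
  by_cases hi : i ∈ J
  · have b1 : y = res J x + e i := by
      rw [← a1]
      funext t
      by_cases ht : t = i
      · subst ht
        simp [res, hi]
      · simp [res, ht]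
    have b2 : ρ = res Jᶜ x := by
      rw [← a2]
      funext t
      by_cases ht : t = i
      · subst ht
        simp [res, hi]
      · simp [res, ht]
    exact h3 (mem_nb.2 ⟨hy1, _, mem_ini.2 ⟨res_mem J hx.1, b2 ▸ hx.2⟩, Or.inr ⟨i, b1⟩⟩)
  · have b1 : y = res J x := by
      rw [← a1]
      funext t
      by_cases ht : t = i
      · subst ht
        simp [res, hi]
      · simp [res, ht]
    have b2 : ρ = res Jᶜ x + e i := by
      rw [← a2]
      funext t
      by_cases ht : t = i
      · subst ht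
        simp [res, hi]
      · simp [res, ht]
    refine mem_ini.2 ⟨hy1, ?_⟩
    rw [b1, b2]
    exact hx.2.trans_le (h2 _ i (b2 ▸ hρ))

lemma fib_down {n : P R} {J : Finset (Fin R)} {X : Finset (P R)} (hX : Down n X) (ρ : P R) :
    Down (side J n) (fib n J X ρ) :=
  ⟨filter_subset _ _, fun _ hy _ hz => mem_fib.2 ⟨box_down (mem_fib.1 hy).1 hz,
    hX.2 _ (mem_fib.1 hy).2 _ (add_le_add_left hz ρ)⟩⟩

/-- compression along the faces of direction `J`, from the box `n` to the box `n'` -/
lemma compress {n n' : P R} {J : Finset (Fin R)} (h1 : side Jᶜ n' = side Jᶜ n)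
    (h2 : (box (side J n)).card = (box (side J n')).card)
    (H : ∀ Y, Down (side J n) Y → phi (side J n') Y.card ≤ (nb (side J n) Y).card)
    {X : Finset (P R)} (hX : Down n X) :
    Down n' (bld n' J fun ρ => (fib n J X ρ).card) ∧
      (bld n' J fun ρ => (fib n J X ρ).card).card = X.card ∧
      (nb n' (bld n' J fun ρ => (fib n J X ρ).card)).card ≤ (nb n X).card := by
  refine ⟨bld_down fun ρ _ ρ' hρ => card_le_card fun y hy => mem_fib.2 ⟨(mem_fib.1 hy).1,
    hX.2 _ (mem_fib.1 hy).2 _ (add_le_add_right hρ y)⟩, ?_, ?_⟩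
  · rw [bld_card fun ρ _ => h2 ▸ card_le_card (filter_subset _ _), h1, card_fib J hX.1]
  · rw [card_fib (n := n) (X := nb n X) J (filter_subset _ _), ← h1]
    refine bld_nb (fun ρ hρ => (H _ (fib_down hX ρ)).trans (card_le_card fun y hy => ?_))
      fun ρ j hρ => card_le_card fun y hy => ?_
    · obtain ⟨a1, x, hx, a2⟩ := mem_nb.1 hy
      refine mem_fib.2 ⟨a1, mem_nb.2 ⟨add_mem_box a1 (h1 ▸ hρ), _, (mem_fib.1 hx).2, ?_⟩⟩
      rcases a2 with rfl | ⟨i, rfl⟩
      · exact Or.inl rfl
      · exact Or.inr ⟨i, add_right_comm _ _ _⟩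
    · obtain ⟨a1, a2⟩ := mem_fib.1 hy
      exact mem_fib.2 ⟨a1, mem_nb.2 ⟨add_mem_box a1 (h1 ▸ hρ), _, a2,
        Or.inr ⟨j, (add_assoc _ _ _).symm⟩⟩⟩

lemma sum_ini {α : Type} [DecidableEq α] {I Y : Finset α} (hc : I.card = Y.card) (g : α → ℕ)
    (h : ∀ a ∈ I, ∀ b ∈ Y, b ∉ I → g a < g b) :
    ∑ a ∈ I, g a ≤ ∑ b ∈ Y, g b ∧ (I ≠ Y → ∑ a ∈ I, g a < ∑ b ∈ Y, g b) := by
  by_cases hne : I = Y
  · simp [hne]
  suffices H : ∑ a ∈ I, g a < ∑ b ∈ Y, g b from ⟨H.le, fun _ => H⟩
  have h1 : (I \ Y).Nonempty := by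
    rw [sdiff_nonempty]
    exact fun h' => hne (eq_of_subset_of_card_le h' hc.ge)
  obtain ⟨a, ha, hm⟩ := exists_max_image (I \ Y) g h1
  have h2 : (I \ Y).card = (Y \ I).card := card_sdiff_comm hc
  have h3 : ∑ x ∈ I \ Y, g x ≤ _ := sum_le_card_nsmul _ g _ hm
  have h4 : _ ≤ ∑ x ∈ Y \ I, g x := card_nsmul_le_sum (Y \ I) g (g a + 1) fun b hb =>
    h a (mem_sdiff.1 ha).1 b (mem_sdiff.1 hb).1 (mem_sdiff.1 hb).2
  have h5 := h1.card_pos
  rw [← sum_inter_add_sum_sdiff I Y, ← sum_inter_add_sum_sdiff Y I, inter_comm Y I]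
  simp only [smul_eq_mul] at h3 h4
  rw [← h2, mul_add] at h4
  omega

/-- compressed along the faces of direction `J` -/
def Cmp (n : P R) (J : Finset (Fin R)) (X : Finset (P R)) : Prop :=
  ∀ x ∈ X, ∀ z ∈ box n, (∀ i ∉ J, z i = x i) → lt z x → z ∈ X

lemma pot_lt {n : P R} {J : Finset (Fin R)} {X : Finset (P R)} (hX : X ⊆ box n)
    (h : ¬ Cmp n J X) :
    ∑ x ∈ bld n J fun ρ => (fib n J X ρ).card, pos n x < ∑ x ∈ X, pos n x := by
  rw [sum_fib (n := n) (X := bld n J _) J (filter_subset _ _), sum_fib J hX]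
  have key : ∀ ρ ∈ box (side Jᶜ n), _ := fun ρ hρ =>
    sum_ini (I := ini (side J n) (fib n J X ρ).card) (Y := fib n J X ρ)
      (card_ini (card_le_card (filter_subset _ _))) (fun y => pos n (y + ρ)) fun a ha b hb hb' => by
        refine pos_lt_pos (add_mem_box (mem_ini.1 ha).1 hρ) ((lt_add ρ).2 ?_)
        rcases lt_tri a b with h1 | h1 | h1
        · exact h1
        · exact absurd (h1 ▸ ha) hb'
        · exact absurd ((init_ini _ _).2 a ha b (mem_fib.1 hb).1 h1) hb'
  unfold Cmp at h
  push Not at h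
  obtain ⟨x, hx, z, hz, h1, h2, h3⟩ := h
  have hρ := res_mem Jᶜ (hX hx)
  have h4 : res Jᶜ z = res Jᶜ x := by
    funext i
    by_cases hi : i ∈ J <;> simp [res, hi, h1]
  refine sum_lt_sum (fun ρ hρ => ?_) ⟨_, hρ, ?_⟩
  · rw [fib_bld _ hρ]
    exact (key ρ hρ).1
  · rw [fib_bld _ hρ]
    refine (key _ hρ).2 fun h5 => h3 ?_
    have h6 := init_ini (side J n) (fib n J X (res Jᶜ x)).card
    rw [h5] at h6
    have h7 := h6.2 (res J x) (mem_fib.2 ⟨res_mem J (hX hx), by rwa [res_add_res]⟩) (res J z)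
      (res_mem J hz) ((lt_add (res Jᶜ x)).1 (by rwa [res_add_res, ← h4, res_add_res]))
    have h8 := (mem_fib.1 h7).2
    rwa [← h4, res_add_res] at h8

/-- triangular numbers -/
def tri (k : ℕ) : ℕ := ∑ t ∈ range k, (k - 1 - t)

lemma tri_eq {k b : ℕ} (h : k ≤ b + 1) : ∑ t ∈ range b, (k - 1 - t) = tri k := by
  have h1 : ∑ t ∈ range (b + 1), (k - 1 - t) = tri k :=
    (sum_subset (range_subset_range.2 h) fun t _ ht => by
      rw [mem_range] at ht
      omega).symm
  rw [sum_range_succ] at h1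
  omega

lemma tri_succ (k : ℕ) : tri (k + 1) = tri k + k := by
  rw [tri, sum_range_succ', tri]
  exact congrArg₂ _ (sum_congr rfl fun t _ => by omega) (by omega)

lemma num {x y : ℕ → ℕ} {a b k : ℕ} (h1 : ∀ t < b, x t ≤ y t) (h2 : ∀ t < b, y t ≤ a)
    (h3 : ∀ t, t + 1 < b → x t ≤ y (t + 1)) (h4 : ∀ t < b, 0 < x t → x t < a → x t < y t)
    (h5 : ∀ t, t + 1 < b → x (t + 1) ≤ x t)
    (hk : ∑ t ∈ range b, y t = ∑ t ∈ range b, x t + k) (ha : k < a) (hb : k < b) :
    ∑ t ∈ range b, x t ≤ tri k ∨ a * b ≤ ∑ t ∈ range b, y t + tri k := by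
  set E : ℕ → ℕ := fun v => ∑ t ∈ range v, (y t - x t) with hE
  have hs : ∀ v, E (v + 1) = E v + (y v - x v) := fun v => sum_range_succ _ _
  have hEb : E b = k := by
    have : ∑ t ∈ range b, y t = ∑ t ∈ range b, x t + E b := by
      rw [← sum_add_distrib]
      exact sum_congr rfl fun t ht => by have := h1 t (mem_range.1 ht); omega
    omega
  have hA : ∀ u v, u ≤ v → v < b → x u + E (u + 1) ≤ x v + E (v + 1) := by
    intro u v huv
    induction v, huv using Nat.le_induction with
    | base => exact fun _ => le_rfl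
    | succ v _ ih =>
      intro hv
      have := ih (by omega)
      have := hs (v + 1)
      have := h3 v hv
      have := h1 _ hv
      omega
  have hM : ∀ u v, u ≤ v → v < b → x v ≤ x u := by
    intro u v huv
    induction v, huv using Nat.le_induction with
    | base => exact fun _ => le_rfl
    | succ v _ ih => exact fun hv => (h5 v hv).trans (ih (by omega))
  have hB : ∀ u v, u ≤ v → v ≤ b → (∀ t, u ≤ t → t < v → 0 < x t ∧ x t < a) →
      E u + v ≤ E v + u := by
    intro u v huv
    induction v, huv using Nat.le_induction with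
    | base => exact fun _ _ => le_rfl
    | succ v huv ih =>
      intro hv h
      have := ih (by omega) fun t h1 h2 => h t h1 (by omega)
      have := hs v
      have := h4 v hv (h v huv (by omega)).1 (h v huv (by omega)).2
      omega
  obtain ⟨b, rfl⟩ : ∃ b', b = b' + 1 := ⟨b - 1, by omega⟩
  have h0 := (h1 0 (by omega)).trans (h2 0 (by omega))
  have hE0 : E 0 = 0 := rfl
  rcases h0.lt_or_eq with h0 | h0
  · rcases Nat.eq_zero_or_pos (x b) with hz | hz
    · left
      rw [← tri_eq (b := b + 1) (by omega)]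
      refine sum_le_sum fun t ht => ?_
      rw [mem_range] at ht
      rcases Nat.eq_zero_or_pos (x t) with ht0 | ht0
      · omega
      have a1 := hA t b (by omega) (by omega)
      have a2 := hB 0 (t + 1) (by omega) (by omega) fun u _ hu =>
        ⟨ht0.trans_le (hM u t (by omega) ht), (hM 0 u (by omega) (by omega)).trans_lt h0⟩
      omega
    · have a2 := hB 0 (b + 1) (by omega) le_rfl fun u _ hu =>
        ⟨hz.trans_le (hM u b (by omega) (by omega)), (hM 0 u (by omega) hu).trans_lt h0⟩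
      omega
  · rcases Nat.eq_zero_or_pos (x b) with hz | hz
    · have := hA 0 b (by omega) (by omega)
      omega
    · right
      rw [← tri_eq (b := b + 1) (by omega), ← sum_range_reflect (fun t => k - 1 - t),
        ← sum_add_distrib, mul_comm]
      refine le_trans (by simp) (card_nsmul_le_sum (range (b + 1)) _ a fun t ht => ?_)
      rw [mem_range] at ht
      rcases (h2 t ht).lt_or_eq with hy | hy
      · obtain ⟨u, rfl⟩ : ∃ u, t = u + 1 := ⟨t - 1, by
          rcases t with _ | t
          · have := h1 0 ht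
            omega
          · rfl⟩
        have a1 := hA 0 u (by omega) (by omega)
        have a2 := hB (u + 1) (b + 1) (by omega) le_rfl fun v hv hv' =>
          ⟨hz.trans_le (hM v b (by omega) (by omega)),
            (hM _ v hv hv').trans_lt ((h1 _ ht).trans_lt hy)⟩
        have a3 := h3 u ht
        omega
      · omega

/-- points of a plane face -/
def pt (i l : Fin R) (s t : ℕ) : P R := Pi.single i s + Pi.single l t

section two
variable {i l : Fin R} (hil : i < l)
include hil

lemma pt_i (s t : ℕ) : pt i l s t i = s := by simp [pt, hil.ne]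

lemma pt_l (s t : ℕ) : pt i l s t l = t := by simp [pt, hil.ne']

omit hil in
lemma pt_o (s t : ℕ) {j : Fin R} (h1 : j ≠ i) (h2 : j ≠ l) : pt i l s t j = 0 := by
  simp [pt, h1, h2]

omit hil in
lemma lev_pt (s t : ℕ) : lev (pt i l s t) = s + t := by
  rw [pt, lev_add]
  simp [lev]

lemma pt_mem {n : P R} {s t : ℕ} : pt i l s t ∈ box (side {i, l} n) ↔ s < n i ∧ t < n l := by
  rw [mem_box]
  constructor
  · intro h
    have h1 := h i
    have h2 := h l
    rw [pt_i hil] at h1
    rw [pt_l hil] at h2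
    simpa [side] using And.intro h1 h2
  · rintro ⟨h1, h2⟩ j
    by_cases hj : j = i
    · subst hj
      simpa [side, pt_i hil] using h1
    by_cases hj' : j = l
    · subst hj'
      simpa [side, pt_l hil] using h2
    simp [side, hj, hj', pt_o s t hj hj']

lemma eq_pt {n p : P R} (h : p ∈ box (side {i, l} n)) : p = pt i l (p i) (p l) := by
  funext j
  by_cases hj : j = i
  · rw [hj, pt_i hil]
  by_cases hj' : j = l
  · rw [hj', pt_l hil]
  rw [pt_o _ _ hj hj', zero_of_side h (by simp [hj, hj'])]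

omit hil in
lemma pt_le {s t s' t' : ℕ} (h1 : s ≤ s') (h2 : t ≤ t') : pt i l s t ≤ pt i l s' t' :=
  add_le_add (Pi.single_le_single.2 h1) (Pi.single_le_single.2 h2)

omit hil in
lemma pt_succ_i (s t : ℕ) : pt i l (s + 1) t = pt i l s t + e i := by
  simp only [pt, Pi.single_add]
  abel

omit hil in
lemma pt_succ_l (s t : ℕ) : pt i l s (t + 1) = pt i l s t + e l := by
  simp only [pt, Pi.single_add]
  abel

lemma card2 {n : P R} {Y : Finset (P R)} (hY : Y ⊆ box (side {i, l} n)) :
    Y.card = ∑ t ∈ range (n l), ((range (n i)).filter fun s => pt i l s t ∈ Y).card := by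
  have hm : ∀ p ∈ Y, p i < n i ∧ p l < n l := fun p hp =>
    (pt_mem hil).1 (eq_pt hil (hY hp) ▸ hY hp)
  rw [card_eq_sum_card_fiberwise (f := fun p => p l) (t := range (n l))
    fun p hp => mem_coe.2 (mem_range.2 (hm p hp).2)]
  refine sum_congr rfl fun t _ => card_bij' (fun p _ => p i) (fun s _ => pt i l s t) ?_ ?_ ?_ ?_
  · intro p hp
    rw [mem_filter] at hp
    refine mem_filter.2 ⟨mem_range.2 (hm p hp.1).1, ?_⟩
    rw [← hp.2, ← eq_pt hil (hY hp.1)]
    exact hp.1
  · intro s hs
    exact mem_filter.2 ⟨(mem_filter.1 hs).2, pt_l hil _ _⟩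
  · intro p hp
    rw [mem_filter] at hp
    rw [← hp.2, ← eq_pt hil (hY hp.1)]
  · intro s _
    exact pt_i hil _ _

lemma card_box2 (n : P R) : (box (side {i, l} n)).card = n i * n l := by
  rw [card2 hil Subset.rfl, mul_comm]
  refine (sum_congr (g := fun _ => n i) rfl fun t ht => ?_).trans (by simp)
  rw [filter_true_of_mem fun s hs => (pt_mem (n := n) hil).2 ⟨mem_range.1 hs, mem_range.1 ht⟩,
    card_range]

lemma col_inj {n : P R} {I : Finset (P R)} (hI : Init (side {i, l} n) I) :
    Set.InjOn (fun p : P R => p i) (nb (side {i, l} n) I \ I : Finset (P R)) := by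
  have key : ∀ p ∈ nb (side {i, l} n) I \ I, ∀ q ∈ nb (side {i, l} n) I \ I, p i = q i →
      ¬ p l < q l := by
    intro p hp q hq h1 h2
    rw [mem_sdiff] at hp hq
    obtain ⟨a1, x, hx, a2⟩ := mem_nb.1 hq.1
    have hpb := (mem_nb.1 hp.1).1
    rcases a2 with rfl | ⟨j, rfl⟩
    · exact hq.2 hx
    have b1 := congrArg lev (eq_pt hil a1)
    have b2 := congrArg lev (eq_pt hil hpb)
    rw [lev_pt] at b1 b2
    rw [lev_add, lev_e] at b1
    apply hp.2
    rcases lt_or_ge (lev p) (lev x) with h3 | h3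
    · exact hI.2 x hx p hpb (lt_of_lev h3)
    by_cases hj : j = i
    · subst hj
      refine hI.2 x hx p hpb (lt_iff.2 (Or.inr ⟨by omega, j, fun t ht => ?_, ?_⟩))
      · rw [zero_of_side hpb (by simp [ht.ne, (ht.trans hil).ne]),
          zero_of_side (hI.1 hx) (by simp [ht.ne, (ht.trans hil).ne])]
      · simp only [Pi.add_apply, Pi.single_eq_same] at h1
        omega
    · refine hI.down.2 x hx p ?_
      rw [eq_pt hil hpb, eq_pt hil (hI.1 hx)]
      have c1 : (x + e j) i = x i := by simp [Ne.symm hj]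
      have c2 : (x + e j) l ≤ x l + 1 := by
        by_cases hl : l = j
        · subst hl
          simp
        · simp [hl]
      exact pt_le (by omega) (by omega)
  intro p hp q hq h
  have h1 := key p hp q hq h
  have h2 := key q hq p hp h.symm
  rw [eq_pt hil (mem_nb.1 (mem_sdiff.1 hp).1).1, eq_pt hil (mem_nb.1 (mem_sdiff.1 hq).1).1]
  exact congrArg₂ _ h (by omega)

lemma two_dim {n n' : P R} (h1 : n' i * n' l = n i * n l) (h2 : n' i ≤ n' l) (h3 : n' i ≤ n i)
    (h4 : n' i ≤ n l) (Y : Finset (P R)) (hY : Down (side {i, l} n) Y) :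
    phi (side {i, l} n') Y.card ≤ (nb (side {i, l} n) Y).card := by
  obtain ⟨k, hk⟩ := Nat.exists_eq_add_of_le (card_le_card (sub_nb hY.1))
  have hI := init_ini (side {i, l} n') Y.card
  have hc : (ini (side {i, l} n') Y.card).card = Y.card :=
    card_ini (by rw [card_box2 hil, h1, ← card_box2 hil]; exact card_le_card hY.1)
  set I := ini (side {i, l} n') Y.card with hIdef
  have hs := card_sdiff_add_card_eq_card (sub_nb hI.1)
  suffices H : ∃ S : Finset ℕ, S.card ≤ k ∧ ∀ p ∈ nb (side {i, l} n') I \ I, p i ∈ S by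
    obtain ⟨S, hS, H⟩ := H
    have := card_le_card_of_injOn _ H (col_inj hil hI)
    unfold phi
    rw [← hIdef]
    omega
  have hm : ∀ p ∈ box (side {i, l} n'), p i < n' i ∧ p l < n' l ∧ lev p = p i + p l :=
    fun p hp => by
      have := (pt_mem hil).1 (eq_pt hil hp ▸ hp)
      exact ⟨this.1, this.2, (congrArg lev (eq_pt hil hp)).trans (lev_pt _ _)⟩
  rcases le_or_gt (n' i) k with hki | hki
  · exact ⟨range (n' i), by simpa using hki, fun p hp =>
      mem_range.2 (hm p (mem_nb.1 (mem_sdiff.1 hp).1).1).1⟩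
  have hN : nb (side {i, l} n) Y ⊆ box (side {i, l} n) := filter_subset _ _
  have hnum := num (a := n i) (b := n l) (k := k)
    (x := fun t => ((range (n i)).filter fun s => pt i l s t ∈ Y).card)
    (y := fun t => ((range (n i)).filter fun s => pt i l s t ∈ nb (side {i, l} n) Y).card)
    (fun t _ => card_le_card (monotone_filter_right _ fun s _ hs => sub_nb hY.1 hs))
    (fun t _ => (card_filter_le _ _).trans (card_range _).le)
    (fun t ht => card_le_card (monotone_filter_right _ fun s hs h => mem_nb.2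
      ⟨(pt_mem hil).2 ⟨mem_range.1 hs, ht⟩, _, h, Or.inr ⟨l, pt_succ_l _ _⟩⟩))
    (fun t ht a1 a2 => by
      obtain ⟨s, hs, hmax⟩ := exists_max_image _ id (card_pos.1 a1)
      rw [mem_filter, mem_range] at hs
      have a3 : s + 1 < n i := by
        by_contra a3
        rw [filter_true_of_mem fun u hu => hY.2 _ hs.2 _
          (pt_le (by have := mem_range.1 hu; omega) le_rfl), card_range] at a2
        omega
      refine card_lt_card ⟨monotone_filter_right _ fun s _ hs => sub_nb hY.1 hs, fun h => ?_⟩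
      have := hmax _ (h (mem_filter.2 ⟨mem_range.2 a3, mem_nb.2
        ⟨(pt_mem hil).2 ⟨a3, ht⟩, _, hs.2, Or.inr ⟨i, pt_succ_i _ _⟩⟩⟩))
      simp at this)
    (fun t _ => card_le_card (monotone_filter_right _ fun s _ hs =>
      hY.2 _ hs _ (pt_le le_rfl (Nat.le_succ t))))
    (by rw [← card2 hil hN, ← card2 hil hY.1, hk]) (by omega) (by omega)
  rw [← card2 hil hN, ← card2 hil hY.1, hk] at hnum
  rcases hnum with h | h
  · have hB : Init (side {i, l} n') ((box (side {i, l} n')).filter fun p => lev p + 2 ≤ k) :=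
      ⟨filter_subset _ _, fun y hy z hz hlt => mem_filter.2 ⟨hz, by
        have := (mem_filter.1 hy).2
        have := lev_le_of_lt hlt
        omega⟩⟩
    have hBc : ((box (side {i, l} n')).filter fun p => lev p + 2 ≤ k).card = tri k := by
      rw [card2 hil hB.1, ← tri_eq (b := n' l) (by omega)]
      refine sum_congr rfl fun t ht => ?_
      rw [← card_range (k - 1 - t)]
      congr 1
      ext s
      simp only [mem_filter, mem_range, pt_mem hil, lev_pt] at ht ⊢
      omega
    have h5 : I ⊆ _ := (ini_mono _ (h.trans hBc.ge)).trans hB.eq.le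
    refine ⟨range k, by simp, fun p hp => mem_range.2 ?_⟩
    obtain ⟨a1, x, hx, a2⟩ := mem_nb.1 (mem_sdiff.1 hp).1
    have a3 := (mem_filter.1 (h5 hx)).2
    have a4 := (hm p a1).2.2
    rcases a2 with rfl | ⟨j, rfl⟩
    · omega
    · rw [lev_add, lev_e] at a4
      omega
  · have hB : Init (side {i, l} n')
        ((box (side {i, l} n')).filter fun p => lev p + k + 1 < n' i + n' l) :=
      ⟨filter_subset _ _, fun y hy z hz hlt => mem_filter.2 ⟨hz, by
        have := (mem_filter.1 hy).2
        have := lev_le_of_lt hlt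
        omega⟩⟩
    have hBc : ((box (side {i, l} n')).filter fun p => ¬ lev p + k + 1 < n' i + n' l).card =
        tri k + k := by
      rw [card2 hil (filter_subset _ _), ← tri_succ, ← tri_eq (b := n' l) (by omega),
        ← sum_range_reflect]
      refine sum_congr rfl fun t ht => ?_
      have : k + 1 - 1 - t = (Ico (n' i - (k - t)) (n' i)).card := by
        rw [Nat.card_Ico]
        omega
      rw [this]
      congr 1
      ext s
      simp only [mem_filter, mem_range, pt_mem hil, lev_pt, mem_Ico] at ht ⊢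
      omega
    have h6 := card_filter_add_card_filter_not (s := box (side {i, l} n'))
      fun p => lev p + k + 1 < n' i + n' l
    rw [hBc, card_box2 hil, h1] at h6
    have h5 := hB.sub (g := Y.card) (by omega)
    refine ⟨Ico (n' i - k) (n' i), by rw [Nat.card_Ico]; omega, fun p hp => ?_⟩
    rw [mem_sdiff] at hp
    have a1 := (mem_nb.1 hp.1).1
    have a2 := hm p a1
    have a3 : ¬ lev p + k + 1 < n' i + n' l := fun h' => hp.2 (h5 (mem_filter.2 ⟨a1, h'⟩))
    rw [mem_Ico]
    omega

end two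

/-- sides different from one increase -/
def Srt (n : P R) : Prop := ∀ i j, i < j → n j = 1 ∨ n i ≤ n j

lemma add_e_sub {x : P R} {i l : Fin R} (hil : i < l) (hx : 0 < x l) :
    lt (x + e i - e l) x ∧ ∀ j, j ≠ i → j ≠ l → (x + e i - e l) j = x j := by
  have h1 : ∀ j, j ≠ i → j ≠ l → (x + e i - e l) j = x j := fun j h1 h2 => by simp [h1, h2]
  have h2 := congrArg lev (sub_add_e (y := x + e i) (i := l) (by simpa [hil.ne'] using hx))
  rw [lev_add, lev_add, lev_e, lev_e] at h2
  exact ⟨lt_iff.2 (Or.inr ⟨by omega, i, fun t ht => h1 t ht.ne (ht.trans hil).ne,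
    by simp [hil.ne]⟩), h1⟩

lemma keyK {n : P R} {l : Fin R} {B : Finset (P R)} (hl : ∀ t, l < t → n t = 1) (hB : Down n B)
    (h1 : Cmp n {l}ᶜ B) (h2 : ∀ i < l, 2 ≤ n i → Cmp n {i, l} B) {z : P R} (hz : z ∈ B) (s : ℕ) :
    ∀ w ∈ box n, lt w z → w l + s = z l → w ∈ B := by
  induction s with
  | zero => exact fun w hw hlt hs => h1 z hz w hw (fun i hi => by simp_all) hlt
  | succ s ih =>
    intro w hw hlt hs
    have hz0 : ∀ {v : P R}, v ∈ box n → ∀ t, l < t → v t = 0 := fun hv t ht => by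
      have := mem_box.1 hv t
      rw [hl t ht] at this
      omega
    by_cases h0 : ∀ t < l, w t = 0
    · refine hB.2 z hz w fun t => ?_
      rcases lt_trichotomy t l with ht | ht | ht
      · exact (h0 t ht).le.trans (Nat.zero_le _)
      · rw [ht]
        exact (by omega : w l ≤ z l)
      · exact (hz0 hw t ht).le.trans (Nat.zero_le _)
    push Not at h0
    obtain ⟨i, hi, hm⟩ := exists_max_image (univ.filter fun t => t < l ∧ w t ≠ 0) id (by
      obtain ⟨t, ht⟩ := h0
      exact ⟨t, mem_filter.2 ⟨mem_univ _, ht⟩⟩)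
    obtain ⟨hil, hwi⟩ := (mem_filter.1 hi).2
    have hm' : ∀ t, i < t → t < l → w t = 0 := fun t ht ht' => by
      by_contra h
      exact absurd (hm t (mem_filter.2 ⟨mem_univ _, ht', h⟩)) (not_le.2 ht)
    set w' := w - e i + e l with hw'
    have a1 : w' i + 1 = w i := by
      simp only [hw', Pi.add_apply, Pi.sub_apply, Pi.single_eq_same, Pi.single_eq_of_ne hil.ne]
      omega
    have a2 : w' l = w l + 1 := by simp [hw', hil.ne']
    have a3 : ∀ t, t ≠ i → t ≠ l → w' t = w t := fun t h h' => by simp [hw', h, h']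
    have a4 : w = w' + e i - e l := by
      funext t
      by_cases ht : t = i
      · subst ht
        simp only [Pi.add_apply, Pi.sub_apply, Pi.single_eq_same, Pi.single_eq_of_ne hil.ne]
        omega
      by_cases ht' : t = l
      · subst ht'
        simp only [Pi.add_apply, Pi.sub_apply, Pi.single_eq_same, Pi.single_eq_of_ne hil.ne']
        omega
      simp [ht, ht', a3 t ht ht']
    have a5 : lev w' = lev w := by
      have := congrArg lev (sub_add_e (y := w) (i := i) (Nat.pos_of_ne_zero hwi))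
      rw [lev_add, lev_e] at this
      rw [hw', lev_add, lev_e, this]
    have hzb := hB.1 hz
    have a6 : w' ∈ box n := mem_box.2 fun t => by
      have b1 := mem_box.1 hw t
      by_cases ht : t = i
      · subst ht
        omega
      by_cases ht' : t = l
      · subst ht'
        have := mem_box.1 hzb t
        omega
      rwa [a3 t ht ht']
    have a7 : w' ∈ B := by
      suffices H : w' = z ∨ lt w' z by
        rcases H with H | H
        · rwa [H]
        · exact ih w' a6 H (by omega)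
      rcases lt_iff.1 hlt with h | ⟨h, j, b1, b2⟩
      · exact Or.inr (lt_of_lev (by omega))
      have hjl : j < l := by
        rcases lt_trichotomy j l with ht | ht | ht
        · exact ht
        · subst ht
          omega
        · have := hz0 hw j ht
          omega
      have hji : j ≤ i := hm j (mem_filter.2 ⟨mem_univ _, hjl, by omega⟩)
      have hpre : ∀ t < j, w' t = z t := fun t ht => by
        rw [a3 t (by omega) (by omega), b1 t ht]
      by_cases hj : z j < w' j
      · exact Or.inr (lt_iff.2 (Or.inr ⟨by omega, j, hpre, hj⟩))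
      have hji' : j = i := by
        by_contra hne
        rw [a3 j hne hjl.ne] at hj
        omega
      refine Or.inl (eq_of_le_lev (fun t => ?_) (by omega))
      rcases lt_trichotomy t j with ht | ht | ht
      · exact (hpre t ht).le
      · rw [ht]
        exact not_lt.1 hj
      rcases lt_trichotomy t l with ht' | ht' | ht'
      · rw [a3 t (by omega) ht'.ne, hm' t (by omega) ht']
        exact Nat.zero_le _
      · rw [ht']
        exact (by omega : w' l ≤ z l)
      · rw [hz0 a6 t ht']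
        exact Nat.zero_le _
    have a8 := add_e_sub (x := w') hil (by omega)
    rw [← a4] at a8
    exact h2 i hil (by have := mem_box.1 hw i; omega) w' a7 w hw
      (fun t ht => a8.2 t (fun h => ht (by simp [h])) fun h => ht (by simp [h])) a8.1

lemma fixed_le {n : P R} {l : Fin R} {B : Finset (P R)} (hl : ∀ t, l < t → n t = 1)
    (hB : Down n B) (h1 : Cmp n {l}ᶜ B) (h2 : ∀ i < l, 2 ≤ n i → Cmp n {i, l} B) :
    phi n B.card ≤ (nb n B).card := by
  have hI := init_ini n B.card
  have hc : (ini n B.card).card = B.card := card_ini (card_le_card hB.1)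
  set I := ini n B.card with hIdef
  have K : ∀ z ∈ B, ∀ w ∈ box n, lt w z → w l ≤ z l → w ∈ B := fun z hz w hw hlt h =>
    keyK hl hB h1 h2 hz (z l - w l) w hw hlt (by omega)
  have hD : ∀ x ∈ B, x l + 1 = n l → x ∈ I := fun x hx h => mem_ini.2 ⟨hB.1 hx, card_lt_card
    ⟨fun w hw => K x hx w (mem_filter.1 hw).1 (mem_filter.1 hw).2
      (by have := mem_box.1 (mem_filter.1 hw).1 l; omega),
      fun h' => lt_irr x (mem_filter.1 (h' hx)).2⟩⟩
  have hE : ∀ y ∈ I, y l = 0 → y ∈ B := fun y hy h => by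
    by_contra hn
    refine absurd (mem_ini.1 hy).2 (not_lt.2 (card_le_card fun z hz => ?_))
    refine mem_filter.2 ⟨hB.1 hz, ?_⟩
    rcases lt_tri z y with h' | h' | h'
    · exact h'
    · exact absurd (h' ▸ hz) hn
    · exact absurd (K z hz y (hI.1 hy) h' (by omega)) hn
  have a1 : ((nb n I).filter fun y => y l = 0).card ≤ ((nb n B).filter fun y => y l = 0).card := by
    refine card_le_card fun y hy => ?_
    rw [mem_filter] at hy ⊢
    obtain ⟨b1, x, hx, b2⟩ := mem_nb.1 hy.1
    refine ⟨mem_nb.2 ⟨b1, x, hE x hx ?_, b2⟩, hy.2⟩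
    rcases b2 with rfl | ⟨j, rfl⟩
    · exact hy.2
    · have := hy.2
      simp only [Pi.add_apply] at this
      omega
  have a2 : ((nb n I).filter fun y => ¬ y l = 0).card ≤
      (I.filter fun x => ¬ x l + 1 = n l).card := by
    refine card_le_card_of_injOn (fun y => y - e l) (fun y hy => ?_) fun y hy y' hy' h => ?_
    · obtain ⟨hy, hy0⟩ := mem_filter.1 (mem_coe.1 hy)
      obtain ⟨b1, x, hx, b2⟩ := mem_nb.1 hy
      refine mem_coe.2 (mem_filter.2 ⟨?_, ?_⟩)
      · rcases b2 with rfl | ⟨j, rfl⟩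
        · exact hI.down.2 _ hx _ tsub_le_self
        rcases lt_trichotomy j l with hj | hj | hj
        · exact hI.2 x hx _ (box_down b1 tsub_le_self)
            (add_e_sub hj (by simpa [hj.ne', Nat.pos_iff_ne_zero] using hy0)).1
        · subst hj
          simpa using hx
        · have := mem_box.1 b1 j
          simp [hl j hj] at this
      · have := mem_box.1 b1 l
        simp only [Pi.sub_apply, Pi.single_eq_same]
        omega
    · have b1 := sub_add_e (Nat.pos_of_ne_zero (mem_filter.1 (mem_coe.1 hy)).2)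
      have b2 := sub_add_e (Nat.pos_of_ne_zero (mem_filter.1 (mem_coe.1 hy')).2)
      simp only at h
      rw [← b1, ← b2, h]
  have a3 : (B.filter fun x => ¬ x l + 1 = n l).card ≤
      ((nb n B).filter fun y => ¬ y l = 0).card := by
    refine card_le_card_of_injOn (fun y => y + e l) (fun x hx => ?_) fun y _ y' _ h =>
      add_right_cancel h
    obtain ⟨hx, hx0⟩ := mem_filter.1 (mem_coe.1 hx)
    refine mem_coe.2 (mem_filter.2 ⟨mem_nb.2 ⟨mem_box.2 fun t => ?_, x, hx,
      Or.inr ⟨l, rfl⟩⟩, by simp⟩)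
    have := mem_box.1 (hB.1 hx) t
    by_cases ht : t = l
    · subst ht
      simp only [Pi.add_apply, Pi.single_eq_same]
      omega
    · simpa [ht] using this
  have a4 : (B.filter fun x => x l + 1 = n l).card ≤ (I.filter fun x => x l + 1 = n l).card :=
    card_le_card fun x hx => mem_filter.2 ⟨hD x (mem_filter.1 hx).1 (mem_filter.1 hx).2,
      (mem_filter.1 hx).2⟩
  have c1 := card_filter_add_card_filter_not (s := nb n I) fun y => y l = 0
  have c2 := card_filter_add_card_filter_not (s := nb n B) fun y => y l = 0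
  have c3 := card_filter_add_card_filter_not (s := I) fun x => x l + 1 = n l
  have c4 := card_filter_add_card_filter_not (s := B) fun x => x l + 1 = n l
  unfold phi
  rw [← hIdef]
  omega

/-- initial segments of the simplicial order have the smallest neighbourhoods -/
theorem iso (k : ℕ) : ∀ n : P R, (univ.filter fun i => 2 ≤ n i).card ≤ k → Srt n →
    ∀ X, Down n X → phi n X.card ≤ (nb n X).card := by
  induction k with
  | zero =>
    intro n hk _ X hX
    have h0 : ∀ x ∈ box n, x = 0 := fun x hx => funext fun i => by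
      have := mem_box.1 hx i
      have := filter_eq_empty_iff.1 (card_eq_zero.1 (Nat.le_zero.1 hk)) (mem_univ i)
      simp only [Pi.zero_apply]
      omega
    have : Init n X := ⟨hX.1, fun y hy z hz h => by rwa [h0 z hz, ← h0 y (hX.1 hy)]⟩
    rw [phi, this.eq]
  | succ k ih =>
    intro n hk hs X hX
    rcases (univ.filter fun i => 2 ≤ n i).eq_empty_or_nonempty with h0 | h0
    · exact ih n (by simp [h0]) hs X hX
    rcases X.eq_empty_or_nonempty with rfl | ⟨x0, hx0⟩
    · simp [phi, ini, nb]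
    obtain ⟨l, hl, hm⟩ := exists_max_image _ id h0
    have hl2 := (mem_filter.1 hl).2
    have hl' : ∀ t, l < t → n t = 1 := fun t ht => by
      have h1 := mem_box.1 (hX.1 hx0) t
      by_contra h
      exact absurd (hm t (mem_filter.2 ⟨mem_univ _, by omega⟩)) (not_le.2 ht)
    obtain ⟨B, hB, hmin⟩ := exists_min_image ((box n).powerset.filter fun B =>
      Down n B ∧ B.card = X.card ∧ (nb n B).card ≤ (nb n X).card) (fun B => ∑ x ∈ B, pos n x)
      ⟨X, mem_filter.2 ⟨mem_powerset.2 hX.1, hX, rfl, le_rfl⟩⟩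
    obtain ⟨b1, b2, b3⟩ := (mem_filter.1 hB).2
    have hC : ∀ J, (∀ Y, Down (side J n) Y → phi (side J n) Y.card ≤ (nb (side J n) Y).card) →
        Cmp n J B := fun J H => by
      by_contra h
      obtain ⟨c1, c2, c3⟩ := compress (n := n) (n' := n) rfl rfl H b1
      exact absurd (hmin _ (mem_filter.2 ⟨mem_powerset.2 c1.1, c1, c2.trans b2, c3.trans b3⟩))
        (not_le.2 (pot_lt b1.1 h))
    refine b2 ▸ (fixed_le hl' b1 (hC _ (ih _ ?_ ?_)) fun i hi h2 => hC _ ?_).trans b3
    · have : (univ.filter fun i => 2 ≤ side {l}ᶜ n i) ⊆ (univ.filter fun i => 2 ≤ n i).erase l :=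
        fun i hi => by
          by_cases h : i = l <;> simp_all [side]
      have := card_le_card this
      rw [card_erase_of_mem hl] at this
      omega
    · intro i j hij
      have := hs i j hij
      by_cases h : i = l
      · have := hl' j (h ▸ hij)
        simp [side, this]
      · by_cases h' : j = l <;> simp [side, h, h', this]
    · have := hs i l hi
      exact two_dim hi rfl (by omega) le_rfl (by omega)

/-- the box `n'` is at least as bad as the box `n` -/
def Dom (n n' : P R) : Prop :=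
  ∀ X, Down n X → ∃ X', Down n' X' ∧ X'.card = X.card ∧ (nb n' X').card ≤ (nb n X).card

lemma Dom.trans {n n' n'' : P R} (h : Dom n n') (h' : Dom n' n'') : Dom n n'' := fun X hX => by
  obtain ⟨Y, a1, a2, a3⟩ := h X hX
  obtain ⟨Z, b1, b2, b3⟩ := h' Y a1
  exact ⟨Z, b1, b2.trans a2, b3.trans a3⟩

lemma dom_pair {n n' : P R} {i l : Fin R} (hil : i < l) (h0 : ∀ j, j ≠ i → j ≠ l → n' j = n j)
    (h1 : n' i * n' l = n i * n l) (h2 : n' i ≤ n' l) (h3 : n' i ≤ n i) (h4 : n' i ≤ n l) :
    Dom n n' := fun _ hX =>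
  ⟨_, compress (J := {i, l}) (funext fun j => by
      by_cases h : j = i ∨ j = l
      · rcases h with h | h <;> simp [side, h]
      · push Not at h
        simp [side, h, h0 j h.1 h.2])
    (by rw [card_box2 hil, card_box2 hil, h1]) (two_dim hil h1 h2 h3 h4) hX⟩

/-- balls -/
def ball (n : P R) (j : ℕ) : Finset (P R) := (box n).filter fun x => lev x ≤ j

lemma ball_succ (n : P R) (j : ℕ) : (ball n (j + 1)).card ≤ phi n (ball n j).card := by
  have hB : Init n (ball n j) := ⟨filter_subset _ _, fun y hy z hz hlt =>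
    mem_filter.2 ⟨hz, (lev_le_of_lt hlt).trans (mem_filter.1 hy).2⟩⟩
  rw [phi, hB.eq]
  refine card_le_card fun y hy => ?_
  obtain ⟨a1, a2⟩ := mem_filter.1 hy
  by_cases h0 : y = 0
  · exact sub_nb hB.1 (mem_filter.2 ⟨a1, by simp [h0, lev]⟩)
  obtain ⟨t, ht⟩ := Function.ne_iff.1 h0
  have a3 := sub_add_e (Nat.pos_of_ne_zero ht)
  have a4 := congrArg lev a3
  rw [lev_add, lev_e] at a4
  exact mem_nb.2 ⟨a1, _, mem_filter.2 ⟨box_down a1 tsub_le_self, by omega⟩, Or.inr ⟨t, a3.symm⟩⟩

lemma ball_zero (n : P R) : (ball n 0).card ≤ 1 :=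
  card_le_one.2 fun x hx y hy => by
    have h : ∀ x ∈ ball n 0, x = 0 := fun x hx =>
      (eq_of_le_lev zero_le (by simpa [lev] using (mem_filter.1 hx).2)).symm
    rw [h x hx, h y hy]

lemma ball_top (n : P R) {j : ℕ} (h : ∑ i, (n i - 1) ≤ j) : (ball n j).card = ∏ i, n i := by
  have h1 : ∀ x ∈ box n, lev x ≤ j := fun x hx => le_trans (sum_le_sum fun i _ => by
    have := mem_box.1 hx i
    omega) h
  rw [ball, filter_true_of_mem h1, card_box]

end

end Pool.Agent.Lib.MP_3184af_co.Iso
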