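import Pool.Agent.Lib.MP_3184af_co.IsoBox
import Pool.Agent.Lib.MP_3184af_co.Main

/-!
Invariant factors, the isoperimetric inequality in finite abelian groups, and zero-sum
subsequences of length `k * exp G`.
-/

set_option autoImplicit false

namespace Pool.Agent.Lib.MP_3184af_co.Iso

open Finset

noncomputable section
open Classical

section inv
variable (W : Type) [AddCommGroup W]

/-- the subgroup `m W` -/
def mul (m : ℕ) : AddSubgroup W := (⊤ : AddSubgroup W).map (nsmulAddMonoidHom m)

/-- the `p`-adic valuation of the order of `p ^ k W` -/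
def vv (p k : ℕ) : ℕ := (Nat.card (mul W (p ^ k))).factorization p

/-- the invariant factors in increasing order -/
def nuN (R i : ℕ) : ℕ :=
  ∏ p ∈ Icc 1 R, p ^ ((range R).filter fun k => R < vv W p k - vv W p (k + 1) + i).card

/-- the invariant factors as the sides of a box -/
def nu (R : ℕ) : P (R + 1) := fun i => nuN W R i

variable {W}

lemma mem_mul {m : ℕ} {x : W} : x ∈ mul W m ↔ ∃ y, m • y = x := by
  simp [mul]

lemma mul_succ_le (p k : ℕ) : mul W (p ^ (k + 1)) ≤ mul W (p ^ k) := fun x hx => by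
  obtain ⟨y, rfl⟩ := mem_mul.1 hx
  exact mem_mul.2 ⟨p • y, by rw [pow_succ, mul_smul]⟩

variable [Finite W]

lemma fac_le {H K : AddSubgroup W} (h : H ≤ K) (p : ℕ) :
    (Nat.card H).factorization p ≤ (Nat.card K).factorization p :=
  (Nat.factorization_le_iff_dvd Nat.card_pos.ne' Nat.card_pos.ne').2
    (AddSubgroup.card_dvd_of_le h) p

omit [Finite W] in
lemma vv_zero (p : ℕ) : vv W p 0 = (Nat.card W).factorization p := by
  have : mul W (p ^ 0) = ⊤ := eq_top_iff.2 fun x _ => mem_mul.2 ⟨x, by simp⟩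
  rw [vv, this, AddSubgroup.card_top]

lemma vv_succ (p k : ℕ) : vv W p (k + 1) ≤ vv W p k := fac_le (mul_succ_le p k) p

lemma vv_lt (p k : ℕ) : vv W p k < Nat.card W := by
  have h := fac_le (le_top (a := mul W (p ^ k))) p
  rw [AddSubgroup.card_top] at h
  exact h.trans_lt (Nat.factorization_lt p Nat.card_pos.ne')

lemma cauchy {p k : ℕ} (h : vv W p k ≠ 0) : k < (AddMonoid.exponent W).factorization p := by
  have hp : p.Prime := by
    by_contra hp
    exact h (Nat.factorization_eq_zero_of_not_prime _ hp)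
  have : Fact p.Prime := ⟨hp⟩
  obtain ⟨⟨x, hx⟩, h1⟩ := exists_prime_addOrderOf_dvd_card' p (Nat.dvd_of_factorization_pos h)
  obtain ⟨y, rfl⟩ := mem_mul.1 hx
  rw [← AddSubgroup.addOrderOf_coe] at h1
  have h2 : addOrderOf y = p ^ (k + 1) := addOrderOf_eq_prime_pow
    (fun h0 => hp.one_lt.ne' (by rw [← h1]; simpa using h0))
    (by
      have h3 := addOrderOf_nsmul_eq_zero (p ^ k • y)
      rwa [h1, ← mul_smul, ← pow_succ'] at h3)
  exact (hp.pow_dvd_iff_le_factorization
    (AddMonoid.ExponentExists.of_finite (G := W)).exponent_ne_zero).1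
    (h2 ▸ AddMonoid.addOrder_dvd_exponent y)

lemma exp_le : AddMonoid.exponent W ≤ Nat.card W :=
  Nat.le_of_dvd Nat.card_pos AddGroup.exponent_dvd_nat_card

lemma prod_fac {N R : ℕ} (h0 : N ≠ 0) (h : N ≤ R) : ∏ p ∈ Icc 1 R, p ^ N.factorization p = N := by
  conv_rhs => rw [← Nat.prod_factorization_pow_eq_self h0]
  refine (Finsupp.prod_of_support_subset _ (fun p hp => ?_) _ (by simp)).symm
  have := Nat.mem_primeFactors.1 hp
  exact mem_Icc.2 ⟨this.1.pos, (Nat.le_of_dvd (by omega) this.2.1).trans h⟩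

omit [Finite W] in
lemma nu_pos (R i : ℕ) : 0 < nuN W R i :=
  prod_pos fun _ hp => pow_pos (mem_Icc.1 hp).1 _

lemma nu_dvd {W W' : Type} [AddCommGroup W] [AddCommGroup W'] {R i j : ℕ}
    (h : ∀ p k, vv W p k - vv W p (k + 1) + i ≤ vv W' p k - vv W' p (k + 1) + j) :
    nuN W R i ∣ nuN W' R j :=
  prod_dvd_prod_of_dvd _ _ fun p _ => pow_dvd_pow _
    (card_le_card (monotone_filter_right _ fun k _ hk => lt_of_lt_of_le hk (h p k)))

lemma nu_zero {R : ℕ} (h : Nat.card W ≤ R) : nuN W R 0 = 1 :=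
  prod_eq_one fun p _ => by
    rw [filter_false_of_mem fun k _ => by have := vv_lt (W := W) p k; omega, card_empty, pow_zero]

lemma nu_top {R : ℕ} (h : Nat.card W ≤ R) : nuN W R R ∣ AddMonoid.exponent W := by
  rw [← prod_fac AddMonoid.ExponentExists.of_finite.exponent_ne_zero (exp_le.trans h)]
  refine prod_dvd_prod_of_dvd _ _ fun p _ => pow_dvd_pow _ ?_
  rw [← card_range ((AddMonoid.exponent W).factorization p)]
  exact card_le_card fun k hk => mem_range.2 (cauchy (by have := (mem_filter.1 hk).2; omega))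

lemma nu_prod {R : ℕ} (h : Nat.card W ≤ R) : ∏ i ∈ range (R + 1), nuN W R i = Nat.card W := by
  rw [← prod_fac Nat.card_pos.ne' h]
  simp only [nuN]
  rw [prod_comm]
  refine prod_congr rfl fun p _ => ?_
  rw [prod_pow_eq_pow_sum]
  congr 1
  have h1 : ∀ t, ∑ k ∈ range t, (vv W p k - vv W p (k + 1)) + vv W p t = vv W p 0 := fun t => by
    induction t with
    | zero => simp
    | succ t ih =>
      have := vv_succ (W := W) p t
      rw [sum_range_succ]
      omega
  have h2 : vv W p R = 0 := by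
    by_contra h2
    have a1 := cauchy h2
    have a2 := Nat.factorization_lt p
      (AddMonoid.ExponentExists.of_finite (G := W)).exponent_ne_zero
    have a3 := exp_le (W := W)
    omega
  rw [← vv_zero, ← h1 R, h2, add_zero]
  simp only [card_filter]
  rw [sum_comm]
  refine sum_congr rfl fun k _ => ?_
  have a1 := vv_lt (W := W) p k
  rw [← card_filter]
  have : ((range (R + 1)).filter fun i => R < vv W p k - vv W p (k + 1) + i) =
      Ico (R + 1 - (vv W p k - vv W p (k + 1))) (R + 1) := by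
    ext i
    simp only [mem_filter, mem_range, mem_Ico]
    omega
  rw [this, Nat.card_Ico]
  omega

lemma vv_quot (C : AddSubgroup W) (p k : ℕ) :
    vv W p k = (Nat.card (C ⊓ mul W (p ^ k) : AddSubgroup W)).factorization p +
      vv (W ⧸ C) p k := by
  have h1 := card_inf_mul C (mul W (p ^ k))
  have h2 := AddSubgroup.relIndex_ker (K := mul W (p ^ k)) (QuotientAddGroup.mk' C)
  rw [QuotientAddGroup.ker_mk'] at h2
  have h3 : (mul W (p ^ k)).map (QuotientAddGroup.mk' C) = mul (W ⧸ C) (p ^ k) := by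
    ext x
    rw [mem_mul, AddSubgroup.mem_map]
    constructor
    · rintro ⟨_, hy, rfl⟩
      obtain ⟨y, rfl⟩ := mem_mul.1 hy
      exact ⟨_, (map_nsmul _ _ _).symm⟩
    · rintro ⟨y, rfl⟩
      obtain ⟨y, rfl⟩ := QuotientAddGroup.mk'_surjective C y
      exact ⟨_, mem_mul.2 ⟨y, rfl⟩, map_nsmul _ _ _⟩
  rw [h2, h3] at h1
  rw [vv, ← h1, Nat.factorization_mul Nat.card_pos.ne' Nat.card_pos.ne']
  rfl

lemma cyc_step (a : W) (p k : ℕ) :
    (Nat.card (AddSubgroup.zmultiples a ⊓ mul W (p ^ k) : AddSubgroup W)).factorization p ≤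
      (Nat.card (AddSubgroup.zmultiples a ⊓ mul W (p ^ (k + 1)) : AddSubgroup W)).factorization p
        + 1 := by
  by_cases hp : p.Prime
  swap
  · rw [Nat.factorization_eq_zero_of_not_prime _ hp]
    exact Nat.zero_le _
  obtain ⟨n, hn⟩ := (AddSubgroup.le_zmultiples_iff a _).1
    (inf_le_left (a := AddSubgroup.zmultiples a) (b := mul W (p ^ k)))
  have h1 : n • a ∈ AddSubgroup.zmultiples a ⊓ mul W (p ^ k) :=
    hn ▸ AddSubgroup.mem_zmultiples _
  have h2 : AddSubgroup.zmultiples (p • n • a) ≤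
      AddSubgroup.zmultiples a ⊓ mul W (p ^ (k + 1)) := by
    rw [AddSubgroup.zmultiples_le]
    obtain ⟨y, hy⟩ := mem_mul.1 h1.2
    exact ⟨nsmul_mem h1.1 p, mem_mul.2 ⟨y, by rw [← hy, pow_succ', mul_smul]⟩⟩
  have h3 := fac_le h2 p
  have h4 : addOrderOf (n • a) ∣ addOrderOf (p • n • a) * p :=
    addOrderOf_dvd_of_nsmul_eq_zero (by rw [mul_smul]; exact addOrderOf_nsmul_eq_zero _)
  have h5 := (Nat.factorization_le_iff_dvd (addOrderOf_pos _).ne'
    (Nat.mul_pos (addOrderOf_pos _) hp.pos).ne').2 h4 p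
  rw [Nat.factorization_mul (addOrderOf_pos _).ne' hp.pos.ne', Finsupp.add_apply,
    hp.factorization_self] at h5
  rw [Nat.card_zmultiples] at h3
  rw [hn, Nat.card_zmultiples]
  omega

lemma nu_quot_le (C : AddSubgroup W) (R i : ℕ) : nuN (W ⧸ C) R i ∣ nuN W R i :=
  nu_dvd fun p k => by
    have a1 := vv_quot C p k
    have a2 := vv_quot C p (k + 1)
    have a3 := fac_le (inf_le_inf_left C (mul_succ_le (W := W) p k)) p
    omega

lemma nu_le_quot (a : W) (R i : ℕ) :
    nuN W R i ∣ nuN (W ⧸ AddSubgroup.zmultiples a) R (i + 1) :=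
  nu_dvd fun p k => by
    have a1 := vv_quot (AddSubgroup.zmultiples a) p k
    have a2 := vv_quot (AddSubgroup.zmultiples a) p (k + 1)
    have a3 := cyc_step a p k
    have a4 := vv_succ (W := W ⧸ AddSubgroup.zmultiples a) p k
    omega

omit [Finite W] in
lemma nu_mono (R : ℕ) {i j : ℕ} (h : i ≤ j) : nuN W R i ≤ nuN W R j :=
  Nat.le_of_dvd (nu_pos _ _) (nu_dvd fun _ _ => by omega)

lemma card_nu {R : ℕ} (h : Nat.card W ≤ R) : (box (nu W R)).card = Nat.card W := by
  rw [card_box, ← nu_prod h, ← Fin.prod_univ_eq_prod_range]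
  rfl

lemma card_quot {a : W} (ha : a ≠ 0) :
    Nat.card (W ⧸ AddSubgroup.zmultiples a) < Nat.card W := by
  have h1 := AddSubgroup.card_eq_card_quotient_mul_card_addSubgroup (AddSubgroup.zmultiples a)
  have h2 : 0 < Nat.card (W ⧸ AddSubgroup.zmultiples a) := Nat.card_pos
  have h3 := addOrderOf_pos a
  have h4 : addOrderOf a ≠ 1 := by simpa using ha
  rw [Nat.card_zmultiples] at h1
  rw [h1]
  exact lt_mul_of_one_lt_right h2 (by omega)

end inv

/-- the intermediate boxes -/
def st (R : ℕ) (a b q : ℕ → ℕ) (t : ℕ) : P (R + 1) := fun j =>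
  if j.1 < t then a j else if j.1 = t then a t * ∏ u ∈ Ico (t + 1) (R + 1), q u else b j

lemma dom_chain {R : ℕ} {a b q : ℕ → ℕ} (hq : ∀ i, a i = b i * q i) (h0 : ∀ i, 0 < q i)
    (h1 : ∀ i, a i ≤ b (i + 1)) (h2 : ∀ i, a i ≤ a (i + 1)) (t : ℕ) (ht : t ≤ R) :
    Dom (st R a b q 0) (st R a b q t) := by
  induction t with
  | zero => exact fun X hX => ⟨X, hX, rfl, le_rfl⟩
  | succ t ih =>
    refine (ih (by omega)).trans (dom_pair (i := ⟨t, by omega⟩) (l := ⟨t + 1, by omega⟩)
      (by simp) (fun j a1 a2 => ?_) ?_ ?_ ?_ ?_)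
    · have b1 : j.1 ≠ t := fun h => a1 (Fin.ext h)
      have b2 : j.1 ≠ t + 1 := fun h => a2 (Fin.ext h)
      simp only [st, b1, b2, if_false]
      by_cases h : j.1 < t
      · rw [if_pos h, if_pos (by omega)]
      · rw [if_neg h, if_neg (by omega)]
    · simp only [st, lt_add_one, if_true, lt_irrefl, if_false, add_lt_iff_neg_left, not_lt_zero,
        Nat.add_eq_left, one_ne_zero]
      rw [prod_eq_prod_Ico_succ_bot (a := t + 1) (by omega), hq (t + 1)]
      ring
    · simp only [st, lt_add_one, if_true, lt_irrefl, if_false]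
      exact (h2 t).trans (Nat.le_mul_of_pos_right _ (prod_pos fun _ _ => h0 _))
    · simp only [st, lt_add_one, if_true, lt_irrefl, if_false]
      exact Nat.le_mul_of_pos_right _ (prod_pos fun _ _ => h0 _)
    · simp only [st, lt_add_one, if_true, add_lt_iff_neg_left, not_lt_zero, if_false,
        Nat.add_eq_left, one_ne_zero]
      exact h1 t

lemma dom_quot {W : Type} [AddCommGroup W] [Finite W] (a : W) {R : ℕ} (h : Nat.card W ≤ R) :
    Dom (Function.update (nu (W ⧸ AddSubgroup.zmultiples a) R) 0 (addOrderOf a)) (nu W R) := by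
  choose q hq using fun i => nu_quot_le (AddSubgroup.zmultiples a) R i
  have h0 : ∀ i, 0 < q i := fun i => Nat.pos_of_mul_pos_left (hq i ▸ nu_pos R i)
  have h1 := dom_chain hq h0 (fun i => Nat.le_of_dvd (nu_pos _ _) (nu_le_quot a R i))
    (fun i => nu_mono R i.le_succ) R le_rfl
  have h2 := AddSubgroup.card_eq_card_quotient_mul_card_addSubgroup (AddSubgroup.zmultiples a)
  rw [Nat.card_zmultiples] at h2
  have h3 : Nat.card (W ⧸ AddSubgroup.zmultiples a) ≤ R :=
    (Nat.le_mul_of_pos_right _ (addOrderOf_pos a)).trans (h2 ▸ h)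
  have h4 : ∏ i ∈ range (R + 1), q i = addOrderOf a := by
    have := nu_prod h
    rw [prod_congr rfl fun i _ => hq i, prod_mul_distrib, nu_prod h3, h2] at this
    exact Nat.eq_of_mul_eq_mul_left Nat.card_pos this
  convert h1 using 1
  · funext j
    by_cases hj : j = 0
    · subst hj
      rw [Function.update_self, ← h4, range_eq_Ico, prod_eq_prod_Ico_succ_bot (by omega)]
      simp [st, hq 0, nu_zero h3]
    · have : j.1 ≠ 0 := fun h => hj (Fin.ext h)
      simp [st, hj, this, nu]
  · funext j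
    have := j.2
    by_cases hj : j.1 < R
    · simp [st, hj, nu]
    · have hj' : j.1 = R := by omega
      simp [st, hj', nu]

lemma sum_line {R : ℕ} (i : Fin R) (n : P R) (h : ℕ → ℕ) :
    ∑ ρ ∈ box (side {i}ᶜᶜ n), h (ρ i) = ∑ u ∈ range (n i), h u := by
  refine sum_bij' (fun ρ _ => ρ i) (fun u _ => Pi.single i u) ?_ ?_ ?_ ?_ fun _ _ => rfl
  · intro ρ hρ
    simpa [side] using mem_box.1 hρ i
  · intro u hu
    refine mem_box.2 fun j => ?_
    by_cases hj : j = i
    · subst hj
      simpa [side] using hu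
    · simp [side, hj]
  · intro ρ hρ
    funext j
    by_cases hj : j = i
    · simp [hj]
    · simp [hj, zero_of_side hρ (i := j) (by simpa using hj)]
  · intro u _
    simp

/-- the isoperimetric inequality in finite abelian groups -/
theorem untwist (R N : ℕ) : ∀ (W : Type) [AddCommGroup W] [Finite W], Nat.card W ≤ N → N ≤ R →
    ∀ A : Set W, AddSubgroup.closure A = ⊤ → ∀ X Y : Finset W, X ⊆ Y →
      (∀ x ∈ X, ∀ a ∈ A, x + a ∈ Y) → phi (nu W R) X.card ≤ Y.card := by
  induction N with
  | zero =>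
    intro W _ _ h
    exact absurd h (not_le.2 Nat.card_pos)
  | succ N ih =>
    intro W _ _ hN hR A hA X Y hXY hadd
    have := Fintype.ofFinite W
    by_cases h0 : ∀ a ∈ A, a = 0
    · rcases X.eq_empty_or_nonempty with rfl | hX
      · simp [phi, ini, nb]
      have h1 : (⊤ : AddSubgroup W) ≤ ⊥ := hA ▸ (AddSubgroup.closure_le _).2 h0
      have h2 := AddSubgroup.card_le_of_le h1
      rw [AddSubgroup.card_top, AddSubgroup.card_bot, ← card_nu (hN.trans hR)] at h2
      exact ((card_filter_le _ _).trans h2).trans (hX.mono hXY).card_pos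
    push Not at h0
    obtain ⟨a, ha, ha0⟩ := h0
    have hc := card_quot ha0
    have hD := dom_quot a (hN.trans hR)
    set C := AddSubgroup.zmultiples a with hC
    have := Fintype.ofFinite (W ⧸ C)
    set π := QuotientAddGroup.mk' C with hπ
    have hπ' : ∀ x y, π x = π y ↔ x - y ∈ C := fun x y => QuotientAddGroup.eq_iff_sub_mem
    have hS : (univ.filter fun x => x ∈ C).card = addOrderOf a := by
      rw [← Nat.card_zmultiples]
      exact (Nat.subtype_card _ (by simp [hC])).symm
    let F : Finset W → W ⧸ C → ℕ := fun Z c => (Z.filter fun x => π x = c).card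
    let L : Finset W → ℕ → Finset (W ⧸ C) := fun Z u => univ.filter fun c => u < F Z c
    have hF : ∀ Z c, F Z c ≤ addOrderOf a := fun Z c => by
      obtain ⟨x0, rfl⟩ := QuotientAddGroup.mk'_surjective C c
      rw [← hS]
      exact card_le_card_of_injOn (fun x => x - x0) (fun x hx => by
        simpa using (hπ' _ _).1 (mem_filter.1 (mem_coe.1 hx)).2) fun _ _ _ _ h => sub_left_injective h
    have hL : ∀ Z, ∑ u ∈ range (addOrderOf a), (L Z u).card = Z.card := fun Z => by
      rw [card_eq_sum_card_fiberwise (f := π) (t := univ) fun _ _ => mem_coe.2 (mem_univ _)]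
      simp only [L, card_filter]
      rw [sum_comm]
      refine sum_congr rfl fun c _ => ?_
      rw [← card_filter, ← card_filter]
      refine Eq.trans (congrArg card ?_) (card_range (F Z c))
      ext u
      have := hF Z c
      simp only [mem_filter, mem_range]
      omega
    have h1 : ∀ c, F X c ≤ F Y c := fun c => card_le_card (filter_subset_filter _ hXY)
    have h2 : ∀ c, ∀ b ∈ A, F X c ≤ F Y (c + π b) := fun c b hb =>
      card_le_card_of_injOn (fun x => x + b) (fun x hx => by
        obtain ⟨a1, a2⟩ := mem_filter.1 (mem_coe.1 hx)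
        exact mem_coe.2 (mem_filter.2 ⟨hadd x a1 b hb, by rw [map_add, a2]⟩))
        fun _ _ _ _ h => add_right_cancel h
    have h3 : ∀ c, 0 < F X c → F X c < addOrderOf a → F X c < F Y c := fun c a1 a2 => by
      refine card_lt_card ⟨filter_subset_filter _ hXY, fun h => ?_⟩
      obtain ⟨x0, hx0⟩ := card_pos.1 a1
      have a3 : ∀ n : ℕ, x0 + n • a ∈ X.filter fun x => π x = c := fun n => by
        induction n with
        | zero => simpa using hx0
        | succ n ih =>
          obtain ⟨b1, b2⟩ := mem_filter.1 ih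
          rw [succ_nsmul, ← add_assoc]
          refine h (mem_filter.2 ⟨hadd _ b1 a ha, b2 ▸ (hπ' _ _).2 ?_⟩)
          rw [add_sub_cancel_left]
          exact AddSubgroup.mem_zmultiples a
      refine absurd a2 (not_lt.2 ?_)
      rw [← hS]
      refine card_le_card_of_injOn (fun x => x0 + x) (fun x hx => ?_) fun _ _ _ _ h =>
        add_left_cancel h
      obtain ⟨n, rfl⟩ := mem_multiples_iff_mem_zmultiples.2 (mem_filter.1 (mem_coe.1 hx)).2
      exact a3 n
    have hR' : Nat.card (W ⧸ C) ≤ R := by omega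
    set n := Function.update (nu (W ⧸ C) R) 0 (addOrderOf a) with hn
    have hn0 : n 0 = addOrderOf a := Function.update_self ..
    have hs : side {0}ᶜ n = nu (W ⧸ C) R := by
      funext j
      by_cases hj : j = 0
      · simp [side, hj, nu, nu_zero hR']
      · simp [side, hj, hn]
    have b1 : Down n (bld n {0}ᶜ fun ρ => (L X (ρ 0)).card) :=
      bld_down fun ρ _ ρ' h => card_le_card
        (monotone_filter_right _ fun c _ hc => lt_of_le_of_lt (h 0) hc)
    have b2 : (bld n {0}ᶜ fun ρ => (L X (ρ 0)).card).card = X.card := by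
      rw [bld_card fun ρ _ => by
        rw [hs, card_nu hR', Nat.card_eq_fintype_card]
        exact card_le_univ _, sum_line 0 n fun u => (L X u).card, hn0, hL]
    have b3 : (nb n (bld n {0}ᶜ fun ρ => (L X (ρ 0)).card)).card ≤ Y.card := by
      rw [← hL Y, ← hn0, ← sum_line 0 n fun u => (L Y u).card]
      refine bld_nb (fun ρ _ => ?_) fun ρ j hρ => card_le_card fun c hc => ?_
      · rw [hs]
        refine ih _ (by omega) (by omega) (π '' A) ?_ _ _
          (monotone_filter_right _ fun c _ hc => lt_of_lt_of_le hc (h1 c)) ?_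
        · rw [← AddMonoidHom.map_closure, hA]
          exact AddSubgroup.map_top_of_surjective _ (QuotientAddGroup.mk'_surjective C)
        · rintro c hc _ ⟨b, hb, rfl⟩
          exact mem_filter.2 ⟨mem_univ _, (mem_filter.1 hc).2.trans_le (h2 c b hb)⟩
      · have hj : j = 0 := by
          by_contra hj
          simpa using zero_of_side hρ (i := j) (by simpa using hj)
        subst hj
        have a1 : ρ 0 + 1 < addOrderOf a := by simpa [side, hn0] using mem_box.1 hρ 0
        have a2 := (mem_filter.1 hc).2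
        have a3 := h1 c
        have a4 := h3 c (by omega)
        have a5 := hF X c
        refine mem_filter.2 ⟨mem_univ _, ?_⟩
        simp only [Pi.add_apply, Pi.single_eq_same]
        omega
    obtain ⟨Z, c1, c2, c3⟩ := hD _ b1
    rw [← b2, ← c2]
    exact ((iso _ _ le_rfl (fun i j hij => Or.inr (nu_mono R hij.le)) Z c1).trans c3).trans b3

/-- an independent family as long as the diameter of the box -/
theorem fam (R N : ℕ) : ∀ (W : Type) [AddCommGroup W] [Finite W], Nat.card W ≤ N → N ≤ R →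
    ∃ (κ : Type) (_ : Fintype κ) (g : κ → W) (n : κ → ℕ),
      (∀ c : κ → ℕ, (∀ i, c i ≤ n i) → ∑ i, c i • g i = 0 → ∀ i, c i = 0) ∧
      ∑ i, (nu W R i - 1) ≤ ∑ i, n i := by
  induction N with
  | zero =>
    intro W _ _ h
    exact absurd h (not_le.2 Nat.card_pos)
  | succ N ih =>
    intro W _ _ hN hR
    obtain ⟨a, ha⟩ := AddMonoid.exists_addOrderOf_eq_exponent
      (AddMonoid.ExponentExists.of_finite (G := W))
    have h1 := Nat.le_of_dvd (addOrderOf_pos a) (ha ▸ nu_top (hN.trans hR))
    by_cases h0 : a = 0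
    · refine ⟨Empty, inferInstance, Empty.elim, Empty.elim, fun _ _ _ i => i.elim, ?_⟩
      rw [sum_eq_zero fun i _ => ?_]
      · exact Nat.zero_le _
      have := nu_mono (W := W) R (Nat.lt_succ_iff.1 i.2)
      rw [h0, addOrderOf_zero] at h1
      simp only [nu]
      omega
    have hc := card_quot h0
    obtain ⟨κ, _, g, n, h2, h3⟩ := ih (W ⧸ AddSubgroup.zmultiples a) (by omega) (by omega)
    choose u hu using fun i => QuotientAddGroup.mk'_surjective _ (g i)
    refine ⟨Option κ, inferInstance, fun i => i.elim a u, fun i => i.elim (addOrderOf a - 1) n,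
      fun c hc h => ?_, ?_⟩
    · rw [Fintype.sum_option] at h
      have a1 := congrArg (QuotientAddGroup.mk' (AddSubgroup.zmultiples a)) h
      have a2 : QuotientAddGroup.mk' (AddSubgroup.zmultiples a) a = 0 :=
        (QuotientAddGroup.eq_zero_iff _).2 (AddSubgroup.mem_zmultiples a)
      simp only [map_add, map_sum, map_nsmul, Option.elim, hu, a2, map_zero, smul_zero,
        zero_add] at a1
      have a3 := h2 (fun i => c (some i)) (fun i => hc (some i)) a1
      simp only [a3, zero_smul, sum_const_zero, add_zero, Option.elim] at h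
      have a4 : c none ≤ addOrderOf a - 1 := hc none
      have a5 := addOrderOf_pos a
      rintro (_ | i)
      · exact Nat.eq_zero_of_dvd_of_lt (addOrderOf_dvd_of_nsmul_eq_zero h) (by omega)
      · exact a3 i
    · rw [Fintype.sum_option, Fin.sum_univ_castSucc]
      rw [Fin.sum_univ_succ] at h3
      have a1 : ∑ i : Fin R, (nu W R i.castSucc - 1) ≤
          ∑ i : Fin R, (nu (W ⧸ AddSubgroup.zmultiples a) R i.succ - 1) :=
        sum_le_sum fun i _ => Nat.sub_le_sub_right
          (Nat.le_of_dvd (nu_pos _ _) (nu_le_quot a R i)) 1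
      have a2 : nu W R (Fin.last R) = nuN W R R := rfl
      simp only [Option.elim]
      omega

open ArithmeticFunction

variable {G : Type} [AddCommGroup G] [Finite G]

lemma untwist_sub {K : AddSubgroup G} {A : Set G} (hA : AddSubgroup.closure A = K)
    {X Y : Finset G} (hX : ∀ x ∈ X, x ∈ K) (hXY : X ⊆ Y) (h : ∀ x ∈ X, ∀ a ∈ A, x + a ∈ Y) :
    phi (nu K (Nat.card K)) X.card ≤ Y.card := by
  subst hA
  have h1 := untwist _ _ _ le_rfl le_rfl _ (AddSubgroup.closure_preimage_eq_top A)
    (X.subtype _) (Y.subtype _) (fun x hx => mem_subtype.2 (hXY (mem_subtype.1 hx)))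
    fun x hx a ha => mem_subtype.2 (h _ (mem_subtype.1 hx) _ ha)
  rw [card_subtype, card_subtype, filter_true_of_mem hX] at h1
  exact h1.trans (card_filter_le _ _)

lemma sums {ι C : Type} (a : ι → G) (K : AddSubgroup G) (B : C → Finset ι)
    (hK : ∀ c, ∀ i ∈ B c, a i ∈ K) (hB : ∀ c c', c ≠ c' → Disjoint (B c) (B c'))
    (hg : ∀ c, ∃ b ∈ B c, AddSubgroup.closure ((fun i => a i - a b) '' B c) = K) (S : Finset C) :
    ∃ X : Finset G, (ball (nu K (Nat.card K)) S.card).card ≤ X.card ∧ ∀ x ∈ X, x ∈ K ∧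
      ∃ T : Finset ι, T.card = S.card ∧ (∀ i ∈ T, ∃ c ∈ S, i ∈ B c) ∧ ∑ i ∈ T, a i = x := by
  induction S using Finset.induction_on with
  | empty => exact ⟨{0}, ball_zero _, fun x hx => by
      rw [mem_singleton.1 hx]
      exact ⟨zero_mem _, ∅, rfl, by simp, rfl⟩⟩
  | insert c S hc ih =>
    obtain ⟨X, h1, h2⟩ := ih
    obtain ⟨b, hb, h3⟩ := hg c
    refine ⟨image₂ (fun x i => x + a i) X (B c), ?_, fun y hy => ?_⟩
    · rw [card_insert_of_notMem hc]
      refine (ball_succ _ _).trans ((phi_mono _ h1).trans ?_)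
      rw [← card_image_of_injective X (add_left_injective (a b))]
      refine untwist_sub h3 (fun x hx => ?_) (fun x hx => ?_) fun x hx => ?_
      all_goals obtain ⟨y, hy, rfl⟩ := mem_image.1 hx
      · exact add_mem (h2 y hy).1 (hK c b hb)
      · exact mem_image₂_of_mem hy hb
      · rintro _ ⟨i, hi, rfl⟩
        exact mem_image₂.2 ⟨y, hy, i, hi, by simp⟩
    · obtain ⟨x, hx, i, hi, rfl⟩ := mem_image₂.1 hy
      obtain ⟨a1, T, a2, a3, a4⟩ := h2 x hx
      have hiT : i ∉ T := fun h => by
        obtain ⟨c', b1, b2⟩ := a3 i h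
        exact disjoint_left.1 (hB c c' fun h' => hc (h' ▸ b1)) hi b2
      refine ⟨add_mem a1 (hK c i hi), insert i T, ?_, fun j hj => ?_, ?_⟩
      · rw [card_insert_of_notMem hiT, card_insert_of_notMem hc, a2]
      · rcases mem_insert.1 hj with rfl | hj
        · exact ⟨c, mem_insert_self _ _, hi⟩
        · obtain ⟨c', b1, b2⟩ := a3 j hj
          exact ⟨c', mem_insert_of_mem b1, b2⟩
      · rw [sum_insert hiT, a4, add_comm]

lemma eq_of_om {H K : AddSubgroup G} (h : H ≤ K)
    (h' : cardFactors (Nat.card K) ≤ cardFactors (Nat.card H)) : H = K := by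
  obtain ⟨n, hn⟩ := AddSubgroup.card_dvd_of_le h
  have h2 : n ≠ 0 := by
    rintro rfl
    exact (Nat.card_pos (α := K)).ne' (by simpa using hn)
  rw [hn, cardFactors_mul Nat.card_pos.ne' h2] at h'
  have h3 : n = 1 := (cardFactors_eq_zero_iff_eq_zero_or_one.1 (by omega)).resolve_left h2
  exact AddSubgroup.eq_of_le_of_card_ge h (by rw [hn, h3, mul_one])

lemma om_sub {ι : Type} (v : ι → G) (X Y : Finset ι) :
    cardFactors (Nat.card (gen v (X ∪ Y))) + cardFactors (Nat.card (gen v (X ∩ Y))) ≤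
      cardFactors (Nat.card (gen v X)) + cardFactors (Nat.card (gen v Y)) := by
  have h1 : gen v (X ∪ Y) = gen v X ⊔ gen v Y := by
    simp only [gen, coe_union, Set.image_union, AddSubgroup.closure_union]
  have h3 := om_le (le_inf (gen_mono v (inter_subset_left (s₁ := X) (s₂ := Y)))
    (gen_mono v inter_subset_right))
  have h4 := congrArg cardFactors (card_sup_inf (gen v X) (gen v Y))
  rw [cardFactors_mul Nat.card_pos.ne' Nat.card_pos.ne',
    cardFactors_mul Nat.card_pos.ne' Nat.card_pos.ne'] at h4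
  rw [h1]
  omega

theorem upperI {e d k : ℕ} (he : 1 < e) (hG : ∀ x : G, e • x = 0)
    (hd : ∀ (α : Type) (s : Finset α) (f : α → G), d ≤ s.card →
      ∃ I ⊆ s, I.Nonempty ∧ ∑ i ∈ I, f i = 0)
    (hk : (d - 1) * (cardFactors (Nat.card G) + cardFactors e - 1) < k * e)
    {ι : Type} [Fintype ι] (hι : Fintype.card ι = d - 1 + k * e) (f : ι → G) :
    ∃ I : Finset ι, I.card = k * e ∧ ∑ i ∈ I, f i = 0 := by
  have : NeZero e := ⟨by omega⟩
  have : Fact (1 < e) := ⟨he⟩
  let v : ι → G × ZMod e := fun i => (f i, 1)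
  obtain ⟨E, Res, B, hRE, hBE, hR, -, hBB, hgen⟩ :=
    parts (fun Y => cardFactors (Nat.card (gen v Y)))
      (fun _ _ h => om_le (gen_mono _ h)) (fun X Y => by convert om_sub v X Y) (d - 1) 1 (by
        have h1 := om_le (le_top (a := gen v univ))
        rw [AddSubgroup.card_top, Nat.card_prod, Nat.card_zmod,
          cardFactors_mul Nat.card_pos.ne' (by omega)] at h1
        have h2 := Nat.mul_le_mul_left (d - 1) (show cardFactors (Nat.card (gen v univ)) ≤
          cardFactors (Nat.card G) + cardFactors e - 1 + 1 by omega)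
        rw [mul_add_one] at h2
        omega)
  obtain ⟨r0, hr0⟩ : Res.Nonempty := card_pos.1 hR
  let a : ι → G := fun i => f i - f r0
  let K : AddSubgroup G := AddSubgroup.closure (a '' E)
  have hK : ∀ i ∈ E, a i ∈ K := fun i hi => AddSubgroup.subset_closure ⟨i, hi, rfl⟩
  have hg : ∀ c, ∃ b ∈ B c, AddSubgroup.closure ((fun i => a i - a b) '' B c) = K := fun c => by
    have h1 : gen v (B c) = gen v E :=
      eq_of_om (gen_mono _ (hBE c)) (by simpa using hgen c _ Subset.rfl)
    have h2 : ∀ i ∈ E, v i ∈ gen v (B c) := fun i hi =>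
      h1 ▸ AddSubgroup.subset_closure ⟨i, hi, rfl⟩
    obtain ⟨b, hb⟩ : (B c).Nonempty := by
      rw [nonempty_iff_ne_empty]
      intro h
      have := h2 r0 (hRE hr0)
      simp [h, gen, v] at this
    refine ⟨b, hb, le_antisymm ((AddSubgroup.closure_le _).2 ?_)
      ((AddSubgroup.closure_le _).2 ?_)⟩
    · rintro _ ⟨i, hi, rfl⟩
      exact sub_mem (hK i (hBE c hi)) (hK b (hBE c hb))
    · rintro _ ⟨i, hi, rfl⟩
      obtain ⟨φ, hφ⟩ := aff hG (f b)
      have m1 := AddSubgroup.mem_map_of_mem φ (sub_mem (h2 i hi) (h2 r0 (hRE hr0)))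
      rw [gen, AddMonoidHom.map_closure, Set.image_image, map_sub] at m1
      simpa [a, v, hφ] using m1
  obtain ⟨T0, hT0, hT1, hT2⟩ := min_sub a K Eᶜ
  obtain ⟨κ, _, g, n, h3, h4⟩ := fam _ _ K le_rfl le_rfl
  have h5 := zsf K hd a T0 hT2 (fun i => (g i : G)) n (fun i => (g i).2) fun c hc h =>
    h3 c hc (Subtype.ext (by simpa using h))
  obtain ⟨S, -, hS⟩ := exists_subset_card_eq (s := (univ : Finset (Fin (d - 1))))
    (n := d - 1 - T0.card) (by simp)
  obtain ⟨X, h6, h7⟩ := sums a K B (fun c i hi => hK i (hBE c hi)) hBB hg S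
  rw [ball_top _ (by omega), ← card_box, card_nu le_rfl] at h6
  have := Fintype.ofFinite G
  have h8 : X = univ.filter fun x => x ∈ K :=
    eq_of_subset_of_card_le (fun x hx => mem_filter.2 ⟨mem_univ _, (h7 x hx).1⟩)
      ((Nat.subtype_card _ (by simp)).symm.le.trans h6)
  obtain ⟨-, T, hTc, hT, hTs⟩ := h7 (∑ i, a i - ∑ i ∈ T0, a i) (by
    have := add_mem hT1 (sum_mem hK)
    rw [h8, ← sum_compl_add_sum E]
    refine mem_filter.2 ⟨mem_univ _, ?_⟩
    convert this using 1
    abel)
  have d2 : Disjoint T0 T := disjoint_left.2 fun x hx hx' => by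
    obtain ⟨c, -, hc⟩ := hT x hx'
    exact mem_compl.1 (hT0 hx) (hBE c hc)
  have c1 : (T0 ∪ T)ᶜ.card = k * e := by
    rw [card_compl, card_union_of_disjoint d2]
    omega
  refine ⟨_, c1, ?_⟩
  have s1 := sum_compl_add_sum (T0 ∪ T) a
  rw [sum_union d2, hTs] at s1
  have s2 : ∑ i ∈ (T0 ∪ T)ᶜ, a i = 0 := by
    rw [eq_sub_of_add_eq s1]
    abel
  simp only [a] at s2
  rw [sum_sub_distrib, sum_const, c1, mul_smul, hG, smul_zero, sub_zero] at s2
  exact s2

theorem mainI {k d : ℕ}
    (hd : IsLeast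
      {ℓ : ℕ | ∀ f : Fin ℓ → G, ∃ I : Finset (Fin ℓ), I.Nonempty ∧ ∑ i ∈ I, f i = 0} d)
    (hk : (d - 1) * (cardFactors (Nat.card G) + cardFactors (AddMonoid.exponent G) - 1) <
      k * AddMonoid.exponent G) :
    IsLeast {ℓ : ℕ | ∀ f : Fin ℓ → G, ∃ I : Finset (Fin ℓ),
        I.card = k * AddMonoid.exponent G ∧ ∑ i ∈ I, f i = 0}
      (d + k * AddMonoid.exponent G - 1) := by
  have hd0 : d ≠ 0 := by
    rintro rfl
    obtain ⟨I, ⟨i, -⟩, -⟩ := hd.1 fun _ => 0
    exact i.elim0
  refine ⟨fun f => ?_, fun ℓ h => ?_⟩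
  · by_cases he : 1 < AddMonoid.exponent G
    · exact upperI he AddMonoid.exponent_nsmul_eq_zero (dav_fin hd.1) hk
        (by rw [Fintype.card_fin]; omega) f
    · have h0 := (AddMonoid.ExponentExists.of_finite (G := G)).exponent_pos
      obtain ⟨I, -, hI⟩ := exists_subset_card_eq (s := univ) (n := k * AddMonoid.exponent G)
        (α := Fin (d + k * AddMonoid.exponent G - 1)) (by simp; omega)
      refine ⟨I, hI, sum_eq_zero fun i _ => ?_⟩
      have := AddMonoid.exponent_nsmul_eq_zero (f i)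
      rwa [show AddMonoid.exponent G = 1 by omega, one_nsmul] at this
  · have := lower (d := d - 1) (by omega) (fun h' => by have := hd.2 h'; omega) h
    omega

end

end Pool.Agent.Lib.MP_3184af_co.Iso
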