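import Mathlib

/-!
The exchange lemma: a maximal family of disjoint pairs makes the coefficient depend only on the
size of the chosen subset.
-/

namespace Pool.Agent.Lib.MP_3184af_co.Lin

open Finset

section seq
variable {K : Type} [Field K]

theorem seq0 (R : ℕ) (C : ℕ → K) (h : ∀ j, j + 1 < R → (fwdDiff 1)^[1] C j = 0) :
    ∀ j < R, C j = C 0 := by
  intro j
  induction j with
  | zero => simp
  | succ j ih =>
    intro hj
    have h1 := h j hj
    simp only [Function.iterate_one, fwdDiff] at h1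
    rw [← ih (by omega)]
    exact sub_eq_zero.1 h1

theorem seq (l : ℕ) (hl : (l : K) ≠ 0) (a : ℕ) : ∀ (R : ℕ) (C : ℕ → K),
    (∀ j, j + (a + 1) < R → (fwdDiff 1)^[a + 1] C j = 0) →
    (∀ j, j + l < R → C (j + l) = C j) → l + a ≤ R → ∀ j < R, C j = C 0 := by
  induction a with
  | zero => exact fun R C h _ _ => seq0 R C h
  | succ a ih =>
    intro R C h1 h2 h3
    have h4 := ih (R - 1) (fwdDiff 1 C)
      (fun j hj => by rw [← Function.iterate_succ_apply]; exact h1 j (by omega))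
      (fun j hj => by
        simp only [fwdDiff]
        rw [h2 j (by omega), show j + l + 1 = j + 1 + l by ring, h2 (j + 1) (by omega)])
      (by omega)
    have h5 : ∀ j < R, C j = C 0 + j * fwdDiff 1 C 0 := by
      intro j
      induction j with
      | zero => simp
      | succ j ihj =>
        intro hj
        have e1 := h4 j (by omega)
        have e2 := ihj (by omega)
        rw [fwdDiff] at e1
        push_cast
        linear_combination e1 + e2
    have h6 := h5 l (by omega)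
    have h7 := h2 0 (by omega)
    rw [zero_add] at h7
    have h8 : fwdDiff 1 C 0 = 0 := by
      have : (l : K) * fwdDiff 1 C 0 = 0 := by linear_combination h7 - h6
      exact (mul_eq_zero.1 this).resolve_left hl
    intro j hj
    rw [h5 j hj, h8, mul_zero, add_zero]

theorem diff_pow {p : ℕ} [hp : Fact p.Prime] (e : ℕ) (c : ℕ → ZMod p) :
    (fwdDiff 1)^[p ^ e] c = fwdDiff (p ^ e) c := by
  funext s
  have hq : 0 < p ^ e := pow_pos hp.out.pos e
  rw [fwdDiff_iter_eq_sum_shift, sum_range_succ, sum_eq_single 0]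
  · have h1 : ((-1 : ZMod p)) ^ (p ^ e) = -1 := by
      rw [ZMod.pow_card_pow]
    simp [fwdDiff, h1, sub_eq_neg_add]
  · intro k hk hk0
    have : (p : ℤ) ∣ ((p ^ e).choose k : ℤ) := by
      exact_mod_cast hp.out.dvd_choose_pow hk0 (mem_range.1 hk).ne
    obtain ⟨m, hm⟩ := this
    rw [hm, zsmul_eq_mul]
    simp
  · intro h
    exact absurd (mem_range.2 hq) h

theorem diff_level {p : ℕ} [hp : Fact p.Prime] (e a r b s : ℕ) (c : ℕ → ZMod p) (hr : r < p ^ e)
    (hc : ∀ m, ¬ p ^ e ∣ m + b → c m = 0) (hs : p ^ e ∣ s + b) (j : ℕ)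
    (h : (fwdDiff 1)^[r + p ^ e * a] c (s + j * p ^ e) = 0) :
    (fwdDiff 1)^[a] (fun i => c (s + i * p ^ e)) j = 0 := by
  have e1 : ((fwdDiff 1)^[p ^ e] : (ℕ → ZMod p) → ℕ → ZMod p) = fwdDiff (p ^ e) :=
    funext fun c => diff_pow e c
  rw [Function.iterate_add_apply, Function.iterate_mul, e1, fwdDiff_iter_eq_sum_shift,
    sum_eq_single 0] at h
  · simp only [Nat.choose_zero_right, Nat.cast_one, mul_one, tsub_zero, zero_smul, add_zero] at h
    have h2 : (fwdDiff (p ^ e))^[a] c (s + j * p ^ e) = 0 := by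
      rcases neg_one_pow_eq_or ℤ r with h3 | h3 <;> rw [h3] at h <;> simpa using h
    rw [fwdDiff_iter_eq_sum_shift] at h2 ⊢
    rw [← h2]
    refine sum_congr rfl fun k _ => ?_
    congr 2
    simp only [smul_eq_mul]
    ring
  · intro k hk hk0
    rw [fwdDiff_iter_eq_sum_shift, sum_eq_zero, smul_zero]
    intro i _
    rw [hc, smul_zero]
    intro hd
    have e2 : s + j * p ^ e + k • 1 + i • p ^ e + b = (s + b) + (j + i) * p ^ e + k := by
      simp only [smul_eq_mul]
      ring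
    rw [e2, Nat.dvd_add_right (dvd_add hs (dvd_mul_left _ _))] at hd
    have := Nat.le_of_dvd (Nat.pos_of_ne_zero hk0) hd
    have := mem_range.1 hk
    omega
  · intro h0
    exact absurd (mem_range.2 (Nat.succ_pos r)) h0

end seq

section exch
variable {R K ι : Type} [CommRing R] [AddCommGroup K] [DecidableEq ι]

theorem swap_const (W : Finset ι) (Φ : Finset ι → K)
    (h : ∀ I ⊆ W, ∀ a ∈ W, ∀ b ∈ W, a ∉ I → b ∉ I → a ≠ b → Φ (insert a I) = Φ (insert b I)) :
    ∃ c : ℕ → K, (∀ I ⊆ W, Φ I = c I.card) ∧ ∀ m, W.card < m → c m = 0 := by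
  classical
  have key : ∀ n, ∀ I ⊆ W, ∀ I' ⊆ W, (I \ I').card = n → I.card = I'.card → Φ I = Φ I' := by
    intro n
    induction n with
    | zero =>
      intro I _ I' _ h0 hc
      rw [eq_of_subset_of_card_le (sdiff_eq_empty_iff_subset.1 (card_eq_zero.1 h0)) hc.ge]
    | succ n ih =>
      intro I hI I' hI' h0 hc
      obtain ⟨a, ha⟩ : (I \ I').Nonempty := card_pos.1 (by omega)
      obtain ⟨b, hb⟩ : (I' \ I).Nonempty := card_pos.1 (by
        have := card_sdiff_add_card_inter I I'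
        have := card_sdiff_add_card_inter I' I
        rw [inter_comm] at this
        omega)
      rw [mem_sdiff] at ha hb
      have hab : a ≠ b := fun e => hb.2 (e ▸ ha.1)
      have hb' : b ∉ I.erase a := fun e => hb.2 (mem_of_mem_erase e)
      have e1 := h (I.erase a) ((erase_subset _ _).trans hI) a (hI ha.1) b (hI' hb.1)
        (notMem_erase _ _) hb' hab
      rw [insert_erase ha.1] at e1
      rw [e1]
      refine ih _ (insert_subset (hI' hb.1) ((erase_subset _ _).trans hI)) I' hI' ?_ ?_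
      · rw [insert_sdiff_of_mem _ hb.1, erase_sdiff_comm, card_erase_of_mem (mem_sdiff.2 ha)]
        omega
      · rw [card_insert_of_notMem hb', card_erase_of_mem ha.1]
        have := card_pos.2 ⟨a, ha.1⟩
        omega
  refine ⟨fun m => if h : ∃ I ⊆ W, I.card = m then Φ h.choose else 0, fun I hI => ?_,
    fun m hm => ?_⟩
  · have h1 : ∃ I' ⊆ W, I'.card = I.card := ⟨I, hI, rfl⟩
    simp only [dif_pos h1]
    exact key _ I hI _ h1.choose_spec.1 rfl h1.choose_spec.2.symm
  · refine dif_neg ?_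
    rintro ⟨I, hI, rfl⟩
    exact absurd (card_le_card hI) (by omega)

/-- A family of `b` pairs inside `U` with product `F`, together with a nonzero coefficient. -/
def Conf (x : ι → R) (ψ : R →+ K) (N : Ideal R) (U : Finset ι) (F : R) (b : ℕ) : Prop :=
  U.card = 2 * b ∧ F ∈ N ^ b ∧
    (∀ P, ψ (F * P) ≠ 0 → ∃ T ⊆ U, T.card = b ∧ ψ ((∏ i ∈ T, x i) * P) ≠ 0) ∧
    ∃ I, Disjoint I U ∧ ψ (F * ∏ i ∈ I, x i) ≠ 0

theorem exch [Fintype ι] (x : ι → R) (ψ : R →+ K) (N : Ideal R) (hN : ∀ a b, x a - x b ∈ N)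
    (t : ℕ) (hz : ∀ P ∈ N ^ (t + 1), ψ P = 0) (h1 : ψ 1 ≠ 0) :
    ∃ U F b, b ≤ t ∧ Conf x ψ N U F b ∧ ∃ c : ℕ → K,
      (∀ I ⊆ Uᶜ, ψ (F * ∏ i ∈ I, x i) = c I.card) ∧ ∀ m, Uᶜ.card < m → c m = 0 := by
  classical
  have hle : ∀ b, (∃ U F, Conf x ψ N U F b) → b ≤ t := by
    rintro b ⟨U, F, -, h2, -, I, -, h3⟩
    by_contra hlt
    exact h3 (hz _ (Ideal.mul_mem_right _ _ (Ideal.pow_le_pow_right (by omega) h2)))
  have h0 : ∃ U F, Conf x ψ N U F 0 :=
    ⟨∅, 1, by simp, by simp, fun P hP => ⟨∅, Subset.rfl, rfl, by simpa using hP⟩,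
      ∅, by simp, by simpa using h1⟩
  obtain ⟨U, F, hC⟩ := Nat.findGreatest_spec (P := fun b => ∃ U F, Conf x ψ N U F b)
    (Nat.zero_le t) h0
  set b := Nat.findGreatest (fun b => ∃ U F, Conf x ψ N U F b) t with hb
  refine ⟨U, F, b, Nat.findGreatest_le t, hC, swap_const Uᶜ (fun I => ψ (F * ∏ i ∈ I, x i)) ?_⟩
  intro I hI a ha a' ha' haI haI' hne
  by_contra hd
  have hn : ∃ U F, Conf x ψ N U F (b + 1) := by
    obtain ⟨c1, c2, c3, -⟩ := hC
    rw [mem_compl] at ha ha'
    have ha2 : a ∉ insert a' U := by simp [hne, ha]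
    refine ⟨insert a (insert a' U), F * (x a - x a'), ?_, ?_, ?_, I, ?_, ?_⟩
    · rw [card_insert_of_notMem ha2, card_insert_of_notMem ha', c1]
      ring
    · rw [pow_succ]
      exact Ideal.mul_mem_mul c2 (hN _ _)
    · intro P hP
      have e : F * (x a - x a') * P = F * (x a * P) - F * (x a' * P) := by ring
      rw [e, map_sub] at hP
      have key : ∀ z, z ∉ U → z ∈ insert a (insert a' U) → ψ (F * (x z * P)) ≠ 0 →
          ∃ T ⊆ insert a (insert a' U), T.card = b + 1 ∧ ψ ((∏ i ∈ T, x i) * P) ≠ 0 := by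
        intro z hz1 hz2 hz3
        obtain ⟨T, hT, hTc, hT2⟩ := c3 _ hz3
        have hzT : z ∉ T := fun e => hz1 (hT e)
        refine ⟨insert z T, insert_subset hz2
          (hT.trans ((subset_insert _ _).trans (subset_insert _ _))), ?_, ?_⟩
        · rw [card_insert_of_notMem hzT, hTc]
        · rw [prod_insert hzT, mul_comm (x z), mul_assoc]
          exact hT2
      by_cases h5 : ψ (F * (x a * P)) = 0
      · refine key a' ha' (by simp) fun h6 => hP ?_
        rw [h5, h6, sub_self]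
      · exact key a ha (by simp) h5
    · rw [disjoint_insert_right, disjoint_insert_right]
      exact ⟨haI, haI', disjoint_left.2 fun z hz => mem_compl.1 (hI hz)⟩
    · intro h5
      apply hd
      rw [prod_insert haI, prod_insert haI', ← sub_eq_zero, ← map_sub, ← h5]
      congr 1
      ring
  exact Nat.findGreatest_is_greatest (Nat.lt_succ_self b) (hle _ hn) hn

theorem diff_zero (x : ι → R) (ψ : R →+ K) (M : Ideal R) (hM : ∀ a, x a - 1 ∈ M) (n : ℕ) :
    ∀ (m : ℕ) (F : R) (W : Finset ι) (c : ℕ → K), F ∈ M ^ m → (∀ P ∈ M ^ (m + n), ψ P = 0) →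
      (∀ I ⊆ W, ψ (F * ∏ i ∈ I, x i) = c I.card) →
      ∀ s, s + n ≤ W.card → (fwdDiff 1)^[n] c s = 0 := by
  induction n with
  | zero =>
    intro m F W c hF hz hc s hs
    obtain ⟨I, hI, rfl⟩ := exists_subset_card_eq (s := W) (n := s) hs
    rw [Function.iterate_zero_apply, ← hc I hI]
    exact hz _ (Ideal.mul_mem_right _ _ hF)
  | succ n ih =>
    intro m F W c hF hz hc s hs
    obtain ⟨v, hv⟩ : W.Nonempty := card_pos.1 (by omega)
    rw [Function.iterate_succ_apply]
    refine ih (m + 1) (F * (x v - 1)) (W.erase v) _ ?_ ?_ ?_ s ?_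
    · rw [pow_succ]
      exact Ideal.mul_mem_mul hF (hM v)
    · rwa [show m + 1 + n = m + (n + 1) by ring]
    · intro I hI
      have hvI : v ∉ I := fun e => notMem_erase v W (hI e)
      have hIW : I ⊆ W := hI.trans (erase_subset _ _)
      have e1 := hc _ (insert_subset hv hIW)
      rw [prod_insert hvI, card_insert_of_notMem hvI] at e1
      rw [fwdDiff, ← e1, ← hc I hIW, ← map_sub]
      congr 1
      ring
    · rw [card_erase_of_mem hv]
      omega

end exch

theorem levels {R ι : Type} [CommRing R] [DecidableEq ι] [Fintype ι] {p : ℕ} [hp : Fact p.Prime]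
    (e t k n0 : ℕ) (x : ι → R) (ψ : R →+ ZMod p) (N M : Ideal R) (hNM : N ≤ M)
    (hN : ∀ a b, x a - x b ∈ N) (hM : ∀ a, x a - 1 ∈ M)
    (hz : ∀ P ∈ N ^ (t + 1), ψ P = 0) (hz' : ∀ P ∈ M ^ (t + p ^ e), ψ P = 0) (h1 : ψ 1 ≠ 0)
    (hdv : ∀ I : Finset ι, ψ (∏ i ∈ I, x i) ≠ 0 → p ^ e ∣ I.card)
    (hB : ∀ T : Finset ι, T.card = n0 → ∃ B ⊆ T, ∃ l, B.card = l * p ^ e ∧ ¬ p ∣ l ∧
      ∀ P, ψ (P * ∏ i ∈ B, x i) = ψ P)
    (hι : Fintype.card ι = k * p ^ e + t) (ht : t ≤ k * p ^ e)
    (hn : t + n0 ≤ (k + 2) * p ^ e) :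
    ∃ I : Finset ι, I.card = k * p ^ e ∧ ψ (∏ i ∈ I, x i) ≠ 0 := by
  obtain ⟨U, F, b, hb, ⟨c1, c2, c3, I0, hI0, c4⟩, c, hc, hc0⟩ := exch x ψ N hN t hz h1
  have hq : 0 < p ^ e := pow_pos hp.out.pos e
  have hfin : ∀ I ⊆ Uᶜ, c I.card ≠ 0 →
      ∃ I' : Finset ι, I'.card = I.card + b ∧ ψ (∏ i ∈ I', x i) ≠ 0 := by
    intro I hI h
    rw [← hc I hI] at h
    obtain ⟨T, hT, hTc, h2⟩ := c3 _ h
    have hd : Disjoint T I := disjoint_left.2 fun z hz hz' => mem_compl.1 (hI hz') (hT hz)
    refine ⟨T ∪ I, ?_, ?_⟩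
    · rw [card_union_of_disjoint hd, hTc, add_comm]
    · rwa [prod_union hd]
  have hU : U.card ≤ Fintype.card ι := card_le_univ U
  have hW : Uᶜ.card = Fintype.card ι - U.card := card_compl U
  have hoff : ∀ m, ¬ p ^ e ∣ m + b → c m = 0 := by
    intro m hm
    by_cases h : m ≤ Uᶜ.card
    · obtain ⟨I, hI, rfl⟩ := exists_subset_card_eq h
      by_contra h2
      obtain ⟨I', h3, h4⟩ := hfin I hI h2
      exact hm (h3 ▸ hdv I' h4)
    · exact hc0 m (not_le.1 h)
  generalize hqq : p ^ e = q at *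
  obtain ⟨d, rfl⟩ : ∃ d, t = b + d := ⟨t - b, by omega⟩
  obtain ⟨J, s, hJ, hs⟩ : ∃ J s, s + b = J * q ∧ s < q := by
    refine ⟨(b + q - 1) / q, (b + q - 1) / q * q - b, ?_, ?_⟩
    · have := Nat.lt_div_mul_add (a := b + q - 1) hq
      omega
    · have := Nat.div_mul_le_self (b + q - 1) q
      omega
  have hd := Nat.div_add_mod d q
  have hr := Nat.mod_lt d hq
  generalize d / q = a at hd
  generalize d % q = r at hd hr
  have hJk : J ≤ k := by
    by_contra h
    have : (k + 1) * q ≤ J * q := Nat.mul_le_mul_right _ (by omega)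
    rw [add_mul] at this
    omega
  obtain ⟨u, rfl⟩ : ∃ u, k = J + u := ⟨k - J, by omega⟩
  have hW' : Uᶜ.card = s + u * q + d := by
    rw [add_mul] at hι
    omega
  have H1 : ∀ j, j + (a + 1) < u + a + 1 →
      (fwdDiff 1)^[a + 1] (fun i => c (s + i * q)) j = 0 := by
    intro j hj
    subst hqq
    refine diff_level e (a + 1) r b s c hr hoff (hJ ▸ dvd_mul_left _ _) j ?_
    refine diff_zero x ψ M hM _ b F Uᶜ c (Ideal.pow_right_mono hNM b c2) ?_ hc _ ?_
    · rwa [show b + (r + p ^ e * (a + 1)) = b + d + p ^ e by rw [← hd]; ring]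
    · have : (j + 1) * p ^ e ≤ u * p ^ e := Nat.mul_le_mul_right _ (by omega)
      rw [hW', ← hd]
      nlinarith
  have H : ∀ j < u + a + 1, c (s + j * q) = c (s + 0 * q) := by
    rcases Nat.eq_zero_or_pos a with rfl | ha
    · exact seq0 _ (fun i => c (s + i * q)) H1
    · have hqd : q ≤ d := by
        have : q * 1 ≤ q * a := Nat.mul_le_mul_left _ ha
        omega
      have e0 : (J + u + 2) * q = s + b + u * q + 2 * q := by rw [hJ]; ring
      obtain ⟨T, hT, hTc⟩ := exists_subset_card_eq (s := Uᶜ) (n := n0) (by omega)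
      obtain ⟨B, hBT, l, hl, hpl, hBi⟩ := hB T hTc
      have hln : l * q ≤ n0 := by rw [← hl, ← hTc]; exact card_le_card hBT
      refine seq l (by rwa [Ne, ZMod.natCast_eq_zero_iff]) a _ (fun i => c (s + i * q)) H1 ?_ ?_
      · intro j hj
        have h5 : (j + l) * q ≤ (u + a) * q := Nat.mul_le_mul_right _ (by omega)
        obtain ⟨I, hI, hIc⟩ := exists_subset_card_eq (s := Uᶜ \ B) (n := s + j * q) (by
          rw [card_sdiff_of_subset (hBT.trans hT), hW', hl]
          have : q * a = a * q := mul_comm _ _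
          rw [add_mul, add_mul] at h5
          omega)
        have hd2 : Disjoint I B := disjoint_left.2 fun z hz => (mem_sdiff.1 (hI hz)).2
        have e1 := hc (I ∪ B) (union_subset (hI.trans sdiff_subset) (hBT.trans hT))
        rw [prod_union hd2, ← mul_assoc, hBi, hc I (hI.trans sdiff_subset),
          card_union_of_disjoint hd2, hIc, hl] at e1
        rw [e1]
        congr 1
        ring
      · by_contra h
        have : (u + 2) * q ≤ l * q := Nat.mul_le_mul_right _ (by omega)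
        rw [add_mul] at this
        omega
  have hI0' : I0 ⊆ Uᶜ := fun z hz => mem_compl.2 (disjoint_left.1 hI0 hz)
  rw [hc I0 hI0'] at c4
  obtain ⟨j0, hj0⟩ : q ∣ I0.card + b := by
    by_contra h
    exact c4 (hoff _ h)
  have h6 := card_le_card hI0'
  have h7 : J ≤ j0 := by
    by_contra h
    have : (j0 + 1) * q ≤ J * q := Nat.mul_le_mul_right _ (by omega)
    rw [add_mul, mul_comm j0] at this
    omega
  obtain ⟨j, rfl⟩ : ∃ j, j0 = J + j := ⟨j0 - J, by omega⟩
  have h8 : I0.card = s + j * q := by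
    rw [mul_comm, add_mul] at hj0
    omega
  have h9 : j < u + a + 1 := by
    by_contra h
    have : (u + a + 1) * q ≤ j * q := Nat.mul_le_mul_right _ (by omega)
    rw [add_mul, add_mul, mul_comm a] at this
    omega
  rw [h8, H j h9, ← H u (by omega)] at c4
  obtain ⟨I, hI, hIc⟩ := exists_subset_card_eq (s := Uᶜ) (n := s + u * q) (by omega)
  obtain ⟨I', h3, h4⟩ := hfin I hI (hIc ▸ c4)
  refine ⟨I', ?_, h4⟩
  rw [h3, hIc, add_mul]
  omega

end Pool.Agent.Lib.MP_3184af_co.Lin
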