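import Pool.Agent.Lib.MP_3184af_co.LinPad
import Pool.Agent.Lib.MP_3184af_co.Main

/-!
The upper bound for `p`-groups in a range linear in the Davenport constant.
-/

namespace Pool.Agent.Lib.MP_3184af_co.Lin

open Finset

theorem upper_lin {G : Type} [AddCommGroup G] [Finite G] {p e t k n0 s : ℕ} (hp : p.Prime)
    (hG : ∀ x : G, p ^ (e + 1) • x = 0)
    (hd : ∀ (α : Type) (s : Finset α) (f : α → G), t + 1 ≤ s.card →
      ∃ I ⊆ s, I.Nonempty ∧ ∑ i ∈ I, f i = 0)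
    (ht : t ≤ k * p ^ (e + 1)) (hn : t + n0 ≤ (k + 2) * p ^ (e + 1))
    (hn0 : n0 < (s + 1) * (p ^ (e + 1) * p))
    (hn1 : (p ^ e * (p - 1) + p ^ (e + 1)) * s + (t + p ^ (e + 1)) ≤ n0)
    {ι : Type} [Fintype ι] (hι : Fintype.card ι = k * p ^ (e + 1) + t) (a : ι → G) :
    ∃ I : Finset ι, I.card = k * p ^ (e + 1) ∧ ∑ i ∈ I, a i = 0 := by
  classical
  have : Fact p.Prime := ⟨hp⟩
  have hq : 0 < p ^ (e + 1) := pow_pos hp.pos _
  obtain ⟨O, _, π, φ, hw, hφ, hπ⟩ := root_ex (w := p ^ e * (p - 1)) hp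
    (Nat.mul_ne_zero (pow_pos hp.pos e).ne' (by have := hp.one_lt; omega))
  have hu : ¬ π ∣ 1 := fun h => by simpa [hφ] using map_dvd φ h
  obtain ⟨κ, _, g, f, h1, h2, h3, -⟩ := basis_ex hp (e + 1) hG
  have hs : ∑ i, (p ^ f i - 1) + (∅ : Finset ι).card < t + 1 :=
    zsf ⊤ hd a ∅ (fun I hI hne => absurd (subset_empty.1 hI) hne.ne_empty) g _
      (fun _ => trivial) fun c hc =>
        h3 c fun i => by have := hc i; have := pow_pos hp.pos (f i); omega
  rw [card_empty] at hs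
  let ρ : AddMonoidAlgebra O (G × ℕ) := algebraMap O _ π
  have hρ : ρ ^ (p ^ e * (p - 1)) = p := by rw [← map_pow, hw, map_natCast]
  let θ : κ → AddMonoidAlgebra O (G × ℕ) := fun i => E O (g i) 0 - 1
  let N : Ideal (AddMonoidAlgebra O (G × ℕ)) :=
    Ideal.span {ρ} ⊔ Ideal.span (θ '' (univ : Finset κ))
  let M : Ideal (AddMonoidAlgebra O (G × ℕ)) := N ⊔ Ideal.span {E O 0 1 - 1}
  have hNM : N ≤ M := le_sup_left
  have hρN : ρ ∈ N := Ideal.mem_sup_left (Ideal.mem_span_singleton_self _)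
  have hθN : ∀ i, θ i ∈ N := fun i => Ideal.mem_sup_right (Ideal.subset_span ⟨i, by simp, rfl⟩)
  have hy : E O 0 1 - 1 ∈ M := Ideal.mem_sup_right (Ideal.mem_span_singleton_self _)
  have hEN : ∀ x : G, E O x 0 - 1 ∈ N := fun x =>
    E_mem N (by rintro _ ⟨i, rfl⟩; exact hθN i) (h2 x)
  have hθ : ∀ (L : Ideal _), N ≤ L → ∀ i,
      θ i ^ (p ^ f i - 1 + 1) ∈ Ideal.span {ρ} * L ^ (p ^ f i - 1) := by
    intro L hL i
    have := neg_mem (pow_rel hp ρ (E O (g i) 0) L (hL hρN) hρ (hL (hθN i)) (f i) (h1 i).1).2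
    rw [E_pow, (h1 i).2, mul_zero, E_zero, sub_self, zero_sub, neg_neg] at this
    rwa [Nat.sub_add_cancel (pow_pos hp.pos _)]
  have cN : N ^ (t + 1) ≤ Ideal.span {ρ} := by
    have b1 := cap_fin (fun _ => Ideal.span {ρ}) N (fun _ _ => Ideal.mul_le_left) θ
      (fun i => p ^ f i - 1) hθN (fun i => Ideal.mul_le_left (hθ N le_rfl i))
      (Ideal.span {ρ}) le_sup_left 0 (by simp) univ
    exact (Ideal.pow_le_pow_right (by omega)).trans b1
  let A : ℕ → Ideal (AddMonoidAlgebra O (G × ℕ)) := fun n =>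
    Ideal.span {ρ} * M ^ (n - 1) ⊔ Ideal.span {E O 0 (p ^ (e + 1)) - 1} * M ^ (n - p ^ (e + 1))
  have hA : ∀ m n, A m * M ^ n ≤ A (m + n) := by
    intro m n
    rw [Ideal.sup_mul, mul_assoc, mul_assoc, ← pow_add, ← pow_add]
    exact sup_le_sup (Ideal.mul_mono_right (Ideal.pow_le_pow_right (by omega)))
      (Ideal.mul_mono_right (Ideal.pow_le_pow_right (by omega)))
  have cM : M ^ (t + p ^ (e + 1)) ≤ A (t + p ^ (e + 1)) := by
    have b1 := cap_fin A M hA θ (fun i => p ^ f i - 1) (fun i => hNM (hθN i))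
      (fun i => Ideal.mem_sup_left (hθ M hNM i)) (Ideal.span {ρ}) (le_sup_left.trans hNM) 0
      (le_sup_of_le_left (by simp)) univ
    have b2 : Ideal.span {E O (0 : G) 1 - 1} ^ (p ^ (e + 1) - 1 + 1) ≤
        A (p ^ (e + 1) - 1 + 1) := by
      rw [Ideal.span_singleton_pow, Ideal.span_singleton_le_iff_mem, Nat.sub_add_cancel hq]
      have b3 := neg_mem (pow_rel hp ρ (E O 0 1) M (hNM hρN) hρ hy (e + 1) le_rfl).2
      rw [E_pow, smul_zero, mul_one] at b3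
      have b4 : E O 0 (p ^ (e + 1)) - 1 ∈
          Ideal.span {E O 0 (p ^ (e + 1)) - 1} * M ^ (p ^ (e + 1) - p ^ (e + 1)) := by
        simp
      have b5 := Submodule.add_mem_sup b3 b4
      rwa [neg_sub, sub_add_cancel] at b5
    have b3 := cap_sup A M hA hNM le_sup_right b1 b2
    obtain ⟨u, hu⟩ : ∃ u, t + p ^ (e + 1) =
        0 + ∑ i, (p ^ f i - 1) + (p ^ (e + 1) - 1) + 1 + u :=
      ⟨t - ∑ i, (p ^ f i - 1), by omega⟩
    rw [hu, pow_add]
    exact (Ideal.mul_mono_left b3).trans (hA _ _)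
  have hM := Psi_dvd hq π M cM
  let Y : Polynomial O := 1 + Polynomial.C π ^ p ^ (e + 1) * Polynomial.X
  let ψ : AddMonoidAlgebra O (G × ℕ) →+ ZMod p :=
    (φ.comp (Polynomial.evalRingHom 0)).toAddMonoidHom.comp
      (Psi (p ^ (e + 1)) Y).toAddMonoidHom
  have hψ : ∀ P, ψ P = φ ((Psi (p ^ (e + 1)) Y P).eval 0) := fun _ => rfl
  have hψ0 : ∀ P, Polynomial.C π ∣ Psi (p ^ (e + 1)) Y P → ψ P = 0 := by
    rintro P ⟨c, hc⟩
    simp [hψ, hc, hφ]
  have hψE : ∀ x n, ψ (E O x n) ≠ 0 → x = 0 ∧ p ^ (e + 1) ∣ n := by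
    intro x n h
    by_contra h'
    simp [hψ, Psi_E, h'] at h
  have hψs : ∀ l P, ψ (P * E O 0 (l * p ^ (e + 1))) = ψ P := by
    intro l P
    induction l with
    | zero => simp [E_zero]
    | succ l ih =>
      have := E_mul (O := O) (0 : G) 0 (l * p ^ (e + 1)) (p ^ (e + 1))
      rw [add_zero] at this
      rw [add_mul, one_mul, ← this, ← mul_assoc, mul_comm, hψ, Psi_shift hq, ← ih, hψ]
      simp [Y]
  have hx : ∀ i, E O (a i) 1 - 1 ∈ M := by
    intro i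
    have e1 := E_mul (O := O) (a i) 0 0 1
    rw [add_zero, zero_add] at e1
    have : E O (a i) 1 - 1 = E O (a i) 0 * (E O 0 1 - 1) + (E O (a i) 0 - 1) := by
      rw [← e1]; ring
    rw [this]
    exact add_mem (Ideal.mul_mem_left _ _ hy) (hNM (hEN _))
  obtain ⟨I, hI, hI2⟩ := levels (e + 1) t k n0 (fun i => E O (a i) 1) ψ N M hNM
    (fun i j => by
      have e1 := E_mul (O := O) (a j) (a i - a j) 1 0
      rw [add_sub_cancel, add_zero] at e1
      have : E O (a i) 1 - E O (a j) 1 = E O (a j) 1 * (E O (a i - a j) 0 - 1) := by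
        rw [← e1]; ring
      rw [this]
      exact Ideal.mul_mem_left _ _ (hEN _))
    hx
    (fun P hP => by
      obtain ⟨c, rfl⟩ := Ideal.mem_span_singleton'.1 (cN hP)
      refine hψ0 _ ?_
      rw [mul_comm, ← Algebra.smul_def, map_smul, Polynomial.smul_eq_C_mul]
      exact dvd_mul_right _ _)
    (fun P hP => hψ0 _ (by simpa using hM _ P hP))
    (by rw [← E_zero, hψ, Psi_E]; simp)
    (fun I h => (hψE _ _ (by rwa [E_prod] at h)).2)
    (fun T hT => by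
      obtain ⟨B, hB, b1, l, b2, b3⟩ := block hp π hw hπ hu M hM a hx T (hT ▸ hn0) (hT ▸ hn1)
      exact ⟨B, hB, l, b2, b3, fun P => by rw [E_prod, b1, b2, hψs]⟩)
    hι ht hn
  exact ⟨I, hI, (hψE _ _ (by rwa [E_prod] at hI2)).1⟩

end Pool.Agent.Lib.MP_3184af_co.Lin
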