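import Pool.Agent.Lib.MP_3184af_co.LinEx

/-!
The integral group ring with a root of `p` adjoined, and zero-sum subsequences whose length is a
multiple of the exponent `q` but not of `p q`.
-/

namespace Pool.Agent.Lib.MP_3184af_co.Lin

open Finset Polynomial

section ideals
variable {R : Type} [CommRing R]

theorem cap_sup (A : ℕ → Ideal R) (M : Ideal R) (hA : ∀ a b, A a * M ^ b ≤ A (a + b))
    {I I' : Ideal R} (hI : I ≤ M) (hI' : I' ≤ M) {n m : ℕ} (h : I ^ (n + 1) ≤ A (n + 1))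
    (h' : I' ^ (m + 1) ≤ A (m + 1)) : (I ⊔ I') ^ (n + m + 1) ≤ A (n + m + 1) := by
  have key : ∀ (I I' : Ideal R) (n i j : ℕ), I ≤ M → I' ≤ M → I ^ (n + 1) ≤ A (n + 1) →
      I ^ (n + 1 + i) * I' ^ j ≤ A (n + 1 + (i + j)) := by
    intro I I' n i j hI hI' h
    refine le_trans ?_ (hA _ _)
    rw [pow_add, pow_add M, mul_assoc]
    exact Ideal.mul_mono h
      (Ideal.mul_mono (Ideal.pow_right_mono hI i) (Ideal.pow_right_mono hI' j))
  rw [← Ideal.add_eq_sup, add_pow, Ideal.sum_eq_sup]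
  apply Finset.sup_le
  intro i hi
  have hi' := mem_range.1 hi
  refine Ideal.mul_le_left.trans ?_
  by_cases hn : n + 1 ≤ i
  · obtain ⟨j, rfl⟩ := Nat.exists_eq_add_of_le hn
    have := key I I' n j (n + m + 1 - (n + 1 + j)) hI hI' h
    rwa [show n + 1 + (j + (n + m + 1 - (n + 1 + j))) = n + m + 1 by omega] at this
  · have := key I' I m (n - i) i hI' hI h'
    rwa [show m + 1 + (n - i + i) = n + m + 1 by omega,
      show m + 1 + (n - i) = n + m + 1 - i by omega, mul_comm] at this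

theorem cap_fin (A : ℕ → Ideal R) (M : Ideal R) (hA : ∀ a b, A a * M ^ b ≤ A (a + b))
    {κ : Type} (θ : κ → R) (n : κ → ℕ) (hθ : ∀ i, θ i ∈ M)
    (h' : ∀ i, θ i ^ (n i + 1) ∈ A (n i + 1)) (I : Ideal R) (hI : I ≤ M) (k : ℕ)
    (h : I ^ (k + 1) ≤ A (k + 1)) (s : Finset κ) :
    (I ⊔ Ideal.span (θ '' s)) ^ (k + ∑ i ∈ s, n i + 1) ≤ A (k + ∑ i ∈ s, n i + 1) := by
  classical
  induction s using Finset.induction_on with
  | empty => simpa using h
  | insert i s hi ih =>
    have e : I ⊔ Ideal.span (θ '' (insert i s : Finset κ)) =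
        (I ⊔ Ideal.span (θ '' s)) ⊔ Ideal.span {θ i} := by
      simp only [coe_insert, Set.image_insert_eq, Ideal.span_insert]
      ac_rfl
    have e2 : k + ∑ j ∈ insert i s, n j + 1 = (k + ∑ j ∈ s, n j) + n i + 1 := by
      rw [sum_insert hi]; ring
    rw [e, e2]
    refine cap_sup A M hA (sup_le hI (Ideal.span_le.2 ?_))
      ((Ideal.span_singleton_le_iff_mem _).2 (hθ i)) ih ?_
    · rintro _ ⟨j, -, rfl⟩
      exact hθ j
    · rw [Ideal.span_singleton_pow, Ideal.span_singleton_le_iff_mem]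
      exact h' i

theorem pow_rel {p e : ℕ} (hp : p.Prime) (π x : R) (M : Ideal R) (hπ : π ∈ M)
    (hw : π ^ (p ^ e * (p - 1)) = p) (hx : x - 1 ∈ M) (j : ℕ) (hj : j ≤ e + 1) :
    x ^ p ^ j - 1 ∈ M ^ p ^ j ∧
      x ^ p ^ j - 1 - (x - 1) ^ p ^ j ∈ Ideal.span {π} * M ^ (p ^ j - 1) := by
  induction j with
  | zero => simpa using hx
  | succ j ih =>
    obtain ⟨h1, h2⟩ := ih (by omega)
    obtain ⟨r, hr⟩ := exists_add_pow_prime_eq hp (x ^ p ^ j - 1) 1
    rw [sub_add_cancel, ← pow_mul, ← pow_succ] at hr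
    obtain ⟨p', rfl⟩ : ∃ p', p = p' + 1 := ⟨p - 1, by have := hp.pos; omega⟩
    have hp' : 0 < p' := by have := hp.one_lt; omega
    rw [Nat.add_sub_cancel] at hw
    have a1 : (p' + 1) ^ j * p' ≤ (p' + 1) ^ e * p' :=
      Nat.mul_le_mul_right _ (Nat.pow_le_pow_right (by omega) (by omega))
    have a2 : 0 < (p' + 1) ^ j := by positivity
    have a3 : 0 < (p' + 1) ^ j * p' := by positivity
    have a4 : (p' + 1) ^ (j + 1) = (p' + 1) ^ j * p' + (p' + 1) ^ j := by ring
    obtain ⟨w, hw'⟩ : ∃ w, (p' + 1) ^ e * p' = w + 1 := ⟨(p' + 1) ^ e * p' - 1, by omega⟩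
    have h3 : ((p' + 1 : ℕ) : R) * (x ^ (p' + 1) ^ j - 1) * 1 * r ∈
        Ideal.span {π} * M ^ ((p' + 1) ^ (j + 1) - 1) := by
      rw [← hw, hw', pow_succ' π, mul_one, mul_assoc, mul_assoc]
      refine Ideal.mul_mem_mul (Ideal.mem_span_singleton_self π) ?_
      rw [← mul_assoc]
      refine Ideal.mul_mem_right _ _ (Ideal.pow_le_pow_right (n := w + (p' + 1) ^ j) (by omega) ?_)
      rw [pow_add]
      exact Ideal.mul_mem_mul (Ideal.pow_mem_pow hπ w) h1
    have h4 : (x ^ (p' + 1) ^ j - 1) ^ (p' + 1) - ((x - 1) ^ (p' + 1) ^ j) ^ (p' + 1) ∈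
        Ideal.span {π} * M ^ ((p' + 1) ^ (j + 1) - 1) := by
      rw [← (Commute.all _ _).mul_geom_sum₂,
        show (p' + 1) ^ (j + 1) - 1 = ((p' + 1) ^ j - 1) + (p' + 1) ^ j * p' by omega, pow_add,
        ← mul_assoc]
      refine Ideal.mul_mem_mul h2 (Ideal.sum_mem _ fun i hi => ?_)
      have hi' := mem_range.1 hi
      rw [show (p' + 1) ^ j * p' = (p' + 1) ^ j * i + (p' + 1) ^ j * (p' + 1 - 1 - i) by
        rw [← mul_add]; congr 1; omega, pow_add, pow_mul, pow_mul]
      exact Ideal.mul_mem_mul (Ideal.pow_mem_pow h1 _)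
        (Ideal.pow_mem_pow (Ideal.pow_mem_pow hx _) _)
    have h5 : x ^ (p' + 1) ^ (j + 1) - 1 - (x - 1) ^ (p' + 1) ^ (j + 1) ∈
        Ideal.span {π} * M ^ ((p' + 1) ^ (j + 1) - 1) := by
      have := add_mem h3 h4
      rw [hr, pow_succ (p' + 1) j, pow_mul, one_pow]
      rw [pow_succ (p' + 1) j] at this
      convert this using 1
      abel
    refine ⟨?_, h5⟩
    have h6 : Ideal.span {π} * M ^ ((p' + 1) ^ (j + 1) - 1) ≤ M ^ (p' + 1) ^ (j + 1) := by
      conv_rhs => rw [show (p' + 1) ^ (j + 1) = ((p' + 1) ^ (j + 1) - 1) + 1 by omega, pow_succ']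
      exact Ideal.mul_mono_left ((Ideal.span_singleton_le_iff_mem _).2 hπ)
    simpa using add_mem (h6 h5) (Ideal.pow_mem_pow hx _)

end ideals

section gauss
variable {O : Type} [CommRing O] {π : O}

theorem dvd_of_comp (hπ : ∀ a, π * a = 0 → a = 0) (r : O[X]) (V : ℕ) :
    ∀ H : O[X], C π ^ V ∣ H.comp (X + C π * r) → C π ^ V ∣ H := by
  have hreg : ∀ a : O[X], C π * a = 0 → a = 0 := fun a h => by
    ext i
    simpa using hπ _ (by simpa using congrArg (fun P => coeff P i) h)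
  have hc : ∀ H : O[X], C π ∣ H.comp (X + C π * r) - H := by
    intro H
    induction H using Polynomial.induction_on' with
    | add P Q hP hQ =>
      rw [add_comp]
      convert dvd_add hP hQ using 1
      ring
    | monomial n a =>
      rw [← C_mul_X_pow_eq_monomial, mul_comp, C_comp, X_pow_comp, ← mul_sub]
      refine Dvd.dvd.mul_left (dvd_trans ?_ (sub_dvd_pow_sub_pow _ _ n)) _
      simp
  induction V with
  | zero => simp
  | succ V ih =>
    intro H h
    have h1 : C π ∣ H := by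
      have := dvd_sub ((dvd_pow_self _ V.succ_ne_zero).trans h) (hc H)
      simpa using this
    obtain ⟨H, rfl⟩ := h1
    rw [pow_succ']
    refine mul_dvd_mul_left _ (ih H ?_)
    obtain ⟨Q, hQ⟩ := h
    refine ⟨Q, sub_eq_zero.1 (hreg _ ?_)⟩
    rw [mul_comp, C_comp, pow_succ', mul_assoc] at hQ
    rw [mul_sub, hQ, sub_self]

theorem gauss (hπ : ∀ a, π * a = 0 → a = 0) (r H : O[X]) (V v s : ℕ) (hs : H.natDegree ≤ s)
    (hV : v * s < V) (h : C π ^ V ∣ H.comp (1 + C π ^ v * (X + C π * r))) :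
    π ∣ H.eval 0 := by
  have h1 : C π ^ V ∣ (taylor 1 H).comp (C (π ^ v) * X) := by
    refine dvd_of_comp hπ r V _ ?_
    convert h using 1
    simp [taylor_apply, comp_assoc, add_comm]
  have hreg : ∀ n a, π ^ n * a = 0 → a = 0 := by
    intro n
    induction n with
    | zero => simp
    | succ n ih => exact fun a h => ih a (hπ _ (by rw [← h]; ring))
  have h2 : C π ∣ taylor 1 H := by
    rw [C_dvd_iff_dvd_coeff]
    intro i
    by_cases hi : i ≤ s
    · rw [← C_pow, C_dvd_iff_dvd_coeff] at h1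
      obtain ⟨c, hc⟩ := h1 i
      rw [comp_C_mul_X_coeff, ← pow_mul] at hc
      have : v * i ≤ v * s := Nat.mul_le_mul_left _ hi
      obtain ⟨u, rfl⟩ : ∃ u, V = v * i + 1 + u := ⟨V - (v * i + 1), by omega⟩
      refine ⟨π ^ u * c, sub_eq_zero.1 (hreg (v * i) _ ?_)⟩
      linear_combination hc
    · rw [coeff_eq_zero_of_natDegree_lt (by rw [natDegree_taylor]; omega)]
      exact dvd_zero _
  have h3 := eval_dvd (x := -1) h2
  simpa [taylor_eval] using h3

end gauss

theorem root_ex {p : ℕ} (hp : p.Prime) {w : ℕ} (hw : w ≠ 0) :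
    ∃ (O : Type) (_ : CommRing O) (π : O) (φ : O →+* ZMod p),
      π ^ w = p ∧ φ π = 0 ∧ ∀ a, π * a = 0 → a = 0 := by
  have hm : (X ^ w - C (p : ℤ)).Monic := monic_X_pow_sub_C _ hw
  have h1 : (AdjoinRoot.root (X ^ w - C (p : ℤ))) ^ w =
      (p : AdjoinRoot (X ^ w - C (p : ℤ))) := by
    have := AdjoinRoot.eval₂_root (X ^ w - C (p : ℤ))
    simpa [sub_eq_zero] using this
  refine ⟨AdjoinRoot (X ^ w - C (p : ℤ)), inferInstance, AdjoinRoot.root _,
    AdjoinRoot.lift (Int.castRingHom (ZMod p)) 0 (by simp [hw]), h1, by simp, fun a ha => ?_⟩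
  have h2 : (p : ℤ) • a = 0 := by
    obtain ⟨w, rfl⟩ := Nat.exists_eq_succ_of_ne_zero hw
    rw [zsmul_eq_mul, Int.cast_natCast, ← h1, pow_succ (AdjoinRoot.root _), mul_assoc, ha,
      mul_zero]
  have := Module.Free.of_basis (AdjoinRoot.powerBasis' hm).basis
  exact (smul_eq_zero.1 h2).resolve_left (by exact_mod_cast hp.ne_zero)

section ring
variable {O G : Type} [CommRing O] [AddCommGroup G] [DecidableEq G]

/-- The basis element of the monoid ring that records a sum and a length. -/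
noncomputable def E (O : Type) [CommRing O] (g : G) (n : ℕ) : AddMonoidAlgebra O (G × ℕ) :=
  AddMonoidAlgebra.single (g, n) 1

omit [DecidableEq G] in
theorem E_mul (g h : G) (m n : ℕ) : E O g m * E O h n = E O (g + h) (m + n) := by
  simp [E, AddMonoidAlgebra.single_mul_single]

omit [DecidableEq G] in
theorem E_zero : E O (0 : G) 0 = 1 := rfl

omit [DecidableEq G] in
theorem E_pow (g : G) (m n : ℕ) : E O g m ^ n = E O (n • g) (n * m) := by
  simp [E, AddMonoidAlgebra.single_pow]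

omit [DecidableEq G] in
theorem E_prod {ι : Type} (a : ι → G) (I : Finset ι) :
    ∏ i ∈ I, E O (a i) 1 = E O (∑ i ∈ I, a i) I.card := by
  classical
  induction I using Finset.induction_on with
  | empty => simp [E_zero]
  | insert i s hi ih =>
    rw [prod_insert hi, sum_insert hi, card_insert_of_notMem hi, ih, E_mul, add_comm 1]

omit [DecidableEq G] in
theorem E_mem (N : Ideal (AddMonoidAlgebra O (G × ℕ))) {S : Set G}
    (hS : ∀ g ∈ S, E O g 0 - 1 ∈ N) {g : G} (hg : g ∈ AddSubgroup.closure S) :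
    E O g 0 - 1 ∈ N := by
  induction hg using AddSubgroup.closure_induction with
  | mem x hx => exact hS x hx
  | zero => simp [E_zero]
  | add x y _ _ hx hy =>
    have : E O (x + y) 0 - 1 = E O x 0 * (E O y 0 - 1) + (E O x 0 - 1) := by
      rw [mul_sub, E_mul]; ring
    rw [this]
    exact add_mem (Ideal.mul_mem_left _ _ hy) hx
  | neg x _ hx =>
    have : E O (-x) 0 - 1 = -E O (-x) 0 * (E O x 0 - 1) := by
      have := E_mul (O := O) (-x) x 0 0
      rw [neg_add_cancel, add_zero, E_zero] at this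
      linear_combination this
    rw [this]
    exact Ideal.mul_mem_left _ _ hx

/-- The generating function of the terms with sum zero and length divisible by `q`. -/
noncomputable def Psi (q : ℕ) (Y : O[X]) : AddMonoidAlgebra O (G × ℕ) →ₗ[O] O[X] :=
  (AddMonoidAlgebra.basis (G × ℕ) O).constr O
    fun m => if m.1 = 0 ∧ q ∣ m.2 then Y ^ (m.2 / q) else 0

theorem Psi_E (q : ℕ) (Y : O[X]) (g : G) (n : ℕ) :
    Psi q Y (E O g n) = if g = 0 ∧ q ∣ n then Y ^ (n / q) else 0 := by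
  rw [E, ← AddMonoidAlgebra.basis_apply, Psi, Module.Basis.constr_basis]

theorem Psi_shift {q : ℕ} (hq : 0 < q) (Y : O[X]) (P : AddMonoidAlgebra O (G × ℕ)) :
    Psi q Y (E O 0 q * P) = Y * Psi q Y P := by
  induction P using AddMonoidAlgebra.induction_linear with
  | zero => simp
  | add P Q hP hQ => rw [mul_add, map_add, map_add, hP, hQ, mul_add]
  | single m r =>
    have : AddMonoidAlgebra.single m r = r • E O m.1 m.2 := by simp [E]
    rw [this, mul_smul_comm, map_smul, map_smul, E_mul, Psi_E, Psi_E, zero_add,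
      Nat.add_div_left _ hq, mul_smul_comm]
    simp only [Nat.dvd_add_self_left]
    split_ifs
    · rw [pow_succ']
    · simp

theorem Psi_dvd {q t : ℕ} (hq : 0 < q) (π : O) (M : Ideal (AddMonoidAlgebra O (G × ℕ)))
    (hM : M ^ (t + q) ≤ Ideal.span {algebraMap O _ π} * M ^ (t + q - 1) ⊔
      Ideal.span {E O 0 q - 1} * M ^ (t + q - q)) (n : ℕ) :
    ∀ P ∈ M ^ n, C π ^ (n + 1 - (t + q)) ∣ Psi q (1 + C π ^ q * X) P := by
  induction n using Nat.strong_induction_on with
  | _ n ih =>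
    intro P hP
    by_cases hn : n < t + q
    · rw [Nat.sub_eq_zero_of_le hn, pow_zero]
      exact one_dvd _
    obtain ⟨m, rfl⟩ := Nat.exists_eq_add_of_le (not_lt.1 hn)
    rw [pow_add] at hP
    have h1 := Ideal.mul_mono_left hM hP
    rw [Ideal.sup_mul, mul_assoc, mul_assoc, ← pow_add, ← pow_add] at h1
    obtain ⟨_, h2, _, h3, rfl⟩ := Submodule.mem_sup.1 h1
    obtain ⟨P1, h4, rfl⟩ := Ideal.mem_span_singleton_mul.1 h2
    obtain ⟨P2, h5, rfl⟩ := Ideal.mem_span_singleton_mul.1 h3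
    rw [map_add, ← Algebra.smul_def, map_smul, sub_mul, one_mul, map_sub, Psi_shift hq,
      smul_eq_C_mul]
    refine dvd_add ?_ ?_
    · rw [show t + q + m + 1 - (t + q) = (t + q - 1 + m + 1 - (t + q)) + 1 by omega, pow_succ']
      exact mul_dvd_mul_left _ (ih _ (by omega) _ h4)
    · rw [add_mul, one_mul, add_sub_cancel_left, mul_assoc]
      refine (pow_dvd_pow _ (n := q + (t + q - q + m + 1 - (t + q))) (by omega)).trans ?_
      rw [pow_add]
      exact mul_dvd_mul_left _ ((ih _ (by omega) _ h5).mul_left _)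

theorem block {p e t s : ℕ} (hp : p.Prime) (π : O) (hw : π ^ (p ^ e * (p - 1)) = p)
    (hπ : ∀ a, π * a = 0 → a = 0) (hu : ¬ π ∣ 1) (M : Ideal (AddMonoidAlgebra O (G × ℕ)))
    (hM : ∀ n, ∀ P ∈ M ^ n,
      C π ^ (n + 1 - (t + p ^ (e + 1))) ∣ Psi (p ^ (e + 1)) (1 + C π ^ p ^ (e + 1) * X) P)
    {ι : Type} (a : ι → G) (ha : ∀ i, E O (a i) 1 - 1 ∈ M) (T : Finset ι)
    (hT : T.card < (s + 1) * (p ^ (e + 1) * p))
    (hT' : (p ^ e * (p - 1) + p ^ (e + 1)) * s + (t + p ^ (e + 1)) ≤ T.card) :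
    ∃ B ⊆ T, ∑ i ∈ B, a i = 0 ∧ ∃ l, B.card = l * p ^ (e + 1) ∧ ¬ p ∣ l := by
  classical
  by_contra hcon
  push Not at hcon
  obtain ⟨p', rfl⟩ : ∃ p', p = p' + 1 := ⟨p - 1, by have := hp.pos; omega⟩
  have hp' : 0 < p' := by have := hp.one_lt; omega
  rw [Nat.add_sub_cancel] at hw hT'
  have hz : 0 < (p' + 1) ^ e := by positivity
  have hq : (p' + 1) ^ (e + 1) = (p' + 1) ^ e * p' + (p' + 1) ^ e := by ring
  generalize (p' + 1) ^ (e + 1) = q at *
  generalize (p' + 1) ^ e = z at *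
  have hq0 : 0 < q := by omega
  have h1 : ∏ i ∈ T, (1 + -E O (a i) 1) ∈ M ^ T.card := by
    rw [← prod_const]
    refine Ideal.prod_mem_prod fun i _ => ?_
    have := neg_mem (ha i)
    rwa [neg_sub, sub_eq_add_neg] at this
  have h2 := hM _ _ h1
  let S := T.powerset.filter fun I => ∑ i ∈ I, a i = 0 ∧ q ∣ I.card
  let H : O[X] := ∑ I ∈ S, C ((-1) ^ I.card) * X ^ (I.card / q / (p' + 1))
  have h3 : Psi q (1 + C π ^ q * X) (∏ i ∈ T, (1 + -E O (a i) 1)) =
      H.comp ((1 + C π ^ q * X) ^ (p' + 1)) := by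
    rw [prod_one_add, map_sum, Polynomial.sum_comp, sum_filter]
    refine sum_congr rfl fun I hI => ?_
    have e1 : ∏ i ∈ I, -E O (a i) 1 = ((-1 : O) ^ I.card) • E O (∑ i ∈ I, a i) I.card := by
      rw [prod_neg, E_prod, Algebra.smul_def, map_pow, map_neg, map_one]
    rw [e1, map_smul, Psi_E]
    split_ifs with h
    · obtain ⟨l, hl⟩ := h.2
      obtain ⟨l', rfl⟩ := hcon I (mem_powerset.1 hI) h.1 l (hl.trans (mul_comm _ _))
      rw [mul_comp, C_comp, X_pow_comp, smul_eq_C_mul, ← pow_mul, hl,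
        Nat.mul_div_cancel_left _ hq0, Nat.mul_div_cancel_left _ (Nat.succ_pos p')]
    · simp
  obtain ⟨r, hr⟩ : ∃ r : O[X], (1 + C π ^ q * X) ^ (p' + 1) =
      1 + C π ^ (z * p' + q) * (X + C π * r) := by
    have b0 : ((p' + 1 : ℕ) : O[X]) = C π ^ (z * p') := by
      rw [← C_pow, hw, C_eq_natCast]
    have b1 : C π ^ (z * p' + q + 1) ∣ ∑ m ∈ range p', (C π ^ q * X : O[X]) ^ (m + 1 + 1) *
        1 ^ (p' + 1 - (m + 1 + 1)) * ((p' + 1).choose (m + 1 + 1) : ℕ) := by
      refine dvd_sum fun m hm => ?_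
      rw [mul_pow, ← pow_mul, one_pow, mul_one]
      by_cases hm' : m + 1 + 1 < p' + 1
      · obtain ⟨c, hc⟩ := hp.dvd_choose_self (Nat.succ_ne_zero _) hm'
        rw [hc, Nat.cast_mul, b0]
        refine (pow_dvd_pow _ (n := q * (m + 1 + 1) + z * p') (by nlinarith)).trans ?_
        rw [pow_add]
        exact mul_dvd_mul (dvd_mul_right _ _) (dvd_mul_right _ _)
      · have := mem_range.1 hm
        obtain rfl : p' = m + 1 := by omega
        refine ((pow_dvd_pow _ ?_).mul_right _).mul_right _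
        nlinarith
    obtain ⟨r, hr⟩ := b1
    refine ⟨r, ?_⟩
    rw [add_comm 1, add_pow, sum_range_succ', sum_range_succ', hr]
    simp only [zero_add, Nat.choose_one_right, b0, Nat.choose_zero_right]
    push_cast
    ring
  rw [h3, hr] at h2
  have h4 := gauss hπ r H _ _ s (by
    refine natDegree_sum_le_of_forall_le _ _ fun I hI => (natDegree_C_mul_X_pow_le _ _).trans ?_
    rw [Nat.div_div_eq_div_mul, ← Nat.lt_succ_iff, Nat.div_lt_iff_lt_mul (by positivity)]
    exact (card_le_card (mem_powerset.1 (mem_filter.1 hI).1)).trans_lt hT) (by omega) h2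
  have h5 : H.eval 0 = 1 := by
    rw [eval_finsetSum, sum_eq_single ∅]
    · simp
    · intro I hI hne
      rw [mem_filter, mem_powerset] at hI
      obtain ⟨l, hl⟩ := hI.2.2
      obtain ⟨l', rfl⟩ := hcon I hI.1 hI.2.1 l (hl.trans (mul_comm _ _))
      have : l' ≠ 0 := by
        rintro rfl
        exact hne (card_eq_zero.1 (by simpa using hl))
      rw [hl, Nat.mul_div_cancel_left _ hq0, Nat.mul_div_cancel_left _ (Nat.succ_pos p')]
      simp [this]
    · intro h
      exact absurd (by simp [S]) h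
  exact hu (h5 ▸ h4)

end ring

end Pool.Agent.Lib.MP_3184af_co.Lin
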