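import Pool.Agent.Lib.MP_3184af_co.Tate.GT

/-!
For a finite abelian group `G` of prime exponent `p` with Davenport constant `d`, one has
`s_{k p}(G) = d + k p - 1` whenever `d ≤ k p`.
-/

namespace Pool.Agent.Lib.MP_3184af_co.OldElementary

open Pool.Agent.Lib.MP_3184af_co

theorem result (G : Type) [AddCommGroup G] [Finite G] (hp : (AddMonoid.exponent G).Prime)
    (k d : ℕ)
    (hd : IsLeast
      {ℓ : ℕ | ∀ f : Fin ℓ → G, ∃ I : Finset (Fin ℓ), I.Nonempty ∧ ∑ i ∈ I, f i = 0} d)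
    (hk : d ≤ k * AddMonoid.exponent G) :
    IsLeast {ℓ : ℕ | ∀ f : Fin ℓ → G, ∃ I : Finset (Fin ℓ),
        I.card = k * AddMonoid.exponent G ∧ ∑ i ∈ I, f i = 0}
      (d + k * AddMonoid.exponent G - 1) :=
  Tate.elem hp AddMonoid.exponent_nsmul_eq_zero hd hk

end Pool.Agent.Lib.MP_3184af_co.OldElementary
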