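import Pool.Agent.Lib.MP_3184af_co.ExMain

/-!
For a finite abelian `p`-group `G` with Davenport constant `d` and exponent `q`, and `p ^ c ∣ k`,
one has `s_{k q}(G) = d + k q - 1` as soon as `d - 1 + q / p ≤ k q` and
`d - 1 + q / p < p ^ (c + 1) q`.
-/

namespace Pool.Agent.Lib.MP_3184af_co.OldExactRange

open Pool.Agent.Lib.MP_3184af_co

theorem result (p l : ℕ) (hp : p.Prime) (G : Type) [AddCommGroup G] [Fintype G]
    (hl : Fintype.card G = p ^ l) (k d c : ℕ)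
    (hd : IsLeast
      {ℓ : ℕ | ∀ f : Fin ℓ → G, ∃ I : Finset (Fin ℓ), I.Nonempty ∧ ∑ i ∈ I, f i = 0} d)
    (hc : p ^ c ∣ k)
    (h1 : p * d + AddMonoid.exponent G ≤ p * (k * AddMonoid.exponent G) + p)
    (h2 : p * d + AddMonoid.exponent G < p ^ (c + 2) * AddMonoid.exponent G + p) :
    IsLeast {ℓ : ℕ | ∀ f : Fin ℓ → G, ∃ I : Finset (Fin ℓ),
        I.card = k * AddMonoid.exponent G ∧ ∑ i ∈ I, f i = 0}
      (d + k * AddMonoid.exponent G - 1) := by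
  obtain ⟨e, -, he⟩ := (Nat.dvd_prime_pow hp).1 (hl ▸ AddGroup.exponent_dvd_card (G := G))
  have hG : ∀ x : G, p ^ e • x = 0 := fun x => he ▸ AddMonoid.exponent_nsmul_eq_zero x
  obtain ⟨k, rfl⟩ := hc
  rw [he] at h1 h2 ⊢
  have e1 : p ^ c * k * p ^ e = k * p ^ (c + e) := by ring
  have e2 : p ^ (c + 2) * p ^ e = p * (p * p ^ (c + e)) := by ring
  rw [e1] at h1 ⊢
  rw [e2] at h2
  have h3 := Nat.mul_div_le (p ^ e) p
  have h4 : 0 < p ^ e := pow_pos hp.pos e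
  have hd0 : 0 < d := Nat.pos_of_ne_zero (by
    rintro rfl
    obtain ⟨I, ⟨i, -⟩, -⟩ := hd.1 fun _ => 0
    exact i.elim0)
  refine Ex.exact hp hG hd (Nat.pos_of_ne_zero ?_) (Nat.le_of_mul_le_mul_left ?_ hp.pos)
    (Nat.lt_succ_iff.1 (Nat.lt_of_mul_lt_mul_left (a := p) ?_))
  · rintro rfl
    have := Nat.mul_le_mul_left p hd0
    omega
  · rw [mul_add, mul_add]
    omega
  · rw [mul_add, Nat.mul_succ]
    omega

end Pool.Agent.Lib.MP_3184af_co.OldExactRange
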