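import Pool.Agent.Lib.MP_3184af_co.LinMain

/-!
For a finite abelian `p`-group `G` with Davenport constant `d` and exponent `q`, and a natural
number `s` with `p (d - 1 + q) < (p ^ 2 + s (p - 1) ^ 2) q`, one has `s_{k q}(G) = d + k q - 1` as
soon as `p ((k + 1) q + 2 - 2 d) ≥ s (2 p - 1) q`.
-/

namespace Pool.Agent.Lib.MP_3184af_co.OldLinearRange

open Pool.Agent.Lib.MP_3184af_co

theorem result (p l : ℕ) (hp : p.Prime) (G : Type) [AddCommGroup G] [Fintype G]
    (hl : Fintype.card G = p ^ l) (k d s : ℕ) (hk : 0 < k)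
    (hd : IsLeast
      {ℓ : ℕ | ∀ f : Fin ℓ → G, ∃ I : Finset (Fin ℓ), I.Nonempty ∧ ∑ i ∈ I, f i = 0} d)
    (hs : (p : ℤ) * ((d : ℤ) - 1 + (AddMonoid.exponent G : ℤ)) <
      ((p : ℤ) ^ 2 + (s : ℤ) * ((p : ℤ) - 1) ^ 2) * (AddMonoid.exponent G : ℤ))
    (hks : (s : ℤ) * (2 * (p : ℤ) - 1) * (AddMonoid.exponent G : ℤ) ≤
      (p : ℤ) * (((k : ℤ) + 1) * (AddMonoid.exponent G : ℤ) + 2 - 2 * (d : ℤ))) :
    IsLeast {ℓ : ℕ | ∀ f : Fin ℓ → G, ∃ I : Finset (Fin ℓ),
        I.card = k * AddMonoid.exponent G ∧ ∑ i ∈ I, f i = 0}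
      (d + k * AddMonoid.exponent G - 1) := by
  obtain ⟨e, -, he⟩ := (Nat.dvd_prime_pow hp).1 (hl ▸ AddGroup.exponent_dvd_card (G := G))
  have hG : ∀ x : G, p ^ e • x = 0 := fun x => he ▸ AddMonoid.exponent_nsmul_eq_zero x
  rw [he] at hs hks ⊢
  have hq : 0 < p ^ e := pow_pos hp.pos e
  have hn : 0 < k * p ^ e := Nat.mul_pos hk hq
  obtain ⟨t, rfl⟩ : ∃ t, d = t + 1 := by
    refine Nat.exists_eq_succ_of_ne_zero ?_
    rintro rfl
    obtain ⟨I, ⟨i, -⟩, -⟩ := hd.1 fun _ => 0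
    exact i.elim0
  refine ⟨fun f => ?_, fun ℓ h => ?_⟩
  · rcases e with _ | e
    · obtain ⟨I, -, hI⟩ := Finset.exists_subset_card_eq
        (s := (Finset.univ : Finset (Fin (t + 1 + k * p ^ 0 - 1)))) (n := k * p ^ 0) (by simp)
      exact ⟨I, hI, by simpa using hG _⟩
    · have hq' : p ^ (e + 1) ≤ k * p ^ (e + 1) := Nat.le_mul_of_pos_left _ hk
      have hp0 : (0 : ℤ) < p := by exact_mod_cast hp.pos
      have key : t + ((p ^ e * (p - 1) + p ^ (e + 1)) * s + (t + p ^ (e + 1))) ≤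
          (k + 2) * p ^ (e + 1) := by
        zify [hp.one_le]
        push_cast at hks
        refine le_of_mul_le_mul_left ?_ hp0
        rw [pow_succ] at hks ⊢
        linarith
      refine Lin.upper_lin (s := s) (t := t) hp hG (dav_fin hd.1) ?_ key ?_ le_rfl
        (by rw [Fintype.card_fin]; omega) f
      · rw [add_mul k] at key
        omega
      · zify [hp.one_le]
        push_cast at hs
        refine lt_of_mul_lt_mul_left ?_ hp0.le
        rw [pow_succ (p : ℤ) e] at hs ⊢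
        linarith
  · have := lower (d := t) hn (fun h' => by have := hd.2 h'; omega) h
    omega

end Pool.Agent.Lib.MP_3184af_co.OldLinearRange
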