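import Pool.Agent.Lib.MP_3184af_co.Main

/-!
For a finite abelian `p`-group `G` with Davenport constant `d ≤ u * p + 1` and exponent `q`, one
has `s_{k q}(G) = d + k q - 1` as soon as
`k q (p - 1) ≥ p (d + q - 2) (1 + 1/2 + ⋯ + 1/u)`.
-/

namespace Pool.Agent.Lib.MP_3184af_co.OldLogDavenport

open Pool.Agent.Lib.MP_3184af_co

theorem result (p l : ℕ) (hp : p.Prime) (G : Type) [AddCommGroup G] [Fintype G]
    (hl : Fintype.card G = p ^ l) (k d u : ℕ) (hk : 0 < k)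
    (hd : IsLeast
      {ℓ : ℕ | ∀ f : Fin ℓ → G, ∃ I : Finset (Fin ℓ), I.Nonempty ∧ ∑ i ∈ I, f i = 0} d)
    (hu : d ≤ u * p + 1)
    (hku : (p : ℚ) * ((d : ℚ) + (AddMonoid.exponent G : ℚ) - 2) *
      ∑ i ∈ Finset.range u, (1 : ℚ) / ((i : ℚ) + 1) ≤
      (k : ℚ) * (AddMonoid.exponent G : ℚ) * ((p : ℚ) - 1)) :
    IsLeast {ℓ : ℕ | ∀ f : Fin ℓ → G, ∃ I : Finset (Fin ℓ),
        I.card = k * AddMonoid.exponent G ∧ ∑ i ∈ I, f i = 0}
      (d + k * AddMonoid.exponent G - 1) := by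
  obtain ⟨e, -, he⟩ := (Nat.dvd_prime_pow hp).1 (hl ▸ AddGroup.exponent_dvd_card (G := G))
  have hG : ∀ x : G, p ^ e • x = 0 := fun x => he ▸ AddMonoid.exponent_nsmul_eq_zero x
  rw [he] at hku ⊢
  have h1 : p - 1 + 1 = p := Nat.sub_add_cancel hp.pos
  refine main (c := fun j => p ^ j - p ^ j / p) (w := p - 1) (u := u) hp
    (fun f hf => (gam_log hp.one_lt f hf).ge) hG hk hd (by rwa [h1]) ?_
  have h2 := wr_log hp hG hd.1
  generalize wr p e _ (⊤ : AddSubgroup G) + gam e _ e = R at h2 ⊢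
  rw [h1]
  have h3 : ((p : ℚ) - 1) * R ≤ (d : ℚ) + (p ^ e : ℕ) - 2 := by
    have : (((p - 1) * R + 2 : ℕ) : ℚ) ≤ (d + p ^ e : ℕ) := by exact_mod_cast h2
    rw [Nat.cast_add, Nat.cast_mul, Nat.cast_pred hp.pos, Nat.cast_add] at this
    push_cast at this ⊢
    linarith
  have h4 : (0 : ℚ) < (p : ℚ) - 1 := sub_pos.2 (by exact_mod_cast hp.one_lt)
  have h5 : (0 : ℚ) ≤ p * ∑ i ∈ Finset.range u, (1 : ℚ) / ((i : ℚ) + 1) := by positivity
  have h6 := mul_le_mul_of_nonneg_left h3 h5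
  refine le_of_mul_le_mul_right ?_ h4
  rw [Nat.cast_mul]
  linarith

end Pool.Agent.Lib.MP_3184af_co.OldLogDavenport
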