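import Pool.Agent.Lib.MP_3184af_co.Main

/-!
For a finite abelian `p`-group `G` of order `p ^ l`, exponent `q = p ^ e` and Davenport constant
`d`, if `q - 1 ≤ e w` and `d ≤ u (w + 1) + 1`, one has `s_{k q}(G) = d + k q - 1` as soon as
`k q ≥ (l + e) (w + 1) (1 + 1/2 + ⋯ + 1/u)`.
-/

namespace Pool.Agent.Lib.MP_3184af_co.OldLogOrder

open Pool.Agent.Lib.MP_3184af_co

theorem result (p l e : ℕ) (hp : p.Prime) (G : Type) [AddCommGroup G] [Fintype G]
    (hl : Fintype.card G = p ^ l) (he : AddMonoid.exponent G = p ^ e) (k d w u : ℕ) (hk : 0 < k)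
    (hd : IsLeast
      {ℓ : ℕ | ∀ f : Fin ℓ → G, ∃ I : Finset (Fin ℓ), I.Nonempty ∧ ∑ i ∈ I, f i = 0} d)
    (hw : p ^ e ≤ e * w + 1) (hu : d ≤ u * (w + 1) + 1)
    (hku : ((l : ℚ) + (e : ℚ)) * ((w : ℚ) + 1) *
      ∑ i ∈ Finset.range u, (1 : ℚ) / ((i : ℚ) + 1) ≤ (k : ℚ) * (p : ℚ) ^ e) :
    IsLeast {ℓ : ℕ | ∀ f : Fin ℓ → G, ∃ I : Finset (Fin ℓ),
        I.card = k * AddMonoid.exponent G ∧ ∑ i ∈ I, f i = 0}
      (d + k * AddMonoid.exponent G - 1) := by
  have hG : ∀ x : G, p ^ e • x = 0 := fun x => he ▸ AddMonoid.exponent_nsmul_eq_zero x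
  rw [he]
  have h1 : ∀ f ≤ e, gam e (fun j => 1 - j) f = f := by
    intro f hf
    rw [gam_eq _ hf]
    cases f with
    | zero => simp
    | succ f => simp [Finset.sum_range_succ']
  have h2 : wr p e (fun j => 1 - j) (⊤ : AddSubgroup G) ≤ l := by
    cases e with
    | zero => simp [wr]
    | succ e =>
      have := om_le (le_top (a := (⊤ : AddSubgroup G).map (nsmulAddMonoidHom (p ^ 0))))
      rw [AddSubgroup.card_top, Nat.card_eq_fintype_card (α := G), hl,
        ArithmeticFunction.cardFactors_apply_prime_pow hp] at this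
      simpa [wr, lam, Finset.sum_range_succ'] using this
  refine main (c := fun j => 1 - j) (w := w) (u := u) hp (fun f hf => ?_) hG hk hd hu ?_
  · rw [h1 f hf]
    rcases Nat.eq_zero_or_pos f with rfl | h0
    · simp
    have h3 := pow_conv hp.one_lt hf
    have h4 : (p ^ e - 1) * f ≤ w * f * e := by
      rw [mul_right_comm]
      exact Nat.mul_le_mul_right _ (by rw [mul_comm]; omega)
    have h5 := Nat.le_of_mul_le_mul_right (h3.trans h4) (by omega)
    omega
  · rw [h1 e le_rfl]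
    have h3 : ((wr p e (fun j => 1 - j) (⊤ : AddSubgroup G) + e : ℕ) : ℚ) ≤ (l : ℚ) + e := by
      exact_mod_cast Nat.add_le_add_right h2 e
    have h5 : (0 : ℚ) ≤ (w + 1 : ℕ) * ∑ i ∈ Finset.range u, (1 : ℚ) / ((i : ℚ) + 1) := by
      positivity
    have h6 := mul_le_mul_of_nonneg_left h3 h5
    push_cast at h6 ⊢
    linarith

end Pool.Agent.Lib.MP_3184af_co.OldLogOrder
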